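import Pool.Agent.HSP.Stmts

/-!
# BES: Bessel inequality for the windows
-/

set_option autoImplicit false

open Filter Topology
open scoped ComplexOrder

noncomputable section

namespace Pool.Agent.HSP

namespace BES

/-- the square of `√(D + 1)⁻¹` -/
theorem sq_inv (D : ℕ) : (Real.sqrt ((D : ℝ) + 1))⁻¹ * (Real.sqrt ((D : ℝ) + 1))⁻¹ =
    ((D : ℝ) + 1)⁻¹ := by
  rw [← mul_inv, Real.mul_self_sqrt (by positivity)]

theorem rM_eq (D d r : ℕ) : rM D d r = ∑ p ∈ Finset.range (D + 1),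
    (((((d : ℝ) + 1) * (Real.sqrt ((D : ℝ) + 1))⁻¹) * win D d r p : ℝ) : ℂ) • oM D p := by
  ext a b
  rw [Matrix.sum_apply]
  have h1 : ∀ p ∈ Finset.range (D + 1),
      ((((((d : ℝ) + 1) * (Real.sqrt ((D : ℝ) + 1))⁻¹) * win D d r p : ℝ) : ℂ) • oM D p) a b =
      if (b : ℕ) = p then ((((((d : ℝ) + 1) * (Real.sqrt ((D : ℝ) + 1))⁻¹) * win D d r p : ℝ) : ℂ) *
        (((Real.sqrt ((D : ℝ) + 1))⁻¹ : ℝ) : ℂ)) else 0 := by
    intro p _
    rw [Matrix.smul_apply, smul_eq_mul, oM, mul_ite, mul_zero]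
  rw [Finset.sum_congr rfl h1, Finset.sum_ite_eq, if_pos (Finset.mem_range.mpr b.isLt)]
  rw [rM, ← Complex.ofReal_mul]
  congr 1
  have := sq_inv D
  rw [div_eq_mul_inv, ← this]
  ring

theorem star_oM_mul (D p : ℕ) (a b : Fin (D + 1)) : (star (oM D p) * oM D p) a b =
    if (a : ℕ) = p ∧ (b : ℕ) = p then (1 : ℂ) else 0 := by
  rw [Matrix.mul_apply]
  have h1 : ∀ j ∈ (Finset.univ : Finset (Fin (D + 1))), (star (oM D p)) a j * oM D p j b =
      if (a : ℕ) = p ∧ (b : ℕ) = p then (((D : ℝ) + 1)⁻¹ : ℂ) else 0 := by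
    intro j _
    rw [Matrix.star_apply]
    simp only [oM]
    by_cases ha : (a : ℕ) = p
    · by_cases hb : (b : ℕ) = p
      · rw [if_pos ha, if_pos hb, if_pos ⟨ha, hb⟩]
        rw [RCLike.star_def, Complex.conj_ofReal, ← Complex.ofReal_mul, sq_inv]
        push_cast
        rfl
      · rw [if_neg hb, mul_zero, if_neg (fun h => hb h.2)]
    · rw [if_neg ha, star_zero, zero_mul, if_neg (fun h => ha h.1)]
  rw [Finset.sum_congr rfl h1, Finset.sum_const, Finset.card_univ, Fintype.card_fin]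
  split_ifs with h
  · rw [nsmul_eq_mul]
    push_cast
    have : ((D : ℂ) + 1) ≠ 0 := by
      exact_mod_cast Nat.succ_ne_zero D
    field_simp
  · simp

theorem sum_star_oM_mul (D : ℕ) : ∑ p ∈ Finset.range (D + 1), star (oM D p) * oM D p = 1 := by
  ext a b
  rw [Matrix.sum_apply]
  have h1 : ∀ p ∈ Finset.range (D + 1), (star (oM D p) * oM D p) a b =
      if (a : ℕ) = p then (if (b : ℕ) = (a : ℕ) then (1 : ℂ) else 0) else 0 := by
    intro p _
    rw [star_oM_mul]
    by_cases ha : (a : ℕ) = p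
    · subst ha
      simp
    · rw [if_neg ha, if_neg (fun h => ha h.1)]
  rw [Finset.sum_congr rfl h1, Finset.sum_ite_eq, if_pos (Finset.mem_range.mpr a.isLt)]
  rw [Matrix.one_apply]
  by_cases h : a = b
  · subst h
    simp
  · rw [if_neg h, if_neg (fun h' => h (Fin.ext h'.symm))]

end BES

theorem t_BES (hWINS : Stmt_WINS) (_hNRM : Stmt_NRM) : Stmt_BES := by
  intro D η H _ _ _ s i d x hd
  obtain ⟨hnn, -, hsum1, hsum2⟩ := hWINS (D i) d hd
  -- the components
  have hx : ∑ p ∈ Finset.range (D i + 1), ‖s.π i (oM (D i) p) x‖ ^ 2 = ‖x‖ ^ 2 := by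
    have h1 : ∀ p ∈ Finset.range (D i + 1), ((‖s.π i (oM (D i) p) x‖ ^ 2 : ℝ) : ℂ) =
        inner ℂ x (s.π i (star (oM (D i) p) * oM (D i) p) x) := by
      intro p _
      rw [map_mul, map_star, mul_apply_eq_comp, ContinuousLinearMap.star_eq_adjoint,
        ContinuousLinearMap.adjoint_inner_right, inner_self_eq_norm_sq_to_K]
      push_cast
      rfl
    have h2 : ((∑ p ∈ Finset.range (D i + 1), ‖s.π i (oM (D i) p) x‖ ^ 2 : ℝ) : ℂ) =
        ((‖x‖ ^ 2 : ℝ) : ℂ) := by
      rw [Complex.ofReal_sum, Finset.sum_congr rfl h1, ← inner_sum]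
      have h3 : ∑ p ∈ Finset.range (D i + 1), (s.π i (star (oM (D i) p) * oM (D i) p)) x = x := by
        rw [← sum_apply, ← map_sum, BES.sum_star_oM_mul, map_one,
          one_apply_eq_self]
      rw [h3, inner_self_eq_norm_sq_to_K]
      push_cast
      rfl
    exact_mod_cast h2
  have hr : ∀ r ∈ Finset.range (d + 1), ‖s.π i (rM (D i) d r) x‖ ^ 2 ≤
      ((d : ℝ) + 1) * ∑ p ∈ Finset.range (D i + 1), win (D i) d r p *
        ‖s.π i (oM (D i) p) x‖ ^ 2 := by
    intro r hr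
    have hrd : r ≤ d := by
      have := Finset.mem_range.mp hr
      omega
    have e1 : s.π i (rM (D i) d r) x = ((((d : ℝ) + 1) * (Real.sqrt ((D i : ℝ) + 1))⁻¹ : ℝ) : ℂ) •
        ∑ p ∈ Finset.range (D i + 1), ((win (D i) d r p : ℝ) : ℂ) • s.π i (oM (D i) p) x := by
      rw [BES.rM_eq, map_sum, sum_apply, Finset.smul_sum]
      apply Finset.sum_congr rfl
      intro p _
      rw [map_smul, smul_apply, smul_smul, ← Complex.ofReal_mul]
    have e2 : ‖∑ p ∈ Finset.range (D i + 1), ((win (D i) d r p : ℝ) : ℂ) •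
        s.π i (oM (D i) p) x‖ ≤ ∑ p ∈ Finset.range (D i + 1), win (D i) d r p *
          ‖s.π i (oM (D i) p) x‖ := by
      apply (norm_sum_le _ _).trans
      apply Finset.sum_le_sum
      intro p _
      rw [norm_smul, Complex.norm_real, Real.norm_of_nonneg (hnn r p)]
    have e3 : (∑ p ∈ Finset.range (D i + 1), win (D i) d r p *
          ‖s.π i (oM (D i) p) x‖) ^ 2 ≤ (∑ p ∈ Finset.range (D i + 1), win (D i) d r p) *
          ∑ p ∈ Finset.range (D i + 1), win (D i) d r p * ‖s.π i (oM (D i) p) x‖ ^ 2 := by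
      apply Finset.sum_sq_le_sum_mul_sum_of_sq_le_mul
      · intro p _
        exact hnn r p
      · intro p _
        exact mul_nonneg (hnn r p) (sq_nonneg _)
      · intro p _
        exact le_of_eq (by ring)
    rw [hsum2 r hrd] at e3
    rw [e1, norm_smul, Complex.norm_real, mul_pow]
    have e4 : ‖((d : ℝ) + 1) * (Real.sqrt ((D i : ℝ) + 1))⁻¹‖ ^ 2 =
        ((d : ℝ) + 1) ^ 2 * ((D i : ℝ) + 1)⁻¹ := by
      rw [Real.norm_eq_abs, sq_abs, mul_pow, pow_two ((Real.sqrt ((D i : ℝ) + 1))⁻¹), BES.sq_inv]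
    rw [e4]
    have e5 := (pow_le_pow_left₀ (norm_nonneg _) e2 2).trans e3
    have hpos : 0 < (D i : ℝ) + 1 := by positivity
    have hpos' : 0 < (d : ℝ) + 1 := by positivity
    refine (mul_le_mul_of_nonneg_left e5 (by positivity)).trans (le_of_eq ?_)
    field_simp
  refine (Finset.sum_le_sum hr).trans (le_of_eq ?_)
  rw [← Finset.mul_sum, Finset.sum_comm, ← hx]
  congr 1
  apply Finset.sum_congr rfl
  intro p hp
  have hp' : p ≤ D i := by
    have := Finset.mem_range.mp hp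
    omega
  rw [← Finset.sum_mul, hsum1 p hp', one_mul]

end Pool.Agent.HSP
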