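import Pool.Agent.HSP.Stmts

/-!
# DESC: one step of the descent
-/

set_option autoImplicit false

open Filter Topology
open scoped ComplexOrder

noncomputable section

namespace Pool.Agent.HSP

namespace DESC

/-- the full rank one matrix -/
def xF (D d r g : ℕ) : Mt D := fun a b =>
  ((win D d (r + g) a * win D d r b / ((D : ℝ) + 1) : ℝ) : ℂ)

theorem adT_zero (D : ℕ) : adT D 0 = 0 := by
  simp [adT]

theorem adT_iter_zero (D n : ℕ) : (adT D)^[n] 0 = 0 := by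
  induction n with
  | zero => rfl
  | succ n ih => rw [Function.iterate_succ_apply', ih, adT_zero]

theorem iter_kill (hWINA : Stmt_WINA) {D d r g k : ℕ} (hd : d ≤ D) (hr : r + g ≤ d)
    (hk : 2 * d ≤ k) : (adT D)^[k + 1] (xM D d r g) = 0 := by
  have h1 : k + 1 = (k - 2 * d) + (2 * d + 1) := by omega
  rw [h1, Function.iterate_add_apply, hWINA D d r g hd hr, adT_iter_zero]

/-- sum of constant bounds over a square -/
theorem sum_bound {D : ℕ} (A : Mt D) (c : ℝ) (hc : 0 ≤ c)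
    (hA : ∀ a b, ‖A a b‖ ≤ c / ((D : ℝ) + 1)) : ∑ a, ∑ b, ‖A a b‖ ^ 2 ≤ c ^ 2 := by
  have hD : (0 : ℝ) < (D : ℝ) + 1 := by positivity
  have h1 : ∑ a, ∑ b, ‖A a b‖ ^ 2 ≤
      ∑ _a : Fin (D + 1), ∑ _b : Fin (D + 1), (c / ((D : ℝ) + 1)) ^ 2 := by
    refine Finset.sum_le_sum fun a _ => Finset.sum_le_sum fun b _ => ?_
    exact pow_le_pow_left₀ (norm_nonneg _) (hA a b) 2
  refine h1.trans (le_of_eq ?_)
  simp only [Finset.sum_const, Finset.card_univ, Fintype.card_fin, nsmul_eq_mul]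
  push_cast
  field_simp

theorem xM_norm (hWINS : Stmt_WINS) {D d r g : ℕ} (hd : d ≤ D) (hr : r + g ≤ d)
    (a b : Fin (D + 1)) : ‖xM D d r g a b‖ ≤ 1 / ((D : ℝ) + 1) := by
  have hD : (0 : ℝ) < (D : ℝ) + 1 := by positivity
  obtain ⟨h0, h1, _, _⟩ := hWINS D d hd
  have ha : (a : ℕ) ≤ D := Nat.lt_succ_iff.mp a.2
  have hb : (b : ℕ) ≤ D := Nat.lt_succ_iff.mp b.2
  unfold xM
  split_ifs with hab
  · rw [Complex.norm_real, Real.norm_eq_abs, abs_of_nonneg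
      (div_nonneg (mul_nonneg (h0 _ _) (h0 _ _)) hD.le)]
    exact div_le_div_of_nonneg_right
      (mul_le_one₀ (h1 _ _ ha (by omega)) (h0 _ _) (h1 _ _ hb (by omega))) hD.le
  · rw [norm_zero]
    positivity

theorem xF_sub_norm (hWINS : Stmt_WINS) (hWINP : Stmt_WINP) {D d r g h : ℕ} (hd : d ≤ D)
    (hr : r + g ≤ d) (hh : 4 * h ≤ g) (a b : Fin (D + 1)) :
    ‖(xF D d r g - xM D d r g) a b‖ ≤
      Real.exp (-((g : ℝ) * (h : ℝ) / (d : ℝ))) / ((D : ℝ) + 1) := by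
  have hD : (0 : ℝ) < (D : ℝ) + 1 := by positivity
  obtain ⟨h0, h1, _, _⟩ := hWINS D d hd
  have ha : (a : ℕ) ≤ D := Nat.lt_succ_iff.mp a.2
  have hb : (b : ℕ) ≤ D := Nat.lt_succ_iff.mp b.2
  rw [Matrix.sub_apply]
  unfold xM xF
  split_ifs with hab
  · rw [sub_self, norm_zero]
    positivity
  · rw [sub_zero, Complex.norm_real, Real.norm_eq_abs, abs_of_nonneg
      (div_nonneg (mul_nonneg (h0 _ _) (h0 _ _)) hD.le), mul_comm]
    exact div_le_div_of_nonneg_right (hWINP D d r g h b a hd hr hh (by omega) hb) hD.le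

/-- the product of the averaging matrices -/
theorem rM_mul {D d r g : ℕ} :
    star (rM D d (r + g)) * rM D d r = (((d : ℂ) + 1) ^ 2) • xF D d r g := by
  have hD : ((D : ℂ) + 1) ≠ 0 := by exact_mod_cast Nat.succ_ne_zero D
  ext a b
  rw [Matrix.mul_apply, Matrix.smul_apply, smul_eq_mul]
  simp only [Matrix.star_eq_conjTranspose, Matrix.conjTranspose_apply, rM, xF]
  simp only [Finset.sum_const, Finset.card_univ, Fintype.card_fin, nsmul_eq_mul]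
  rw [Complex.star_def, Complex.conj_ofReal]
  push_cast
  field_simp

end DESC

open DESC in
theorem t_DESC (hNRM : Stmt_NRM) (hWINS : Stmt_WINS) (hWINP : Stmt_WINP) (hWINA : Stmt_WINA)
    (hLIFT : Stmt_LIFT) : Stmt_DESC := by
  intro D η H _ _ _ s m k d g h r θ x φ hηm hηm1 hee hdk hdD hrg hhg hθ hS Φ hΦ
  set i := m + 1 with hi
  set ε : ℝ := Real.exp (-((g : ℝ) * (h : ℝ) / (d : ℝ))) with hε
  have hε0 : 0 ≤ ε := (Real.exp_pos _).le
  obtain ⟨hFro, -, -, -, -, -, -, -⟩ := hNRM D η H s i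
  obtain ⟨-, -, htk, -, -, -, -, -⟩ := hNRM D η H s m
  have hX1 : ‖s.π i (xM (D i) d r g)‖ ≤ 1 :=
    hFro _ 1 zero_le_one (sum_bound _ 1 zero_le_one fun a b => xM_norm hWINS hdD hrg a b)
  have hX2 : ‖s.π i (xF (D i) d r g - xM (D i) d r g)‖ ≤ ε :=
    hFro _ ε hε0 (sum_bound _ ε hε0 fun a b => xF_sub_norm hWINS hWINP hdD hrg hhg a b)
  obtain ⟨Φ', hΦ'C, hΦ'⟩ := hLIFT D η H s m k Φ (xM (D i) d r g) hηm hηm1 hΦ
    (iter_kill hWINA hdD hrg hdk) hX1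
  obtain ⟨hΦT, hΦπ, hΦP⟩ := hΦ
  -- abbreviations
  set t := s.π m (tM (D m) ^ k) with ht
  set X := s.π i (xM (D i) d r g) with hX
  set Xf := s.π i (xF (D i) d r g) with hXf
  have hXfX : ‖Xf - X‖ ≤ ε := by rw [hXf, hX, ← map_sub]; exact hX2
  have hcomm : Commute (s.π i (rM (D i) d r)) t := s.comm i m (by omega) _ _
  have hcommf : Commute Xf t := s.comm i m (by omega) _ _
  have hΦr : Commute Φ (s.π i (star (rM (D i) d (r + g)))) := hΦπ i le_rfl _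
  -- the key identity
  have hkey : (inner ℂ (s.π i (rM (D i) d (r + g)) φ)
      (Φ (s.π i (rM (D i) d r) (t x))) : ℂ) =
      ((d : ℂ) + 1) ^ 2 * inner ℂ φ ((Φ * t * Xf) x) := by
    have e1 : (inner ℂ (s.π i (rM (D i) d (r + g)) φ)
        (Φ (s.π i (rM (D i) d r) (t x))) : ℂ) =
        inner ℂ φ (s.π i (star (rM (D i) d (r + g))) (Φ (s.π i (rM (D i) d r) (t x)))) := by
      rw [map_star, ContinuousLinearMap.star_eq_adjoint, ContinuousLinearMap.adjoint_inner_right]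
    have e2 : s.π i (star (rM (D i) d (r + g))) (Φ (s.π i (rM (D i) d r) (t x))) =
        ((d : ℂ) + 1) ^ 2 • ((Φ * t * Xf) x) := by
      have f1 : s.π i (star (rM (D i) d (r + g))) * (Φ * (s.π i (rM (D i) d r) * t)) =
          (((d : ℂ) + 1) ^ 2) • (Φ * t * Xf) := by
        calc s.π i (star (rM (D i) d (r + g))) * (Φ * (s.π i (rM (D i) d r) * t))
            = (s.π i (star (rM (D i) d (r + g))) * Φ) * (s.π i (rM (D i) d r) * t) := by
              rw [mul_assoc]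
          _ = (Φ * s.π i (star (rM (D i) d (r + g)))) * (s.π i (rM (D i) d r) * t) := by
              rw [hΦr.eq]
          _ = Φ * (s.π i (star (rM (D i) d (r + g)) * rM (D i) d r) * t) := by
              rw [map_mul]; simp only [mul_assoc]
          _ = Φ * ((((d : ℂ) + 1) ^ 2) • (Xf * t)) := by
              rw [rM_mul, map_smul, smul_mul_assoc]
          _ = (((d : ℂ) + 1) ^ 2) • (Φ * t * Xf) := by
              rw [hcommf.eq, mul_smul_comm, mul_assoc]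
      have f2 := congrArg (fun L : H →L[ℂ] H => L x) f1
      simpa using f2
    rw [e1, e2, inner_smul_right]
  rw [hkey, norm_mul, norm_pow]
  have hd1 : ‖(d : ℂ) + 1‖ = (d : ℝ) + 1 := by
    have : ((d : ℂ) + 1) = (((d : ℝ) + 1 : ℝ) : ℂ) := by push_cast; rfl
    rw [this, Complex.norm_real, Real.norm_eq_abs, abs_of_nonneg (by positivity)]
  rw [hd1]
  -- bound of the inner product
  have hΦt : ‖Φ * t‖ ≤ ‖Φ‖ :=
    (norm_mul_le _ _).trans (mul_le_of_le_one_right (norm_nonneg _) (htk k))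
  have hΦtX : ‖Φ * t * X‖ ≤ ‖Φ‖ :=
    (norm_mul_le _ _).trans ((mul_le_of_le_one_right (norm_nonneg _) hX1).trans hΦt)
  have hΦ'n : ‖Φ'‖ ≤ 2 * ‖Φ‖ := by
    have : Φ' = (Φ' - Φ * t * X) + Φ * t * X := by abel
    calc ‖Φ'‖ = ‖(Φ' - Φ * t * X) + Φ * t * X‖ := by rw [← this]
      _ ≤ ‖Φ' - Φ * t * X‖ + ‖Φ * t * X‖ := norm_add_le _ _
      _ ≤ ‖Φ‖ * ee D η m + ‖Φ‖ := add_le_add hΦ' hΦtX
      _ ≤ 2 * ‖Φ‖ := by nlinarith [norm_nonneg Φ, hee]
  have hsplit : (inner ℂ φ ((Φ * t * Xf) x) : ℂ) =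
      inner ℂ φ (Φ' x) - inner ℂ φ ((Φ' - Φ * t * X) x) + inner ℂ φ ((Φ * t * (Xf - X)) x) := by
    rw [← inner_sub_right, ← inner_add_right]
    congr 1
    simp only [ContinuousLinearMap.sub_apply, mul_sub]
    abel
  have hb1 : ‖(inner ℂ φ (Φ' x) : ℂ)‖ ≤ θ * (2 * ‖Φ‖) :=
    (hS Φ' hΦ'C).trans (mul_le_mul_of_nonneg_left hΦ'n hθ)
  have hb2 : ‖(inner ℂ φ ((Φ' - Φ * t * X) x) : ℂ)‖ ≤ ‖φ‖ * ((‖Φ‖ * ee D η m) * ‖x‖) := by
    refine (norm_inner_le_norm _ _).trans (mul_le_mul_of_nonneg_left ?_ (norm_nonneg _))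
    exact (ContinuousLinearMap.le_opNorm _ _).trans
      (mul_le_mul_of_nonneg_right hΦ' (norm_nonneg _))
  have hb3 : ‖(inner ℂ φ ((Φ * t * (Xf - X)) x) : ℂ)‖ ≤ ‖φ‖ * ((‖Φ‖ * ε) * ‖x‖) := by
    refine (norm_inner_le_norm _ _).trans (mul_le_mul_of_nonneg_left ?_ (norm_nonneg _))
    refine (ContinuousLinearMap.le_opNorm _ _).trans
      (mul_le_mul_of_nonneg_right ?_ (norm_nonneg _))
    exact (norm_mul_le _ _).trans (mul_le_mul hΦt hXfX (norm_nonneg _) (norm_nonneg _))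
  have htot : ‖(inner ℂ φ ((Φ * t * Xf) x) : ℂ)‖ ≤
      (2 * θ + (ε + ee D η m) * (‖x‖ * ‖φ‖)) * ‖Φ‖ := by
    rw [hsplit]
    refine (norm_add_le _ _).trans ((add_le_add (norm_sub_le _ _) le_rfl).trans ?_)
    calc ‖(inner ℂ φ (Φ' x) : ℂ)‖ + ‖(inner ℂ φ ((Φ' - Φ * t * X) x) : ℂ)‖ +
          ‖(inner ℂ φ ((Φ * t * (Xf - X)) x) : ℂ)‖
        ≤ θ * (2 * ‖Φ‖) + ‖φ‖ * ((‖Φ‖ * ee D η m) * ‖x‖) + ‖φ‖ * ((‖Φ‖ * ε) * ‖x‖) :=
          add_le_add (add_le_add hb1 hb2) hb3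
      _ = (2 * θ + (ε + ee D η m) * (‖x‖ * ‖φ‖)) * ‖Φ‖ := by ring
  calc ((d : ℝ) + 1) ^ 2 * ‖(inner ℂ φ ((Φ * t * Xf) x) : ℂ)‖
      ≤ ((d : ℝ) + 1) ^ 2 * ((2 * θ + (ε + ee D η m) * (‖x‖ * ‖φ‖)) * ‖Φ‖) :=
        mul_le_mul_of_nonneg_left htot (by positivity)
    _ = ((d : ℝ) + 1) ^ 2 * (2 * θ + (ε + ee D η m) * (‖x‖ * ‖φ‖)) * ‖Φ‖ := by ring

end Pool.Agent.HSP
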