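import Pool.Agent.HSP.Stmts

/-!
# Flat vectors
-/

set_option autoImplicit false

open Filter Topology
open scoped ComplexOrder

noncomputable section

namespace Pool.Agent.HSP

namespace FLT

/-- powers of the truncated shift -/
lemma tM_pow (D k : ℕ) : ∀ a b : Fin (D + 1),
    (tM D ^ k) a b = if (a : ℕ) = (b : ℕ) + k then 1 else 0 := by
  induction k with
  | zero =>
    intro a b
    rw [pow_zero, Matrix.one_apply]
    simp only [Fin.ext_iff, add_zero]
  | succ k ih =>
    intro a b
    rw [pow_succ, Matrix.mul_apply]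
    simp only [ih, tM]
    by_cases hb : (b : ℕ) + 1 < D + 1
    · rw [Finset.sum_eq_single (⟨(b : ℕ) + 1, hb⟩ : Fin (D + 1))]
      · simp only [if_true, mul_one]
        have : ((a : ℕ) = (b : ℕ) + 1 + k) ↔ ((a : ℕ) = (b : ℕ) + (k + 1)) := by omega
        simp only [this]
      · intro c _ hc
        have : ¬ ((c : ℕ) = (b : ℕ) + 1) := fun h => hc (Fin.ext h)
        simp [this]
      · intro h
        exact absurd (Finset.mem_univ _) h
    · rw [Finset.sum_eq_zero]
      · have : ¬ ((a : ℕ) = (b : ℕ) + (k + 1)) := by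
          have := a.2
          omega
        simp [this]
      · intro c _
        have : ¬ ((c : ℕ) = (b : ℕ) + 1) := by
          have := c.2
          omega
        simp [this]

lemma tM_pow_jM (D k : ℕ) (a b : Fin (D + 1)) :
    (tM D ^ k * jM D - jM D) a b = if (a : ℕ) < k then -((D : ℂ) + 1)⁻¹ else 0 := by
  rw [Matrix.sub_apply, Matrix.mul_apply]
  simp only [tM_pow, jM]
  by_cases h : (a : ℕ) < k
  · rw [if_pos h, Finset.sum_eq_zero]
    · simp
    · intro c _
      have : ¬ ((a : ℕ) = (c : ℕ) + k) := by omega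
      simp [this]
  · rw [if_neg h]
    have hc : (a : ℕ) - k < D + 1 := by
      have := a.2
      omega
    rw [Finset.sum_eq_single (⟨(a : ℕ) - k, hc⟩ : Fin (D + 1))]
    · have : (a : ℕ) = (a : ℕ) - k + k := by omega
      simp [← this]
    · intro c _ hc'
      have : ¬ ((a : ℕ) = (c : ℕ) + k) := by
        intro h'
        exact hc' (Fin.ext (by simp only []; omega))
      simp [this]
    · intro h'
      exact absurd (Finset.mem_univ _) h'

lemma frob (D k : ℕ) :
    ∑ a, ∑ b, ‖(tM D ^ k * jM D - jM D) a b‖ ^ 2 ≤ Real.sqrt ((k : ℝ) / ((D : ℝ) + 1)) ^ 2 := by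
  have hD : (0 : ℝ) < (D : ℝ) + 1 := by positivity
  rw [Real.sq_sqrt (by positivity)]
  have h1 : ∀ a b : Fin (D + 1), ‖(tM D ^ k * jM D - jM D) a b‖ ^ 2 =
      if (a : ℕ) < k then (((D : ℝ) + 1)⁻¹) ^ 2 else 0 := by
    intro a b
    rw [tM_pow_jM]
    split_ifs with h
    · rw [norm_neg, norm_inv]
      have : ‖(D : ℂ) + 1‖ = (D : ℝ) + 1 := by
        have h2 : (D : ℂ) + 1 = (((D : ℝ) + 1 : ℝ) : ℂ) := by push_cast; ring
        rw [h2, Complex.norm_real, Real.norm_of_nonneg hD.le]
      rw [this]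
    · simp
  simp only [h1]
  have h2 : ∀ a : Fin (D + 1), ∑ _b : Fin (D + 1), (if (a : ℕ) < k then (((D : ℝ) + 1)⁻¹) ^ 2 else 0)
      = if (a : ℕ) < k then ((D : ℝ) + 1)⁻¹ else 0 := by
    intro a
    rw [Finset.sum_const, Finset.card_univ, Fintype.card_fin]
    split_ifs with h
    · rw [nsmul_eq_mul]
      push_cast
      field_simp
    · simp
  simp only [h2]
  rw [← Finset.sum_filter, Finset.sum_const, nsmul_eq_mul]
  have h3 : ((Finset.univ.filter fun a : Fin (D + 1) => (a : ℕ) < k).card : ℝ) ≤ (k : ℝ) := by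
    have : (Finset.univ.filter fun a : Fin (D + 1) => (a : ℕ) < k).card ≤ k := by
      calc (Finset.univ.filter fun a : Fin (D + 1) => (a : ℕ) < k).card
          = ((Finset.univ.filter fun a : Fin (D + 1) => (a : ℕ) < k).image
              (fun a : Fin (D + 1) => (a : ℕ))).card := by
            rw [Finset.card_image_of_injective _ Fin.val_injective]
        _ ≤ (Finset.range k).card := by
            apply Finset.card_le_card
            intro x hx
            rw [Finset.mem_image] at hx
            obtain ⟨a, ha, rfl⟩ := hx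
            rw [Finset.mem_filter] at ha
            exact Finset.mem_range.2 ha.2
        _ = k := Finset.card_range k
    exact_mod_cast this
  rw [div_eq_mul_inv]
  exact mul_le_mul_of_nonneg_right h3 (by positivity)

end FLT

theorem t_FLT (hWINS : Stmt_WINS) (hNRM : Stmt_NRM) : Stmt_FLT := by
  refine ⟨fun D d r hd hr => ⟨?_, ?_⟩, ?_⟩
  · have hs := (hWINS D d hd).2.2.2 r hr
    have hD : (0 : ℝ) < (D : ℝ) + 1 := by positivity
    have hd' : (0 : ℝ) < (d : ℝ) + 1 := by positivity
    ext a b
    rw [Matrix.mul_apply]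
    simp only [rM, jM]
    rw [← Finset.sum_mul]
    have h1 : ∑ c : Fin (D + 1), ((((d : ℝ) + 1) / ((D : ℝ) + 1) * win D d r c : ℝ) : ℂ) =
        ((1 : ℝ) : ℂ) := by
      rw [← Complex.ofReal_sum]
      congr 1
      rw [← Finset.mul_sum, Fin.sum_univ_eq_sum_range (fun p => win D d r p), hs]
      field_simp
    rw [h1]
    simp
  · ext a b
    rw [Matrix.mul_apply]
    simp only [rM, jM]
    rw [Finset.sum_const, Finset.card_univ, Fintype.card_fin, nsmul_eq_mul]
    have hD : ((D : ℂ) + 1) ≠ 0 := by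
      have : ((D + 1 : ℕ) : ℂ) ≠ 0 := Nat.cast_ne_zero.2 (Nat.succ_ne_zero D)
      exact_mod_cast this
    push_cast
    field_simp
  · intro D η H _ _ _ s i k x hx
    have h1 := (hNRM D η H s i).1 (tM (D i) ^ k * jM (D i) - jM (D i))
      (Real.sqrt ((k : ℝ) / ((D i : ℝ) + 1))) (Real.sqrt_nonneg _) (FLT.frob (D i) k)
    have h2 : s.π i (tM (D i) ^ k) x - x = s.π i (tM (D i) ^ k * jM (D i) - jM (D i)) x := by
      rw [map_sub, map_mul]
      show _ = s.π i (tM (D i) ^ k) (s.π i (jM (D i)) x) - s.π i (jM (D i)) x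
      rw [hx]
    rw [h2]
    exact (ContinuousLinearMap.le_opNorm _ _).trans (mul_le_mul_of_nonneg_right h1 (norm_nonneg _))

end Pool.Agent.HSP
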