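import Pool.Agent.HSP.Stmts

/-!
# The Frobenius bound for a system of matrix units
-/

set_option autoImplicit false

open Filter Topology
open scoped ComplexOrder

noncomputable section

namespace Pool.Agent.HSP

namespace FRO

/-- Pythagoras. -/
theorem pyth {K : Type} [Fintype K] {H : Type} [NormedAddCommGroup H] [InnerProductSpace ℂ H]
    (y : K → H) (h : ∀ a b, a ≠ b → (inner ℂ (y a) (y b) : ℂ) = 0) :
    ‖∑ a, y a‖ ^ 2 = ∑ a, ‖y a‖ ^ 2 := by
  have e : ((‖∑ a, y a‖ ^ 2 : ℝ) : ℂ) = ((∑ a, ‖y a‖ ^ 2 : ℝ) : ℂ) := by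
    have e1 := inner_self_eq_norm_sq_to_K (𝕜 := ℂ) (∑ a, y a)
    have e2 : (inner ℂ (∑ a, y a) (∑ a, y a) : ℂ) = ∑ a, (inner ℂ (y a) (y a) : ℂ) := by
      rw [sum_inner]
      refine Finset.sum_congr rfl fun a _ => ?_
      rw [inner_sum, Finset.sum_eq_single a]
      · intro b _ hb
        exact h a b (Ne.symm hb)
      · intro ha
        exact absurd (Finset.mem_univ a) ha
    have e3 : ∀ a, (inner ℂ (y a) (y a) : ℂ) = ((‖y a‖ : ℂ)) ^ 2 := fun a =>
      inner_self_eq_norm_sq_to_K (𝕜 := ℂ) (y a)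
    push_cast
    rw [e2] at e1
    simp only [e3] at e1
    exact e1.symm
  exact_mod_cast e

section

variable {K : Type} [Fintype K] [DecidableEq K] {H : Type} [NormedAddCommGroup H]
  [InnerProductSpace ℂ H] [CompleteSpace H] {E : K → K → (H →L[ℂ] H)}

omit [Fintype K] [DecidableEq K] in
theorem adj (h2 : ∀ a b, star (E a b) = E b a) (a b : K) (x y : H) :
    (inner ℂ (E a b x) y : ℂ) = inner ℂ x (E b a y) := by
  rw [← h2 b a, ContinuousLinearMap.star_eq_adjoint, ContinuousLinearMap.adjoint_inner_left]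

omit [Fintype K] in
theorem orth (h1 : ∀ a b c d, E a b * E c d = if b = c then E a d else 0)
    (h2 : ∀ a b, star (E a b) = E b a) {a c : K} (hac : a ≠ c) (x y : H) :
    (inner ℂ (E a a x) (E c c y) : ℂ) = 0 := by
  rw [adj h2]
  have : E a a (E c c y) = (E a a * E c c) y := rfl
  rw [this, h1, if_neg hac]
  simp

omit [Fintype K] in
theorem nrm (h1 : ∀ a b c d, E a b * E c d = if b = c then E a d else 0)
    (h2 : ∀ a b, star (E a b) = E b a) (a b : K) (x : H) :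
    ‖E a b x‖ ^ 2 = ‖E b b x‖ ^ 2 := by
  have e : ((‖E a b x‖ ^ 2 : ℝ) : ℂ) = ((‖E b b x‖ ^ 2 : ℝ) : ℂ) := by
    have e1 := inner_self_eq_norm_sq_to_K (𝕜 := ℂ) (E a b x)
    have e2 := inner_self_eq_norm_sq_to_K (𝕜 := ℂ) (E b b x)
    rw [adj h2] at e1 e2
    have e3 : E b a (E a b x) = E b b x := by
      have : E b a (E a b x) = (E b a * E a b) x := rfl
      rw [this, h1, if_pos rfl]
    have e4 : E b b (E b b x) = E b b x := by
      have : E b b (E b b x) = (E b b * E b b) x := rfl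
      rw [this, h1, if_pos rfl]
    rw [e3] at e1
    rw [e4] at e2
    push_cast
    exact e1.symm.trans e2
  exact_mod_cast e

theorem bess (h1 : ∀ a b c d, E a b * E c d = if b = c then E a d else 0)
    (h2 : ∀ a b, star (E a b) = E b a) (x : H) :
    ∑ b, ‖E b b x‖ ^ 2 ≤ ‖x‖ ^ 2 := by
  rw [← pyth (fun b => E b b x) (fun a b hab => orth h1 h2 hab x x)]
  set q : H := ∑ b, E b b x with hq
  have e : (inner ℂ q q : ℂ) = inner ℂ x q := by
    have e1 : (inner ℂ q q : ℂ) = ∑ b, (inner ℂ (E b b x) q : ℂ) := by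
      conv_lhs => rw [hq]
      rw [sum_inner]
    have e2 : (inner ℂ x q : ℂ) = ∑ b, (inner ℂ x (E b b x) : ℂ) := by
      conv_lhs => rw [hq]
      rw [inner_sum]
    rw [e1, e2]
    refine Finset.sum_congr rfl fun b _ => ?_
    rw [adj h2]
    refine congrArg _ ?_
    rw [hq, map_sum, Finset.sum_eq_single b]
    · have : E b b (E b b x) = (E b b * E b b) x := rfl
      rw [this, h1, if_pos rfl]
    · intro c _ hc
      have : E b b (E c c x) = (E b b * E c c) x := rfl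
      rw [this, h1, if_neg (Ne.symm hc)]
      rfl
    · intro hb
      exact absurd (Finset.mem_univ b) hb
  have e1 := inner_self_eq_norm_sq_to_K (𝕜 := ℂ) q
  have h3 : ‖q‖ ^ 2 ≤ ‖x‖ * ‖q‖ := by
    have h4 : ‖(inner ℂ x q : ℂ)‖ ≤ ‖x‖ * ‖q‖ := norm_inner_le_norm x q
    rw [← e, e1] at h4
    have h5 : ‖((‖q‖ : ℂ)) ^ 2‖ = ‖q‖ ^ 2 := by
      rw [norm_pow, Complex.norm_real, norm_norm]
    exact h5 ▸ h4
  have h6 : ‖q‖ ≤ ‖x‖ := by
    by_contra hc
    have hc' := not_le.mp hc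
    have := norm_nonneg x
    nlinarith
  exact pow_le_pow_left₀ (norm_nonneg _) h6 2

end

end FRO

open FRO in
theorem t_FRO : Stmt_FRO := by
  intro K _ _ H _ _ _ E h1 h2 A c hc hA
  refine ContinuousLinearMap.opNorm_le_bound _ hc fun x => ?_
  have hS : (∑ a, ∑ b, A a b • E a b) x = ∑ a, ∑ b, A a b • E a b x := by
    simp only [sum_apply, smul_apply]
  rw [hS]
  set y : K → H := fun a => ∑ b, A a b • E a b x with hy
  have hfix : ∀ a, E a a (y a) = y a := by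
    intro a
    rw [hy]
    simp only [map_sum, map_smul]
    refine Finset.sum_congr rfl fun b _ => ?_
    have : E a a (E a b x) = (E a a * E a b) x := rfl
    rw [this, h1, if_pos rfl]
  have horth : ∀ a b, a ≠ b → (inner ℂ (y a) (y b) : ℂ) = 0 := by
    intro a b hab
    rw [← hfix a, ← hfix b]
    exact orth h1 h2 hab _ _
  have hn : ∀ a, ‖y a‖ ^ 2 ≤ (∑ b, ‖A a b‖ ^ 2) * ‖x‖ ^ 2 := by
    intro a
    have h3 : ‖y a‖ ≤ ∑ b, ‖A a b‖ * ‖E a b x‖ := by
      refine (norm_sum_le _ _).trans ?_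
      exact Finset.sum_le_sum fun b _ => (norm_smul (A a b) (E a b x)).le
    have h4 : (∑ b, ‖A a b‖ * ‖E a b x‖) ^ 2 ≤ (∑ b, ‖A a b‖ ^ 2) * ∑ b, ‖E a b x‖ ^ 2 :=
      Finset.sum_mul_sq_le_sq_mul_sq _ _ _
    have h5 : ∑ b, ‖E a b x‖ ^ 2 ≤ ‖x‖ ^ 2 := by
      have : ∑ b, ‖E a b x‖ ^ 2 = ∑ b, ‖E b b x‖ ^ 2 :=
        Finset.sum_congr rfl fun b _ => nrm h1 h2 a b x
      rw [this]
      exact bess h1 h2 x
    have h6 : ‖y a‖ ^ 2 ≤ (∑ b, ‖A a b‖ * ‖E a b x‖) ^ 2 :=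
      pow_le_pow_left₀ (norm_nonneg _) h3 2
    exact h6.trans (h4.trans (mul_le_mul_of_nonneg_left h5
      (Finset.sum_nonneg fun b _ => by positivity)))
  have h7 : ‖∑ a, y a‖ ^ 2 ≤ (c * ‖x‖) ^ 2 := by
    rw [pyth y horth]
    calc ∑ a, ‖y a‖ ^ 2 ≤ ∑ a, (∑ b, ‖A a b‖ ^ 2) * ‖x‖ ^ 2 :=
          Finset.sum_le_sum fun a _ => hn a
      _ = (∑ a, ∑ b, ‖A a b‖ ^ 2) * ‖x‖ ^ 2 := by rw [Finset.sum_mul]
      _ ≤ c ^ 2 * ‖x‖ ^ 2 := mul_le_mul_of_nonneg_right hA (by positivity)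
      _ = (c * ‖x‖) ^ 2 := by ring
  have h8 : 0 ≤ c * ‖x‖ := mul_nonneg hc (norm_nonneg _)
  exact abs_le_of_sq_le_sq' h7 h8 |>.2

end Pool.Agent.HSP
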