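import Pool.Agent.HSP.Stmts

/-!
# ITER: from all levels down to level `l + 1`
-/

set_option autoImplicit false

open Filter Topology
open scoped ComplexOrder

noncomputable section

namespace Pool.Agent.HSP

namespace ITER

section Proj

variable {H : Type} [NormedAddCommGroup H] [InnerProductSpace ℂ H] [CompleteSpace H]

/-- orthogonality of the two parts -/
theorem orth {P : H →L[ℂ] H} (hs : IsSelfAdjoint P) (hi : P * P = P) (v w : H) :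
    (inner ℂ (P v) (w - P w) : ℂ) = 0 := by
  have h1 : (inner ℂ (P v) (w - P w) : ℂ) = inner ℂ v (P (w - P w)) := by
    have := ContinuousLinearMap.adjoint_inner_right P v (w - P w)
    have hs' : ContinuousLinearMap.adjoint P = P := hs
    rw [hs'] at this
    rw [this]
  have h2 : P (w - P w) = 0 := by
    rw [map_sub]
    have : P (P w) = P w := by
      have := congrArg (fun Q : H →L[ℂ] H => Q w) hi
      simpa using this
    rw [this, sub_self]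
  rw [h1, h2, inner_zero_right]

/-- the weighted sum of the two parts -/
theorem wsum {P : H →L[ℂ] H} (hs : IsSelfAdjoint P) (hi : P * P = P) (a b : ℝ) (v : H) :
    ‖(a : ℂ) • P v + (b : ℂ) • (v - P v)‖ ^ 2 = a ^ 2 * ‖P v‖ ^ 2 + b ^ 2 * ‖v - P v‖ ^ 2 := by
  have h := norm_add_sq_eq_norm_sq_add_norm_sq_of_inner_eq_zero ((a : ℂ) • P v)
    ((b : ℂ) • (v - P v)) (by
      rw [inner_smul_left, inner_smul_right, orth hs hi, mul_zero, mul_zero])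
  rw [sq, h, norm_smul, norm_smul, Complex.norm_real, Complex.norm_real]
  have ha : ‖a‖ * ‖a‖ = a ^ 2 := by rw [Real.norm_eq_abs, ← sq, sq_abs]
  have hb : ‖b‖ * ‖b‖ = b ^ 2 := by rw [Real.norm_eq_abs, ← sq, sq_abs]
  calc ‖a‖ * ‖P v‖ * (‖a‖ * ‖P v‖) + ‖b‖ * ‖v - P v‖ * (‖b‖ * ‖v - P v‖)
      = (‖a‖ * ‖a‖) * ‖P v‖ ^ 2 + (‖b‖ * ‖b‖) * ‖v - P v‖ ^ 2 := by ring
    _ = _ := by rw [ha, hb]

theorem pyth {P : H →L[ℂ] H} (hs : IsSelfAdjoint P) (hi : P * P = P) (v : H) :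
    ‖v‖ ^ 2 = ‖P v‖ ^ 2 + ‖v - P v‖ ^ 2 := by
  have h := wsum hs hi 1 1 v
  simpa using h

/-- the weight operator -/
def Wop (P : H →L[ℂ] H) (σ : ℝ) : H →L[ℂ] H :=
  ((2048 : ℝ) : ℂ) • P + ((σ⁻¹ : ℝ) : ℂ) • (1 - P)

omit [CompleteSpace H] in
theorem Wop_apply (P : H →L[ℂ] H) (σ : ℝ) (v : H) :
    Wop P σ v = ((2048 : ℝ) : ℂ) • P v + ((σ⁻¹ : ℝ) : ℂ) • (v - P v) := rfl

theorem Wop_sq {P : H →L[ℂ] H} (hs : IsSelfAdjoint P) (hi : P * P = P) (σ : ℝ) (v : H) :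
    ‖Wop P σ v‖ ^ 2 = 2048 ^ 2 * ‖P v‖ ^ 2 + (σ⁻¹) ^ 2 * ‖v - P v‖ ^ 2 := by
  rw [Wop_apply, wsum hs hi]

theorem Wop_P {P : H →L[ℂ] H} (hs : IsSelfAdjoint P) (hi : P * P = P) (σ : ℝ) (v : H) :
    ‖P v‖ ≤ ‖Wop P σ v‖ / 2048 := by
  have h := Wop_sq hs hi σ v
  have h0 : 0 ≤ (σ⁻¹) ^ 2 * ‖v - P v‖ ^ 2 := by positivity
  rw [le_div_iff₀ (by norm_num)]
  apply le_of_sq_le_sq _ (norm_nonneg _)
  rw [h]; nlinarith

theorem Wop_Q {P : H →L[ℂ] H} (hs : IsSelfAdjoint P) (hi : P * P = P) {σ : ℝ} (hσ : 0 < σ) (v : H) :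
    ‖v - P v‖ ≤ σ * ‖Wop P σ v‖ := by
  have h := Wop_sq hs hi σ v
  apply le_of_sq_le_sq _ (by positivity)
  rw [mul_pow, h]
  have e : σ ^ 2 * (2048 ^ 2 * ‖P v‖ ^ 2 + σ⁻¹ ^ 2 * ‖v - P v‖ ^ 2) =
      σ ^ 2 * (2048 ^ 2 * ‖P v‖ ^ 2) + ‖v - P v‖ ^ 2 := by field_simp
  rw [e]
  have : 0 ≤ σ ^ 2 * (2048 ^ 2 * ‖P v‖ ^ 2) := by positivity
  linarith

theorem Wop_big {P : H →L[ℂ] H} (hs : IsSelfAdjoint P) (hi : P * P = P) {σ : ℝ} (hσ : 0 < σ)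
    (hσ2 : σ ≤ 1 / 2048) (v : H) : ‖v‖ ≤ ‖Wop P σ v‖ / 2048 := by
  have h := Wop_sq hs hi σ v
  have h1 := pyth hs hi v
  rw [le_div_iff₀ (by norm_num)]
  apply le_of_sq_le_sq _ (norm_nonneg _)
  rw [h, mul_pow, h1]
  have h2 : (2048 : ℝ) ≤ σ⁻¹ := by
    rw [le_inv_comm₀ (by norm_num) hσ]; linarith
  have h3 : (2048 : ℝ) ^ 2 ≤ σ⁻¹ ^ 2 := by gcongr
  have h4 : (2048 : ℝ) ^ 2 * ‖v - P v‖ ^ 2 ≤ σ⁻¹ ^ 2 * ‖v - P v‖ ^ 2 := by gcongr
  nlinarith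

omit [CompleteSpace H] in
theorem Wop_comm {P A : H →L[ℂ] H} (h : Commute P A) (σ : ℝ) : Commute (Wop P σ) A := by
  unfold Wop
  exact (h.smul_left _).add_left (((Commute.one_left A).sub_left h).smul_left _)

end Proj

section Step

variable {D : ℕ → ℕ} {η : ℕ → ℝ} {H : Type} [NormedAddCommGroup H] [InnerProductSpace ℂ H]
  [CompleteSpace H]

omit [CompleteSpace H] in
/-- commuting operators, applied to a vector -/
theorem app_comm {A B : H →L[ℂ] H} (h : Commute A B) (v : H) : A (B v) = B (A v) := by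
  have := congrArg (fun Q : H →L[ℂ] H => Q v) h.eq
  simpa using this

/-- the statement of the descent at the level `n` -/
def St (s : Sys D η H) (B : ℕ → ℝ) (W : H →L[ℂ] H) (x0 φ0 : H) (N n : ℕ) : Prop :=
  ∃ (xn φn : H) (θ : ℝ), 0 ≤ θ ∧ θ ≤ B (n - 1) ∧
    (∀ i, n ≤ i → i < N → s.π i (jM (D i)) xn = xn ∧ s.π i (jM (D i)) φn = φn) ∧
    ‖W (xn - x0)‖ ^ 2 + ‖W (φn - φ0)‖ ^ 2 ≤ (2 + 4 / 2 ^ n) ^ 2 ∧ s.Small n xn φn θ

theorem sq_le3 {a b : ℝ} {n : ℕ} (hn : 2 ≤ n) (ha : 0 ≤ a)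
    (h : a ^ 2 + b ^ 2 ≤ (2 + 4 / 2 ^ n) ^ 2) : a ≤ 3 := by
  have h1 : (4 : ℝ) ≤ 2 ^ n := by
    calc (4 : ℝ) = 2 ^ 2 := by norm_num
      _ ≤ 2 ^ n := pow_le_pow_right₀ (by norm_num) hn
  have h2 : (4 : ℝ) / 2 ^ n ≤ 1 := by
    rw [div_le_one (by positivity)]; exact h1
  have h3 : (0 : ℝ) ≤ 4 / 2 ^ n := by positivity
  nlinarith [sq_nonneg b]

omit [CompleteSpace H] in
theorem norm_le_two {W : H →L[ℂ] H} (hW : ∀ v, ‖v‖ ≤ ‖W v‖ / 2048) {x x0 : H}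
    (h0 : ‖x0‖ ≤ 1) (h : ‖W (x - x0)‖ ≤ 3) : ‖x‖ ≤ 2 := by
  have h1 : ‖x‖ ≤ ‖x - x0‖ + ‖x0‖ := by
    calc ‖x‖ = ‖(x - x0) + x0‖ := by rw [sub_add_cancel]
      _ ≤ _ := norm_add_le _ _
  have h2 := hW (x - x0)
  have h3 : ‖W (x - x0)‖ / 2048 ≤ 1 := by
    rw [div_le_one (by norm_num)]; linarith
  linarith

/-- numbers in the descent step -/
theorem num_lambda {m g d : ℕ} (hg : 1 ≤ g) (hd : d = 2 ^ (m + 2) * g) :
    ((d : ℝ) + 1) / ((d : ℝ) - g + 1) ≤ (1 + 1 / 2 ^ (m + 2)) ^ 2 := by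
  have hg' : (1 : ℝ) ≤ g := by exact_mod_cast hg
  have hd' : (d : ℝ) = 2 ^ (m + 2) * g := by rw [hd]; push_cast; ring
  set y : ℝ := 2 ^ (m + 2) with hy
  have hy4 : (4 : ℝ) ≤ y := by
    calc (4 : ℝ) = 2 ^ 2 := by norm_num
      _ ≤ 2 ^ (m + 2) := pow_le_pow_right₀ (by norm_num) (by omega)
  have hpos : 0 < (d : ℝ) - g + 1 := by rw [hd']; nlinarith
  rw [div_le_iff₀ hpos, hd']
  have e : (1 + 1 / y) ^ 2 * (y * g - g + 1) - (y * g + 1) =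
      (g * (y ^ 2 - y - 1) + 2 * y + 1) / y ^ 2 := by
    field_simp
    ring
  have h1 : 0 ≤ (g * (y ^ 2 - y - 1) + 2 * y + 1) / y ^ 2 := by
    apply div_nonneg _ (by positivity)
    have : 0 ≤ y ^ 2 - y - 1 := by nlinarith
    have : 0 ≤ (g : ℝ) * (y ^ 2 - y - 1) := by positivity
    linarith
  linarith

theorem num_step {m : ℕ} (hm : 1 ≤ m) :
    (1 + 1 / 2 ^ (m + 2)) * ((2 + 4 / 2 ^ (m + 2)) + 1 / 2 ^ (m + 4)) ≤ (2 : ℝ) + 4 / 2 ^ (m + 1) := by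
  have e1 : (2 : ℝ) ^ (m + 2) = 4 * 2 ^ m := by ring
  have e2 : (2 : ℝ) ^ (m + 4) = 16 * 2 ^ m := by ring
  have e3 : (2 : ℝ) ^ (m + 1) = 2 * 2 ^ m := by ring
  rw [e1, e2, e3]
  set y : ℝ := 2 ^ m with hy
  have hy2 : (2 : ℝ) ≤ y := by
    calc (2 : ℝ) = 2 ^ 1 := by norm_num
      _ ≤ 2 ^ m := pow_le_pow_right₀ (by norm_num) hm
  have hy0 : (0 : ℝ) < y := by linarith
  have e : (2 : ℝ) + 4 / (2 * y) - (1 + 1 / (4 * y)) * ((2 + 4 / (4 * y)) + 1 / (16 * y)) =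
      (28 * y - 17) / (64 * y ^ 2) := by
    field_simp
    ring
  have h1 : 0 ≤ (28 * y - 17) / (64 * y ^ 2) := div_nonneg (by linarith) (by positivity)
  linarith

theorem num_noise {m k Dm : ℕ} (h : k * 4 ^ (m + 15) ≤ Dm + 1) :
    2048 * Real.sqrt ((k : ℝ) / ((Dm : ℝ) + 1)) ≤ 1 / 2 ^ (m + 4) := by
  have h' : (k : ℝ) * 4 ^ (m + 15) ≤ (Dm : ℝ) + 1 := by exact_mod_cast h
  have h1 : (k : ℝ) / ((Dm : ℝ) + 1) ≤ (1 / 2 ^ (m + 15)) ^ 2 := by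
    rw [div_le_iff₀ (by positivity)]
    have e : ((1 : ℝ) / 2 ^ (m + 15)) ^ 2 = 1 / 4 ^ (m + 15) := by
      rw [div_pow, one_pow, ← pow_mul, mul_comm (m + 15) 2, pow_mul]; norm_num
    rw [e, one_div, ← div_eq_inv_mul, le_div_iff₀ (by positivity)]
    exact h'
  have h2 : Real.sqrt ((k : ℝ) / ((Dm : ℝ) + 1)) ≤ 1 / 2 ^ (m + 15) := by
    rw [Real.sqrt_le_left (by positivity)]
    exact h1
  have e : (2048 : ℝ) * (1 / 2 ^ (m + 15)) = 1 / 2 ^ (m + 4) := by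
    rw [show m + 15 = (m + 4) + 11 by ring, pow_add]
    norm_num
    ring
  calc 2048 * Real.sqrt ((k : ℝ) / ((Dm : ℝ) + 1)) ≤ 2048 * (1 / 2 ^ (m + 15)) := by gcongr
    _ = _ := e

/-- adding noise to one coordinate -/
theorem noise_sq {a a' b δ V : ℝ} (ha : 0 ≤ a) (ha' : 0 ≤ a') (hδ : 0 ≤ δ) (h : a' ≤ a + δ)
    (hV : 0 ≤ V) (hs : a ^ 2 + b ^ 2 ≤ V ^ 2) : a' ^ 2 + b ^ 2 ≤ (V + δ) ^ 2 := by
  have h1 : a ≤ V := by
    apply le_of_sq_le_sq _ hV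
    nlinarith [sq_nonneg b]
  nlinarith

theorem step (hNRM : Stmt_NRM) (hDESC : Stmt_DESC) (hPIG : Stmt_PIG) (hFLT : Stmt_FLT)
    {f c : ℕ → ℕ} {B : ℕ → ℝ} (par : Par f c D η B) (s : Sys D η H) {l m N : ℕ}
    (hm : l + 1 ≤ m) (hN : m + 2 ≤ N) {W : H →L[ℂ] H}
    (hWc : ∀ i, i < N → ∀ A, Commute W (s.π i A)) (hW : ∀ v, ‖v‖ ≤ ‖W v‖ / 2048) {x0 φ0 : H}
    (hWx : W x0 = ((2048 : ℝ) : ℂ) • x0) (hx1 : ‖x0‖ ≤ 1) (hφ1 : ‖φ0‖ ≤ 1)
    (hPx : s.P l x0 = x0) (hPφ : s.P l φ0 = φ0) (h : St s B W x0 φ0 N (m + 2)) :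
    St s B W x0 φ0 N (m + 1) := by
  obtain ⟨xn, φn, θ, hθ0, hθB, hflat, hsum, hsmall⟩ := h
  have hm1 : 1 ≤ m := by omega
  set d := dd c (m + 1) with hd
  set g := gg c (m + 1) with hg
  set h := hh c (m + 1) with hh'
  have hc : 1 ≤ c (m + 1) := par.c_pos m hm1
  have hg1 : 1 ≤ g := by
    rw [hg]; unfold gg
    exact Nat.one_le_iff_ne_zero.2 (by positivity)
  have hdg : d = 2 ^ (m + 2) * g := by
    rw [hd, hg]; unfold dd gg
    rw [← mul_assoc, ← pow_add]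
    congr 2
    ring
  have h4 : 4 * h = g := by
    rw [hg, hh']; unfold gg hh
    rw [← mul_assoc, show (4 : ℕ) = 2 ^ 2 by norm_num, ← pow_add]
    congr 2
    ring
  have hgd : g ≤ d := by
    rw [hdg]; exact Nat.le_mul_of_pos_left _ (by positivity)
  have hdD : d ≤ D (m + 1) := par.dd_le m hm1
  -- flatness of x0, φ0
  have hflat0 : ∀ i, l ≤ i → s.π i (jM (D i)) x0 = x0 ∧ s.π i (jM (D i)) φ0 = φ0 := by
    intro i hi
    have hh := (hNRM D η H s i).2.2.2.2.2.2.1 l i hi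
    constructor
    · have h1 : s.π i (jM (D i)) (s.P l x0) = s.P l x0 := DFunLike.congr_fun hh x0
      rwa [hPx] at h1
    · have h1 : s.π i (jM (D i)) (s.P l φ0) = s.P l φ0 := DFunLike.congr_fun hh φ0
      rwa [hPφ] at h1
  set k := 2 * d with hk
  set z := s.π m (tM (D m) ^ k) xn with hz
  -- the noise
  set δ := 2048 * Real.sqrt ((k : ℝ) / ((D m : ℝ) + 1)) with hδ
  have hδ0 : 0 ≤ δ := by positivity
  have hδ1 : δ ≤ 1 / 2 ^ (m + 4) := num_noise (par.noise m hm1)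
  have hWz : ‖W (z - x0)‖ ≤ ‖W (xn - x0)‖ + δ := by
    have e1 : W (z - x0) = s.π m (tM (D m) ^ k) (W (xn - x0)) +
        ((2048 : ℝ) : ℂ) • (s.π m (tM (D m) ^ k) x0 - x0) := by
      rw [hz, map_sub, app_comm (hWc m (by omega) _) xn, map_sub, map_sub, hWx, map_smul, smul_sub]
      abel
    rw [e1]
    refine (norm_add_le _ _).trans (add_le_add ?_ ?_)
    · have h1 := (hNRM D η H s m).2.2.1 k
      calc ‖s.π m (tM (D m) ^ k) (W (xn - x0))‖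
          ≤ ‖s.π m (tM (D m) ^ k)‖ * ‖W (xn - x0)‖ := ContinuousLinearMap.le_opNorm _ _
        _ ≤ 1 * ‖W (xn - x0)‖ := by gcongr
        _ = _ := one_mul _
    · rw [norm_smul, Complex.norm_real, Real.norm_eq_abs, abs_of_pos (by norm_num : (0 : ℝ) < 2048)]
      have h1 := hFLT.2 D η H s m k x0 (hflat0 m (by omega)).1
      calc 2048 * ‖s.π m (tM (D m) ^ k) x0 - x0‖
          ≤ 2048 * (Real.sqrt ((k : ℝ) / ((D m : ℝ) + 1)) * ‖x0‖) := by gcongr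
        _ ≤ 2048 * (Real.sqrt ((k : ℝ) / ((D m : ℝ) + 1)) * 1) := by gcongr
        _ = δ := by rw [mul_one]
  -- the window
  obtain ⟨r, hr, hr2⟩ := hPIG D η H s (m + 1) d g W z x0 φn φ0 hgd hdD (hWc (m + 1) (by omega))
    (hflat0 (m + 1) (by omega)).1 (hflat0 (m + 1) (by omega)).2
  have hrd : r ≤ d := by omega
  set V : ℝ := 2 + 4 / 2 ^ (m + 2) with hV
  have hV0 : 0 ≤ V := by positivity
  have hsum2 : ‖W (z - x0)‖ ^ 2 + ‖W (φn - φ0)‖ ^ 2 ≤ (V + δ) ^ 2 :=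
    noise_sq (norm_nonneg _) (norm_nonneg _) hδ0 hWz hV0 hsum
  have hlam := num_lambda hg1 hdg
  have hnew : ‖W (s.π (m + 1) (rM (D (m + 1)) d r) z - x0)‖ ^ 2 +
      ‖W (s.π (m + 1) (rM (D (m + 1)) d (r + g)) φn - φ0)‖ ^ 2 ≤ (2 + 4 / 2 ^ (m + 1)) ^ 2 := by
    have h1 : (V + δ) ≤ V + 1 / 2 ^ (m + 4) := by linarith
    calc _ ≤ (((d : ℝ) + 1) / ((d : ℝ) - g + 1)) * (‖W (z - x0)‖ ^ 2 + ‖W (φn - φ0)‖ ^ 2) := hr2
      _ ≤ (1 + 1 / 2 ^ (m + 2)) ^ 2 * (V + 1 / 2 ^ (m + 4)) ^ 2 := by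
          gcongr
          exact hsum2.trans (by gcongr)
      _ = ((1 + 1 / 2 ^ (m + 2)) * (V + 1 / 2 ^ (m + 4))) ^ 2 := by ring
      _ ≤ (2 + 4 / 2 ^ (m + 1)) ^ 2 := by
          gcongr
          exact num_step hm1
  -- norms
  have hx2 : ‖xn‖ ≤ 2 := norm_le_two hW hx1 (sq_le3 (n := m + 2) (by omega) (norm_nonneg _) hsum)
  have hφ2 : ‖φn‖ ≤ 2 := norm_le_two hW hφ1 (sq_le3 (n := m + 2) (by omega) (norm_nonneg _) (by
    rw [add_comm] at hsum; exact hsum))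
  have hdesc := hDESC D η H s m k d g h r θ xn φn (par.η_pos m) (par.η_pos (m + 1)).le
    (par.ee_le m) (le_of_eq hk.symm) hdD hr (le_of_eq h4) hθ0 hsmall
  refine ⟨_, _, _, ?_, ?_, ?_, hnew, hdesc⟩
  · have he : 0 ≤ ee D η m := by
      unfold ee
      have := Real.add_one_le_exp (2 * ((D m : ℝ) + 1) ^ 2 * η (m + 1) / η m)
      have h2 : 0 ≤ 2 * ((D m : ℝ) + 1) ^ 2 * η (m + 1) / η m := by
        have := par.η_pos m
        have := par.η_pos (m + 1)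
        positivity
      linarith
    positivity
  · have he : 0 ≤ ee D η m := by
      unfold ee
      have := Real.add_one_le_exp (2 * ((D m : ℝ) + 1) ^ 2 * η (m + 1) / η m)
      have h2 : 0 ≤ 2 * ((D m : ℝ) + 1) ^ 2 * η (m + 1) / η m := by
        have := par.η_pos m
        have := par.η_pos (m + 1)
        positivity
      linarith
    have hexp : (g : ℝ) * (h : ℝ) / (d : ℝ) = (c (m + 1) : ℝ) := by
      have hc' : (0 : ℝ) < c (m + 1) := by exact_mod_cast hc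
      rw [hd, hg, hh']
      unfold dd gg hh
      push_cast
      rw [div_eq_iff (by positivity)]
      have e : (2 : ℝ) ^ (2 * (m + 1) + 4) = 2 ^ (m + 1 + 3) * 2 ^ (m + 1 + 1) := by
        rw [← pow_add]; congr 1; ring
      rw [e]; ring
    rw [hexp]
    have hb := par.budget m hm1
    have hxx : ‖xn‖ * ‖φn‖ ≤ 4 := by
      have := norm_nonneg xn
      have := norm_nonneg φn
      nlinarith
    have e1 : m + 2 - 1 = m + 1 := by omega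
    rw [e1] at hθB
    have e2 : m + 1 - 1 = m := by omega
    rw [e2]
    refine le_trans ?_ hb
    have hE : 0 ≤ Real.exp (-(c (m + 1) : ℝ)) + ee D η m := by positivity
    have h1 : (Real.exp (-(c (m + 1) : ℝ)) + ee D η m) * (‖xn‖ * ‖φn‖) ≤
        4 * (Real.exp (-(c (m + 1) : ℝ)) + ee D η m) := by
      rw [mul_comm]; gcongr
    have h2 : 2 * θ + (Real.exp (-(c (m + 1) : ℝ)) + ee D η m) * (‖xn‖ * ‖φn‖) ≤
        2 * B (m + 1) + 4 * (Real.exp (-(c (m + 1) : ℝ)) + ee D η m) := by linarith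
    gcongr
  · intro i hi hiN
    rcases Nat.eq_or_lt_of_le hi with hi | hi
    · subst hi
      have h1 := (hFLT.1 (D (m + 1)) d r hdD hrd).2
      have h2 := (hFLT.1 (D (m + 1)) d (r + g) hdD hr).2
      have h1' : s.π (m + 1) (jM (D (m + 1))) * s.π (m + 1) (rM (D (m + 1)) d r) =
          s.π (m + 1) (rM (D (m + 1)) d r) := by rw [← map_mul, h1]
      have h2' : s.π (m + 1) (jM (D (m + 1))) * s.π (m + 1) (rM (D (m + 1)) d (r + g)) =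
          s.π (m + 1) (rM (D (m + 1)) d (r + g)) := by rw [← map_mul, h2]
      exact ⟨DFunLike.congr_fun h1' _, DFunLike.congr_fun h2' _⟩
    · have hfl := hflat i (by omega) hiN
      constructor
      · rw [app_comm (s.comm i (m + 1) (by omega) _ _), app_comm (s.comm i m (by omega) _ _), hfl.1]
      · rw [app_comm (s.comm i (m + 1) (by omega) _ _), hfl.2]

theorem num_last {f : ℕ} (hf : 1 ≤ f) :
    ((((1024 * f : ℕ) : ℝ) + 1) / (((1024 * f : ℕ) : ℝ) - ((512 * f : ℕ) : ℝ) + 1)) ≤ 2 := by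
  have hf' : (1 : ℝ) ≤ f := by exact_mod_cast hf
  push_cast
  rw [div_le_iff₀ (by nlinarith)]
  linarith

theorem ee_nonneg {f c : ℕ → ℕ} {B : ℕ → ℝ} (par : Par f c D η B) (m : ℕ) : 0 ≤ ee D η m := by
  unfold ee
  have h1 := Real.add_one_le_exp (2 * ((D m : ℝ) + 1) ^ 2 * η (m + 1) / η m)
  have h2 : 0 ≤ 2 * ((D m : ℝ) + 1) ^ 2 * η (m + 1) / η m := by
    have := par.η_pos m
    have := par.η_pos (m + 1)
    positivity
  linarith

theorem sq_le5 {a b : ℝ} (ha : 0 ≤ a) {n : ℕ} (hn : 2 ≤ n) {S lam : ℝ} (hlam : lam ≤ 2)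
    (hlam0 : 0 ≤ lam) (hS : S ≤ (2 + 4 / 2 ^ n) ^ 2) (h : a ^ 2 + b ^ 2 ≤ lam * S) : a ≤ 5 := by
  have h1 : (4 : ℝ) ≤ 2 ^ n := by
    calc (4 : ℝ) = 2 ^ 2 := by norm_num
      _ ≤ 2 ^ n := pow_le_pow_right₀ (by norm_num) hn
  have h2 : (4 : ℝ) / 2 ^ n ≤ 1 := by
    rw [div_le_one (by positivity)]; exact h1
  have h3 : (0 : ℝ) ≤ 4 / 2 ^ n := by positivity
  have h4 : S ≤ 9 := by nlinarith
  have h5 : lam * S ≤ 18 := by nlinarith
  nlinarith [sq_nonneg b]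

theorem last (hNRM : Stmt_NRM) (hDESC : Stmt_DESC) (hPIG : Stmt_PIG) (hFLT : Stmt_FLT)
    {f c : ℕ → ℕ} {B : ℕ → ℝ} (par : Par f c D η B) (s : Sys D η H) {l N : ℕ}
    (hN : l + 2 ≤ N) {σ : ℝ} (hσ : 0 < σ) (hσ2 : σ ≤ 1 / 2048)
    (hσ3 : 25 * σ ^ 2 ≤ Real.exp (-(32 * (f l : ℝ))) / 4) {x0 φ0 : H}
    (hx1 : ‖x0‖ ≤ 1) (hφ1 : ‖φ0‖ ≤ 1)
    (hPx : s.P l x0 = x0) (hPφ : s.P l φ0 = φ0)
    (h : St s B (Wop (s.P N) σ) x0 φ0 N (l + 2)) :
    ∃ u α : H, s.P (l + 1) u = u ∧ s.P (l + 1) α = α ∧ ‖u - x0‖ ≤ 5 / 2048 ∧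
      ‖α - φ0‖ ≤ 5 / 2048 ∧
      s.Small (l + 1) (s.π l (tM (D l) ^ (2048 * f l)) u) α
        (3 / 4 * Real.exp (-(32 * (f l : ℝ)))) := by
  obtain ⟨xn, φn, θ, hθ0, hθB, hflat, hsum, hsmall⟩ := h
  have hs := s.P_star N
  have hi := s.P_idem N
  set W := Wop (s.P N) σ with hWdef
  have hWc : ∀ i, i < N → ∀ A, Commute W (s.π i A) := fun i hiN A =>
    Wop_comm (s.P_comm N i hiN A) σ
  have hW : ∀ v, ‖v‖ ≤ ‖W v‖ / 2048 := Wop_big hs hi hσ hσ2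
  have hf : 1 ≤ f l := par.f_pos l
  set d := 1024 * f l with hd
  set g := 512 * f l with hg
  set h := 128 * f l with hh'
  set k := 2048 * f l with hk
  have hdD : d ≤ D (l + 1) := by
    rw [par.D_eq]
    have := par.f_mono l
    omega
  have hgd : g ≤ d := by omega
  -- flatness of x0, φ0
  have hflat0 : ∀ i, l ≤ i → s.π i (jM (D i)) x0 = x0 ∧ s.π i (jM (D i)) φ0 = φ0 := by
    intro i hi
    have hh := (hNRM D η H s i).2.2.2.2.2.2.1 l i hi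
    constructor
    · have h1 : s.π i (jM (D i)) (s.P l x0) = s.P l x0 := DFunLike.congr_fun hh x0
      rwa [hPx] at h1
    · have h1 : s.π i (jM (D i)) (s.P l φ0) = s.P l φ0 := DFunLike.congr_fun hh φ0
      rwa [hPφ] at h1
  -- P_N fixes x0 and φ0
  have hPN : s.P N x0 = x0 ∧ s.P N φ0 = φ0 := by
    have hh := ((hNRM D η H s l).2.2.2.2.2.1 l N (by omega)).2
    constructor
    · have h1 : s.P N (s.P l x0) = s.P l x0 := DFunLike.congr_fun hh x0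
      rwa [hPx] at h1
    · have h1 : s.P N (s.P l φ0) = s.P l φ0 := DFunLike.congr_fun hh φ0
      rwa [hPφ] at h1
  obtain ⟨r, hr, hr2⟩ := hPIG D η H s (l + 1) d g W xn x0 φn φ0 hgd hdD (hWc (l + 1) (by omega))
    (hflat0 (l + 1) (by omega)).1 (hflat0 (l + 1) (by omega)).2
  have hrd : r ≤ d := by omega
  have hlam : ((d : ℝ) + 1) / ((d : ℝ) - g + 1) ≤ 2 := num_last hf
  have hlam0 : 0 ≤ ((d : ℝ) + 1) / ((d : ℝ) - g + 1) := by
    have : (g : ℝ) ≤ d := by exact_mod_cast hgd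
    have : 0 ≤ (d : ℝ) - g + 1 := by linarith
    positivity
  set y := s.π (l + 1) (rM (D (l + 1)) d r) xn with hy
  set ψ := s.π (l + 1) (rM (D (l + 1)) d (r + g)) φn with hψ
  have hWy : ‖W (y - x0)‖ ≤ 5 :=
    sq_le5 (n := l + 2) (norm_nonneg _) (by omega) hlam hlam0 hsum hr2
  have hWψ : ‖W (ψ - φ0)‖ ≤ 5 :=
    sq_le5 (n := l + 2) (b := ‖W (y - x0)‖) (norm_nonneg _) (by omega) hlam hlam0 hsum (by
      rw [add_comm]; exact hr2)
  -- norms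
  have hx2 : ‖xn‖ ≤ 2 := norm_le_two hW hx1 (sq_le3 (n := l + 2) (by omega) (norm_nonneg _) hsum)
  have hφ2 : ‖φn‖ ≤ 2 := norm_le_two hW hφ1 (sq_le3 (n := l + 2) (by omega) (norm_nonneg _) (by
    rw [add_comm] at hsum; exact hsum))
  have hdesc := hDESC D η H s l k d g h r θ xn φn (par.η_pos l) (par.η_pos (l + 1)).le
    (par.ee_le l) (by omega) hdD hr (by omega) hθ0 hsmall
  have hsw : s.π (l + 1) (rM (D (l + 1)) d r) (s.π l (tM (D l) ^ k) xn) =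
      s.π l (tM (D l) ^ k) y := app_comm (s.comm (l + 1) l (by omega) _ _) xn
  rw [hsw] at hdesc
  set E := Real.exp (-(32 * (f l : ℝ))) with hE
  -- the bound
  have hθs : (((d : ℝ) + 1) ^ 2 *
      (2 * θ + (Real.exp (-((g : ℝ) * (h : ℝ) / (d : ℝ))) + ee D η l) * (‖xn‖ * ‖φn‖))) ≤ E / 2 := by
    have he := ee_nonneg par l
    have hexp : (g : ℝ) * (h : ℝ) / (d : ℝ) = 64 * (f l : ℝ) := by
      have hf' : (0 : ℝ) < f l := by exact_mod_cast hf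
      rw [hd, hg, hh']
      push_cast
      field_simp
      norm_num
    rw [hexp]
    have hb := par.bot l
    have hb2 := par.bot2 l
    have hxx : ‖xn‖ * ‖φn‖ ≤ 4 := by
      have := norm_nonneg xn
      have := norm_nonneg φn
      nlinarith
    have e1 : l + 2 - 1 = l + 1 := by omega
    rw [e1] at hθB
    have hE0 : 0 ≤ Real.exp (-(64 * (f l : ℝ))) + ee D η l := by positivity
    have h1 : (Real.exp (-(64 * (f l : ℝ))) + ee D η l) * (‖xn‖ * ‖φn‖) ≤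
        4 * (Real.exp (-(64 * (f l : ℝ))) + ee D η l) := by
      rw [mul_comm]; gcongr
    have h2 : 2 * θ + (Real.exp (-(64 * (f l : ℝ))) + ee D η l) * (‖xn‖ * ‖φn‖) ≤
        2 * B (l + 1) + 4 * (Real.exp (-(64 * (f l : ℝ))) + ee D η l) := by linarith
    have hd' : (d : ℝ) = 1024 * (f l : ℝ) := by rw [hd]; push_cast; ring
    calc ((d : ℝ) + 1) ^ 2 *
        (2 * θ + (Real.exp (-(64 * (f l : ℝ))) + ee D η l) * (‖xn‖ * ‖φn‖))
        ≤ ((d : ℝ) + 1) ^ 2 * (2 * B (l + 1) + 4 * (Real.exp (-(64 * (f l : ℝ))) + ee D η l)) := by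
          gcongr
      _ = (8 * (1024 * (f l : ℝ) + 1) ^ 2 * B (l + 1)) / 4 +
          (16 * (1024 * (f l : ℝ) + 1) ^ 2 * (Real.exp (-(64 * (f l : ℝ))) + ee D η l)) / 4 := by
          rw [hd']; ring
      _ ≤ E / 4 + E / 4 := by gcongr
      _ = E / 2 := by ring
  -- y, ψ are flat at the sites l+1, ..., N-1
  have hfl : ∀ i, l + 1 ≤ i → i < N → s.π i (jM (D i)) y = y ∧ s.π i (jM (D i)) ψ = ψ := by
    intro i hi hiN
    rcases Nat.eq_or_lt_of_le hi with hi | hi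
    · subst hi
      have h1 := (hFLT.1 (D (l + 1)) d r hdD hrd).2
      have h2 := (hFLT.1 (D (l + 1)) d (r + g) hdD hr).2
      have h1' : s.π (l + 1) (jM (D (l + 1))) * s.π (l + 1) (rM (D (l + 1)) d r) =
          s.π (l + 1) (rM (D (l + 1)) d r) := by rw [← map_mul, h1]
      have h2' : s.π (l + 1) (jM (D (l + 1))) * s.π (l + 1) (rM (D (l + 1)) d (r + g)) =
          s.π (l + 1) (rM (D (l + 1)) d (r + g)) := by rw [← map_mul, h2]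
      exact ⟨DFunLike.congr_fun h1' _, DFunLike.congr_fun h2' _⟩
    · have hfl := hflat i (by omega) hiN
      constructor
      · rw [hy, app_comm (s.comm i (l + 1) (by omega) _ _), hfl.1]
      · rw [hψ, app_comm (s.comm i (l + 1) (by omega) _ _), hfl.2]
  have hPfix : ∀ v : H, (∀ i, l + 1 ≤ i → i < N → s.π i (jM (D i)) v = v) →
      s.P (l + 1) (s.P N v) = s.P N v := by
    intro v hv
    refine (hNRM D η H s l).2.2.2.2.2.2.2 (l + 1) N (s.P N v) (by omega)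
      (DFunLike.congr_fun hi v) ?_
    intro i hi hiN
    rw [← app_comm (s.P_comm N i hiN _) v, hv i hi hiN]
  refine ⟨s.P N y, s.P N ψ, hPfix y (fun i a b => (hfl i a b).1),
    hPfix ψ (fun i a b => (hfl i a b).2), ?_, ?_, ?_⟩
  · have e1 : s.P N y - x0 = s.P N (y - x0) := by rw [map_sub, hPN.1]
    rw [e1]
    refine (Wop_P hs hi σ (y - x0)).trans ?_
    gcongr
  · have e1 : s.P N ψ - φ0 = s.P N (ψ - φ0) := by rw [map_sub, hPN.2]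
    rw [e1]
    refine (Wop_P hs hi σ (ψ - φ0)).trans ?_
    gcongr
  · intro Φ hΦ
    set Ψ : H →L[ℂ] H := Φ * s.π l (tM (D l) ^ k) with hΨ
    have hΨc : Commute Ψ (s.P N) :=
      (hΦ.2.2 N (by omega)).mul_left (s.P_comm N l (by omega) _).symm
    have hΨn : ‖Ψ‖ ≤ ‖Φ‖ := by
      calc ‖Ψ‖ ≤ ‖Φ‖ * ‖s.π l (tM (D l) ^ k)‖ := norm_mul_le _ _
        _ ≤ ‖Φ‖ * 1 := by
            gcongr
            exact (hNRM D η H s l).2.2.1 k
        _ = ‖Φ‖ := mul_one _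
    have hgoal : Φ (s.π l (tM (D l) ^ k) (s.P N y)) = Ψ (s.P N y) := rfl
    have hgoal2 : Φ (s.π l (tM (D l) ^ k) y) = Ψ y := rfl
    rw [hgoal]
    have hd1 := hdesc Φ hΦ
    rw [hgoal2] at hd1
    -- splitting
    have o1 : (inner ℂ ψ (Ψ y) : ℂ) = inner ℂ (s.P N ψ) (Ψ (s.P N y)) +
        inner ℂ (ψ - s.P N ψ) (Ψ (y - s.P N y)) := by
      have c1 : Ψ (s.P N y) = s.P N (Ψ y) := app_comm hΨc y
      have a1 : (inner ℂ (s.P N ψ) (Ψ y - s.P N (Ψ y)) : ℂ) = 0 := orth hs hi ψ (Ψ y)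
      have a2 : (inner ℂ (ψ - s.P N ψ) (s.P N (Ψ y)) : ℂ) = 0 := by
        rw [← inner_conj_symm, orth hs hi (Ψ y) ψ, map_zero]
      rw [map_sub, c1]
      rw [inner_sub_right] at a1
      rw [inner_sub_left] at a2
      rw [inner_sub_left, inner_sub_right, inner_sub_right]
      linear_combination a1 + a2
    have e1 : (inner ℂ (s.P N ψ) (Ψ (s.P N y)) : ℂ) = inner ℂ ψ (Ψ y) -
        inner ℂ (ψ - s.P N ψ) (Ψ (y - s.P N y)) := by rw [o1]; ring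
    rw [e1]
    have q1 : ‖y - s.P N y‖ ≤ 5 * σ := by
      have e2 : y - s.P N y = (y - x0) - s.P N (y - x0) := by rw [map_sub, hPN.1]; abel
      rw [e2]
      calc _ ≤ σ * ‖W (y - x0)‖ := Wop_Q hs hi hσ (y - x0)
        _ ≤ σ * 5 := by gcongr
        _ = 5 * σ := by ring
    have q2 : ‖ψ - s.P N ψ‖ ≤ 5 * σ := by
      have e2 : ψ - s.P N ψ = (ψ - φ0) - s.P N (ψ - φ0) := by rw [map_sub, hPN.2]; abel
      rw [e2]
      calc _ ≤ σ * ‖W (ψ - φ0)‖ := Wop_Q hs hi hσ (ψ - φ0)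
        _ ≤ σ * 5 := by gcongr
        _ = 5 * σ := by ring
    have q3 : ‖(inner ℂ (ψ - s.P N ψ) (Ψ (y - s.P N y)) : ℂ)‖ ≤ E / 4 * ‖Φ‖ := by
      calc ‖(inner ℂ (ψ - s.P N ψ) (Ψ (y - s.P N y)) : ℂ)‖
          ≤ ‖ψ - s.P N ψ‖ * ‖Ψ (y - s.P N y)‖ := norm_inner_le_norm _ _
        _ ≤ ‖ψ - s.P N ψ‖ * (‖Ψ‖ * ‖y - s.P N y‖) := by
            gcongr
            exact ContinuousLinearMap.le_opNorm _ _
        _ ≤ (5 * σ) * (‖Φ‖ * (5 * σ)) := by gcongr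
        _ = (25 * σ ^ 2) * ‖Φ‖ := by ring
        _ ≤ E / 4 * ‖Φ‖ := by gcongr
    calc ‖(inner ℂ ψ (Ψ y) : ℂ) - inner ℂ (ψ - s.P N ψ) (Ψ (y - s.P N y))‖
        ≤ ‖(inner ℂ ψ (Ψ y) : ℂ)‖ + ‖(inner ℂ (ψ - s.P N ψ) (Ψ (y - s.P N y)) : ℂ)‖ :=
          norm_sub_le _ _
      _ ≤ E / 2 * ‖Φ‖ + E / 4 * ‖Φ‖ := by
          refine add_le_add (hd1.trans ?_) q3
          gcongr
      _ = 3 / 4 * E * ‖Φ‖ := by ring

end Step

end ITER

theorem t_ITER (hNRM : Stmt_NRM) (hDESC : Stmt_DESC) (hPIG : Stmt_PIG) (hFLT : Stmt_FLT) :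
    Stmt_ITER := by
  intro f c D η B par H _ _ _ s l x φ hx hφ hann hxl hφl
  set x0 := s.P l x with hx0
  set φ0 := s.P l φ with hφ0
  have hP1 : ∀ n, ‖s.P n‖ ≤ 1 := (hNRM D η H s l).2.2.2.2.1
  have hx1 : ‖x0‖ ≤ 1 := by
    calc ‖x0‖ ≤ ‖s.P l‖ * ‖x‖ := ContinuousLinearMap.le_opNorm _ _
      _ ≤ 1 * 1 := by rw [hx]; gcongr; exact hP1 l
      _ = 1 := one_mul 1
  have hφ1 : ‖φ0‖ ≤ 1 := by
    calc ‖φ0‖ ≤ ‖s.P l‖ * ‖φ‖ := ContinuousLinearMap.le_opNorm _ _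
      _ ≤ 1 * 1 := by rw [hφ]; gcongr; exact hP1 l
      _ = 1 := one_mul 1
  have hPx : s.P l x0 = x0 := DFunLike.congr_fun (s.P_idem l) x
  have hPφ : s.P l φ0 = φ0 := DFunLike.congr_fun (s.P_idem l) φ
  -- σ
  set E := Real.exp (-(32 * (f l : ℝ))) with hE
  have hE0 : 0 < E := Real.exp_pos _
  have hE1 : E ≤ 1 := by
    rw [hE]; apply Real.exp_le_one_iff.2
    have : (0 : ℝ) ≤ f l := by positivity
    linarith
  set σ : ℝ := E / 2048 with hσdef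
  have hσ : 0 < σ := by positivity
  have hσ2 : σ ≤ 1 / 2048 := by rw [hσdef]; gcongr
  have hσ3 : 25 * σ ^ 2 ≤ E / 4 := by
    rw [hσdef]
    have : E ^ 2 ≤ E := by nlinarith
    nlinarith
  -- N
  obtain ⟨N, hN2, hNx, hNφ⟩ : ∃ N, l + 2 ≤ N ∧ ‖x - s.P N x‖ ≤ σ ∧ ‖φ - s.P N φ‖ ≤ σ := by
    have h1 := (Metric.tendsto_atTop.1 (s.P_lim x)) σ hσ
    have h2 := (Metric.tendsto_atTop.1 (s.P_lim φ)) σ hσ
    obtain ⟨N1, h1⟩ := h1
    obtain ⟨N2, h2⟩ := h2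
    refine ⟨max (l + 2) (max N1 N2), le_max_left _ _, ?_, ?_⟩
    · have := h1 (max (l + 2) (max N1 N2)) ((le_max_left _ _).trans (le_max_right _ _))
      rw [dist_eq_norm, norm_sub_rev] at this
      exact this.le
    · have := h2 (max (l + 2) (max N1 N2)) ((le_max_right _ _).trans (le_max_right _ _))
      rw [dist_eq_norm, norm_sub_rev] at this
      exact this.le
  have hs := s.P_star N
  have hi := s.P_idem N
  have hPN : s.P N x0 = x0 ∧ s.P N φ0 = φ0 := by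
    have hh := ((hNRM D η H s l).2.2.2.2.2.1 l N (by omega)).2
    exact ⟨DFunLike.congr_fun hh x, DFunLike.congr_fun hh φ⟩
  have hWx : ITER.Wop (s.P N) σ x0 = ((2048 : ℝ) : ℂ) • x0 := by
    rw [ITER.Wop_apply, hPN.1, sub_self, smul_zero, add_zero]
  -- the start
  have start_aux : ∀ v v0 : H, s.P N v0 = v0 → ‖v - v0‖ ≤ 1 / 2048 → ‖v - s.P N v‖ ≤ σ →
      ‖ITER.Wop (s.P N) σ (v - v0)‖ ^ 2 ≤ 2 := by
    intro v v0 h0 h1 h2
    rw [ITER.Wop_sq hs hi]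
    have e1 : (v - v0) - s.P N (v - v0) = v - s.P N v := by rw [map_sub, h0]; abel
    rw [e1]
    have a1 : ‖s.P N (v - v0)‖ ≤ 1 / 2048 := by
      calc ‖s.P N (v - v0)‖ ≤ ‖s.P N‖ * ‖v - v0‖ := ContinuousLinearMap.le_opNorm _ _
        _ ≤ 1 * (1 / 2048) := by gcongr; exact hP1 N
        _ = 1 / 2048 := one_mul _
    have a2 : ‖s.P N (v - v0)‖ ^ 2 ≤ (1 / 2048) ^ 2 := by gcongr
    have a3 : σ⁻¹ ^ 2 * ‖v - s.P N v‖ ^ 2 ≤ 1 := by
      calc σ⁻¹ ^ 2 * ‖v - s.P N v‖ ^ 2 ≤ σ⁻¹ ^ 2 * σ ^ 2 := by gcongr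
        _ = 1 := by field_simp
    nlinarith
  have start : ITER.St s B (ITER.Wop (s.P N) σ) x0 φ0 N N := by
    refine ⟨x, φ, 0, le_refl 0, (par.B_pos (N - 1) (by omega)).le, fun i a b => by omega, ?_, ?_⟩
    · have b1 := start_aux x x0 hPN.1 hxl hNx
      have b2 := start_aux φ φ0 hPN.2 hφl hNφ
      have b3 : (0 : ℝ) ≤ 4 / 2 ^ N := by positivity
      nlinarith
    · intro Φ hΦ
      rw [hann Φ hΦ.1, norm_zero, zero_mul]
  -- the descent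
  have desc : ∀ j n : ℕ, n + j = N → l + 2 ≤ n →
      ITER.St s B (ITER.Wop (s.P N) σ) x0 φ0 N n := by
    intro j
    induction j with
    | zero =>
      intro n hn _
      have : n = N := by omega
      rw [this]; exact start
    | succ j ih =>
      intro n hn hl
      obtain ⟨m, rfl⟩ : ∃ m, n = m + 1 := ⟨n - 1, by omega⟩
      have h1 := ih (m + 2) (by omega) (by omega)
      exact ITER.step hNRM hDESC hPIG hFLT par s (l := l) (by omega) (by omega)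
        (fun i hiN A => ITER.Wop_comm (s.P_comm N i hiN A) σ)
        (ITER.Wop_big hs hi hσ hσ2) hWx hx1 hφ1 hPx hPφ h1
  exact ITER.last hNRM hDESC hPIG hFLT par s hN2 hσ hσ2 hσ3 hx1 hφ1 hPx hPφ
    (desc (N - (l + 2)) (l + 2) (by omega) le_rfl)

end Pool.Agent.HSP
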