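import Pool.Agent.HSP.Stmts

/-!
# LEMN: a lower bound for a convolution of two bounded sequences

Proof with the Mahler measure of the two generating polynomials scaled by `1 / 64`.
-/

set_option autoImplicit false

noncomputable section

namespace Pool.Agent.HSP

namespace LEMN

/-- the cut and scaled generating polynomial -/
def pol (P : ℕ → ℂ) (L : ℕ) : Polynomial ℂ :=
  ∑ n ∈ Finset.range (L + 1), Polynomial.monomial n (P n * (1 / 64 : ℂ) ^ n)

lemma coeff_pol (P : ℕ → ℂ) (L n : ℕ) :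
    (pol P L).coeff n = if n < L + 1 then P n * (1 / 64 : ℂ) ^ n else 0 := by
  unfold pol
  rw [Polynomial.finsetSum_coeff]
  simp only [Polynomial.coeff_monomial]
  rw [Finset.sum_ite_eq']
  simp only [Finset.mem_range]

lemma natDegree_pol (P : ℕ → ℂ) (L : ℕ) : (pol P L).natDegree ≤ L := by
  rw [Polynomial.natDegree_le_iff_coeff_eq_zero]
  intro n hn
  rw [coeff_pol, if_neg (by omega)]

lemma geom_le (r : ℝ) (h0 : 0 ≤ r) (h1 : r ≤ 1 / 2) (n : ℕ) :
    ∑ k ∈ Finset.range n, r ^ k ≤ 2 - 2 * r ^ n := by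
  induction n with
  | zero => simp
  | succ n ih =>
    rw [Finset.sum_range_succ, pow_succ]
    have h2 : 0 ≤ r ^ n := pow_nonneg h0 n
    nlinarith

lemma low (P : ℕ → ℂ) (L b i : ℕ) (p : ℝ) (hi : i ≤ b) (hb : b ≤ L)
    (hp : p ≤ ‖P i‖) : p * (1 / 64) ^ b ≤ 2 ^ L * (pol P L).mahlerMeasure := by
  have h1 := Polynomial.norm_coeff_le_choose_mul_mahlerMeasure i (pol P L)
  rw [coeff_pol, if_pos (by omega), norm_mul, norm_pow] at h1
  have h2 : ‖(1 / 64 : ℂ)‖ = 1 / 64 := by norm_num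
  rw [h2] at h1
  have h3 : (((pol P L).natDegree.choose i : ℕ) : ℝ) ≤ 2 ^ L := by
    have h4 : (pol P L).natDegree.choose i ≤ 2 ^ (pol P L).natDegree := Nat.choose_le_two_pow _ _
    have h5 : 2 ^ (pol P L).natDegree ≤ 2 ^ L :=
      Nat.pow_le_pow_right (by norm_num) (natDegree_pol P L)
    exact_mod_cast h4.trans h5
  have h6 : (1 / 64 : ℝ) ^ b ≤ (1 / 64) ^ i := pow_le_pow_of_le_one (by norm_num) (by norm_num) hi
  calc p * (1 / 64) ^ b ≤ ‖P i‖ * (1 / 64) ^ i := by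
        apply mul_le_mul hp h6 (by positivity) (norm_nonneg _)
    _ ≤ _ := h1
    _ ≤ _ := mul_le_mul_of_nonneg_right h3 (Polynomial.mahlerMeasure_nonneg _)

lemma coeff_mul_low (P Q : ℕ → ℂ) (L l : ℕ) (hl : l ≤ L) :
    (pol P L * pol Q L).coeff l =
      (1 / 64 : ℂ) ^ l * ∑ k ∈ Finset.range (l + 1), P k * Q (l - k) := by
  rw [Polynomial.coeff_mul,
    Finset.Nat.sum_antidiagonal_eq_sum_range_succ (fun a c => (pol P L).coeff a * (pol Q L).coeff c),
    Finset.mul_sum]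
  apply Finset.sum_congr rfl
  intro k hk
  rw [Finset.mem_range] at hk
  rw [coeff_pol, coeff_pol, if_pos (by omega), if_pos (by omega)]
  have h : (1 / 64 : ℂ) ^ l = (1 / 64 : ℂ) ^ k * (1 / 64 : ℂ) ^ (l - k) := by
    rw [← pow_add]
    congr 1
    omega
  rw [h]
  ring

lemma norm_coeff_pol (P : ℕ → ℂ) (hP : ∀ n, ‖P n‖ ≤ 1) (L n : ℕ) :
    ‖(pol P L).coeff n‖ ≤ (1 / 64) ^ n := by
  rw [coeff_pol]
  split_ifs with h
  · rw [norm_mul, norm_pow]
    have h2 : ‖(1 / 64 : ℂ)‖ = 1 / 64 := by norm_num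
    rw [h2]
    calc ‖P n‖ * (1 / 64) ^ n ≤ 1 * (1 / 64) ^ n :=
          mul_le_mul_of_nonneg_right (hP n) (by positivity)
      _ = _ := one_mul _
  · rw [norm_zero]
    positivity

lemma norm_coeff_mul (P Q : ℕ → ℂ) (hP : ∀ n, ‖P n‖ ≤ 1) (hQ : ∀ n, ‖Q n‖ ≤ 1) (L l : ℕ) :
    ‖(pol P L * pol Q L).coeff l‖ ≤ (1 / 32) ^ l := by
  rw [Polynomial.coeff_mul,
    Finset.Nat.sum_antidiagonal_eq_sum_range_succ (fun a c => (pol P L).coeff a * (pol Q L).coeff c)]
  have h1 : ‖∑ k ∈ Finset.range l.succ, (pol P L).coeff k * (pol Q L).coeff (l - k)‖ ≤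
      ∑ k ∈ Finset.range l.succ, (1 / 64 : ℝ) ^ l := by
    apply norm_sum_le_of_le
    intro k hk
    rw [Finset.mem_range] at hk
    have h : (1 / 64 : ℝ) ^ l = (1 / 64 : ℝ) ^ k * (1 / 64 : ℝ) ^ (l - k) := by
      rw [← pow_add]
      congr 1
      omega
    rw [norm_mul, h]
    exact mul_le_mul (norm_coeff_pol P hP L k) (norm_coeff_pol Q hQ L (l - k)) (norm_nonneg _)
      (by positivity)
  refine h1.trans ?_
  rw [Finset.sum_const, Finset.card_range, nsmul_eq_mul]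
  have h2 : ((l.succ : ℕ) : ℝ) ≤ 2 ^ l := by
    have : l.succ ≤ 2 ^ l := Nat.lt_two_pow_self
    exact_mod_cast this
  calc ((l.succ : ℕ) : ℝ) * (1 / 64) ^ l ≤ 2 ^ l * (1 / 64) ^ l :=
        mul_le_mul_of_nonneg_right h2 (by positivity)
    _ = (1 / 32) ^ l := by
        rw [← mul_pow]
        norm_num

lemma upp (P Q : ℕ → ℂ) (hP : ∀ n, ‖P n‖ ≤ 1) (hQ : ∀ n, ‖Q n‖ ≤ 1) (L : ℕ) (mu : ℝ)
    (hmu : 0 < mu)
    (h : ∀ l, l ≤ L → ‖∑ k ∈ Finset.range (l + 1), P k * Q (l - k)‖ ≤ mu) :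
    (pol P L * pol Q L).mahlerMeasure ≤ 2 * mu + (1 / 32) ^ L / 16 := by
  refine (Polynomial.mahlerMeasure_le_sum_norm_coeff _).trans ?_
  have hdeg : (pol P L * pol Q L).natDegree < (L + 1) + L := by
    have h1 := Polynomial.natDegree_mul_le (p := pol P L) (q := pol Q L)
    have h2 := natDegree_pol P L
    have h3 := natDegree_pol Q L
    omega
  rw [Polynomial.sum_over_range' _ (by intro n; exact norm_zero) _ hdeg, Finset.sum_range_add]
  have hA : ∑ l ∈ Finset.range (L + 1), ‖(pol P L * pol Q L).coeff l‖ ≤ 2 * mu := by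
    calc ∑ l ∈ Finset.range (L + 1), ‖(pol P L * pol Q L).coeff l‖
        ≤ ∑ l ∈ Finset.range (L + 1), (1 / 64) ^ l * mu := by
          apply Finset.sum_le_sum
          intro l hl
          rw [Finset.mem_range] at hl
          rw [coeff_mul_low P Q L l (by omega), norm_mul, norm_pow]
          have h2 : ‖(1 / 64 : ℂ)‖ = 1 / 64 := by norm_num
          rw [h2]
          exact mul_le_mul_of_nonneg_left (h l (by omega)) (by positivity)
      _ = (∑ l ∈ Finset.range (L + 1), (1 / 64 : ℝ) ^ l) * mu := by rw [Finset.sum_mul]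
      _ ≤ 2 * mu := by
          apply mul_le_mul_of_nonneg_right _ hmu.le
          have h3 := geom_le (1 / 64) (by norm_num) (by norm_num) (L + 1)
          have h4 : (0 : ℝ) ≤ (1 / 64) ^ (L + 1) := by positivity
          linarith
  have hB : ∑ k ∈ Finset.range L, ‖(pol P L * pol Q L).coeff (L + 1 + k)‖ ≤ (1 / 32) ^ L / 16 := by
    calc ∑ k ∈ Finset.range L, ‖(pol P L * pol Q L).coeff (L + 1 + k)‖
        ≤ ∑ k ∈ Finset.range L, (1 / 32 : ℝ) ^ (L + 1) * (1 / 32) ^ k := by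
          apply Finset.sum_le_sum
          intro k _
          rw [← pow_add]
          exact norm_coeff_mul P Q hP hQ L (L + 1 + k)
      _ = (1 / 32 : ℝ) ^ (L + 1) * ∑ k ∈ Finset.range L, (1 / 32 : ℝ) ^ k := by
          rw [Finset.mul_sum]
      _ ≤ (1 / 32 : ℝ) ^ (L + 1) * 2 := by
          apply mul_le_mul_of_nonneg_left _ (by positivity)
          have h3 := geom_le (1 / 32) (by norm_num) (by norm_num) L
          have h4 : (0 : ℝ) ≤ (1 / 32) ^ L := by positivity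
          linarith
      _ = (1 / 32) ^ L / 16 := by
          rw [pow_succ]
          ring
  exact add_le_add hA hB

end LEMN

open LEMN in
theorem t_LEMN : Stmt_LEMN := by
  intro P Q p p' b L i j hP hQ hp0 hp0' hp hp' hi hj hb hL
  by_contra hcon
  push Not at hcon
  set mu : ℝ := p * p' / (4 * 64 ^ (2 * b) * 4 ^ L) with hmudef
  have hmu : 0 < mu := by positivity
  have h1 := low P L b i p hi hb hp
  have h2 := low Q L b j p' hj hb hp'
  have h3 := upp P Q hP hQ L mu hmu (fun l hl => (hcon l hl).le)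
  rw [Polynomial.mahlerMeasure_mul] at h3
  have h4 : (p * (1 / 64) ^ b) * (p' * (1 / 64) ^ b) ≤
      (2 ^ L * (pol P L).mahlerMeasure) * (2 ^ L * (pol Q L).mahlerMeasure) :=
    mul_le_mul h1 h2 (by positivity)
      (mul_nonneg (by positivity) (Polynomial.mahlerMeasure_nonneg _))
  have h5 : (p * (1 / 64) ^ b) * (p' * (1 / 64) ^ b) = 4 * mu * 4 ^ L := by
    rw [hmudef]
    have h6 : (64 : ℝ) ^ (2 * b) = 64 ^ b * 64 ^ b := by
      rw [two_mul, pow_add]
    rw [h6, one_div, inv_pow]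
    field_simp
  have h7 : (2 ^ L * (pol P L).mahlerMeasure) * (2 ^ L * (pol Q L).mahlerMeasure) =
      ((pol P L).mahlerMeasure * (pol Q L).mahlerMeasure) * 4 ^ L := by
    have h8 : (4 : ℝ) ^ L = 2 ^ L * 2 ^ L := by
      rw [← mul_pow]
      norm_num
    rw [h8]
    ring
  rw [h5, h7] at h4
  have h9 : 4 * mu ≤ (pol P L).mahlerMeasure * (pol Q L).mahlerMeasure :=
    le_of_mul_le_mul_right h4 (by positivity)
  have h10 : (1 / 32 : ℝ) ^ L ≤ 2 * mu := by
    rw [hmudef]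
    have h11 : (64 : ℝ) ^ (2 * b) = 8 ^ (4 * b) := by
      rw [show (4 * b) = 2 * (2 * b) by ring, pow_mul (8 : ℝ) 2 (2 * b)]
      norm_num
    have h12 : (32 : ℝ) ^ L = 8 ^ L * 4 ^ L := by
      rw [← mul_pow]
      norm_num
    rw [h11, one_div, inv_pow, h12]
    have h13 : 2 * (p * p' / (4 * 8 ^ (4 * b) * 4 ^ L)) =
        (p * p' * 8 ^ L) / (2 * 8 ^ (4 * b) * (8 ^ L * 4 ^ L)) := by
      field_simp
      norm_num
    rw [h13, le_div_iff₀ (by positivity), ← div_eq_inv_mul, div_le_iff₀ (by positivity)]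
    exact mul_le_mul_of_nonneg_right hL (by positivity)
  linarith

end Pool.Agent.HSP
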