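import Pool.Agent.HSP.Stmts

/-!
# LIFT: lifting an element of the commutant from level `m + 1` to level `m + 2`
-/

set_option autoImplicit false

open Filter Topology
open scoped ComplexOrder

noncomputable section

namespace Pool.Agent.HSP

namespace LIFT

/-- entries of the powers of the shift -/
lemma tM_pow (D k : ℕ) (a b : Fin (D + 1)) :
    (tM D ^ k) a b = if (a : ℕ) = (b : ℕ) + k then 1 else 0 := by
  induction k generalizing a b with
  | zero =>
    rw [pow_zero, Matrix.one_apply]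
    simp [Fin.ext_iff]
  | succ k ih =>
    rw [pow_succ, Matrix.mul_apply]
    by_cases hb : (b : ℕ) + 1 < D + 1
    · rw [Finset.sum_eq_single (⟨(b : ℕ) + 1, hb⟩ : Fin (D + 1))]
      · rw [ih]
        simp only [tM]
        simp only [if_true, mul_one]
        have : ((a : ℕ) = (b : ℕ) + 1 + k) ↔ ((a : ℕ) = (b : ℕ) + (k + 1)) := by omega
        simp only [this]
      · intro c _ hc
        have : ¬ ((c : ℕ) = (b : ℕ) + 1) := by
          intro h
          apply hc
          exact Fin.ext h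
        simp only [tM, this, if_false, mul_zero]
      · intro h
        exact absurd (Finset.mem_univ _) h
    · have hb' : (b : ℕ) = D := by
        have := b.isLt
        omega
      have ha := a.isLt
      rw [if_neg (by omega)]
      apply Finset.sum_eq_zero
      intro c _
      have hc := c.isLt
      simp only [tM]
      rw [if_neg (by omega), mul_zero]

/-- entries of `t ^ k d ^ j` -/
lemma tMdM (D k j : ℕ) (a b : Fin (D + 1)) :
    (tM D ^ k * dM D ^ j) a b =
      if (a : ℕ) + j = (b : ℕ) + k then (((b : ℕ).descFactorial j : ℕ) : ℂ) else 0 := by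
  induction j generalizing a b with
  | zero =>
    rw [pow_zero, mul_one, tM_pow]
    simp
  | succ j ih =>
    rw [pow_succ, ← mul_assoc, Matrix.mul_apply]
    by_cases hb : 1 ≤ (b : ℕ)
    · have hb2 := b.isLt
      rw [Finset.sum_eq_single (⟨(b : ℕ) - 1, by omega⟩ : Fin (D + 1))]
      · rw [ih]
        simp only [dM]
        rw [if_pos (show (b : ℕ) = (b : ℕ) - 1 + 1 by omega)]
        have h1 : ((a : ℕ) + j = (b : ℕ) - 1 + k) ↔ ((a : ℕ) + (j + 1) = (b : ℕ) + k) := by omega
        simp only [h1]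
        split_ifs with h
        · obtain ⟨c, hc⟩ : ∃ c, (b : ℕ) = c + 1 := ⟨(b : ℕ) - 1, by omega⟩
          rw [hc, Nat.succ_descFactorial_succ]
          simp only [Nat.add_sub_cancel]
          push_cast
          ring
        · rw [zero_mul]
      · intro c _ hc
        have : ¬ ((b : ℕ) = (c : ℕ) + 1) := by
          intro h
          apply hc
          apply Fin.ext
          simp only
          omega
        simp only [dM, this, if_false, mul_zero]
      · intro h
        exact absurd (Finset.mem_univ _) h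
    · have hb' : (b : ℕ) = 0 := by omega
      rw [hb', Nat.zero_descFactorial_succ]
      rw [Finset.sum_eq_zero]
      · simp
      · intro c _
        simp only [dM]
        rw [if_neg (by omega), mul_zero]

lemma mul_t_apply (D : ℕ) (A : Mt D) (a b : Fin (D + 1)) :
    (A * tM D) a b = if h : (b : ℕ) + 1 < D + 1 then A a ⟨(b : ℕ) + 1, h⟩ else 0 := by
  rw [Matrix.mul_apply]
  split_ifs with hb
  · rw [Finset.sum_eq_single (⟨(b : ℕ) + 1, hb⟩ : Fin (D + 1))]
    · simp [tM]
    · intro c _ hc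
      have : ¬ ((c : ℕ) = (b : ℕ) + 1) := by
        intro h
        apply hc
        exact Fin.ext h
      simp only [tM, this, if_false, mul_zero]
    · intro h
      exact absurd (Finset.mem_univ _) h
  · apply Finset.sum_eq_zero
    intro c _
    have hc := c.isLt
    simp only [tM]
    rw [if_neg (by omega), mul_zero]

lemma t_mul_apply (D : ℕ) (A : Mt D) (a b : Fin (D + 1)) :
    (tM D * A) a b = if h : 1 ≤ (a : ℕ) then A ⟨(a : ℕ) - 1, by omega⟩ b else 0 := by
  rw [Matrix.mul_apply]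
  split_ifs with ha
  · rw [Finset.sum_eq_single (⟨(a : ℕ) - 1, by omega⟩ : Fin (D + 1))]
    · simp only [tM]
      rw [if_pos (by omega), one_mul]
    · intro c _ hc
      have : ¬ ((a : ℕ) = (c : ℕ) + 1) := by
        intro h
        apply hc
        apply Fin.ext
        simp only
        omega
      simp only [tM, this, if_false, zero_mul]
    · intro h
      exact absurd (Finset.mem_univ _) h
  · apply Finset.sum_eq_zero
    intro c _
    simp only [tM]
    rw [if_neg (by omega), zero_mul]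

/-- the commutator of `t ^ k d ^ (j + 1)` with `t` -/
lemma comm_succ (D k j : ℕ) (hj : j + 1 ≤ k) :
    (tM D ^ k * dM D ^ (j + 1)) * tM D - tM D * (tM D ^ k * dM D ^ (j + 1)) =
      ((j : ℂ) + 1) • (tM D ^ k * dM D ^ j) := by
  ext a b
  rw [Matrix.sub_apply, mul_t_apply, t_mul_apply, Matrix.smul_apply, tMdM, smul_eq_mul]
  have ha := a.isLt
  have hb := b.isLt
  by_cases h : (a : ℕ) + j = (b : ℕ) + k
  · have hb1 : (b : ℕ) + 1 < D + 1 := by omega
    have ha1 : 1 ≤ (a : ℕ) := by omega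
    rw [dif_pos hb1, dif_pos ha1, tMdM, tMdM, if_pos h]
    simp only
    rw [if_pos (by omega), if_pos (by omega)]
    rw [Nat.succ_descFactorial_succ, Nat.descFactorial_succ]
    by_cases hjb : j ≤ (b : ℕ)
    · push_cast [Nat.cast_sub hjb]
      ring
    · have : (b : ℕ).descFactorial j = 0 := Nat.descFactorial_eq_zero_iff_lt.2 (by omega)
      rw [this]
      simp
  · rw [if_neg h, mul_zero]
    have e1 : (if h : (b : ℕ) + 1 < D + 1 then
        (tM D ^ k * dM D ^ (j + 1)) a ⟨(b : ℕ) + 1, h⟩ else 0) = 0 := by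
      split_ifs with hb1
      · rw [tMdM, if_neg]
        simp only
        omega
      · rfl
    have e2 : (if h : 1 ≤ (a : ℕ) then
        (tM D ^ k * dM D ^ (j + 1)) ⟨(a : ℕ) - 1, by omega⟩ b else 0) = 0 := by
      split_ifs with ha1
      · rw [tMdM, if_neg]
        simp only
        omega
      · rfl
    rw [e1, e2, sub_zero]

variable {D : ℕ → ℕ} {η : ℕ → ℝ} {H : Type} [NormedAddCommGroup H] [InnerProductSpace ℂ H]
  [CompleteSpace H]

/-- the commutator of a one-site operator with `T` -/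
lemma comm_T (s : Sys D η H) (i : ℕ) (A : Mt (D i)) :
    s.π i A * s.T - s.T * s.π i A = (η i : ℂ) • s.π i (A * tM (D i) - tM (D i) * A) := by
  have h1 := s.hasSum.mul_left (s.π i A)
  have h2 := s.hasSum.mul_right (s.π i A)
  have h3 := h1.sub h2
  have h4 : HasSum (fun j => s.π i A * ((η j : ℂ) • s.π j (tM (D j))) -
      ((η j : ℂ) • s.π j (tM (D j))) * s.π i A)
      (s.π i A * ((η i : ℂ) • s.π i (tM (D i))) -
      ((η i : ℂ) • s.π i (tM (D i))) * s.π i A) := by
    apply hasSum_single i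
    intro j hj
    have hc : Commute (s.π i A) (s.π j (tM (D j))) := s.comm i j (Ne.symm hj) _ _
    rw [mul_smul_comm, smul_mul_assoc, hc.eq, sub_self]
  rw [h3.unique h4, mul_smul_comm, smul_mul_assoc, ← smul_sub, map_sub, map_mul, map_mul]

/-- the operators `G_j` -/
def G (s : Sys D η H) (m k : ℕ) (Φ : H →L[ℂ] H) (j : ℕ) : H →L[ℂ] H :=
  (((j.factorial : ℝ) * η m ^ j : ℝ) : ℂ)⁻¹ • (Φ * s.π m (tM (D m) ^ k * dM (D m) ^ j))

/-- the operators `π (X_j)` -/
def Y (s : Sys D η H) (n : ℕ) (X : Mt (D n)) (j : ℕ) : H →L[ℂ] H :=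
  ((η n : ℂ) ^ j) • s.π n ((adT (D n))^[j] X)

lemma Y_comm (s : Sys D η H) (n : ℕ) (X : Mt (D n)) (j : ℕ) :
    Y s n X j * s.T - s.T * Y s n X j = Y s n X (j + 1) := by
  have h := comm_T s n ((adT (D n))^[j] X)
  unfold Y
  rw [smul_mul_assoc, mul_smul_comm, ← smul_sub, h, smul_smul, Function.iterate_succ_apply']
  rw [pow_succ]
  rfl

lemma Y_norm (s : Sys D η H) (n : ℕ) (X : Mt (D n)) (j : ℕ) (hη : 0 ≤ η n)
    (ht : ‖s.π n (tM (D n))‖ ≤ 1) (hX : ‖s.π n X‖ ≤ 1) :
    ‖Y s n X j‖ ≤ (2 * η n) ^ j := by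
  have key : ∀ j, ‖s.π n ((adT (D n))^[j] X)‖ ≤ 2 ^ j := by
    intro j
    induction j with
    | zero => simpa using hX
    | succ j ih =>
      rw [Function.iterate_succ_apply']
      have e : s.π n (adT (D n) ((adT (D n))^[j] X)) =
          s.π n ((adT (D n))^[j] X) * s.π n (tM (D n)) -
          s.π n (tM (D n)) * s.π n ((adT (D n))^[j] X) := by
        rw [adT, map_sub, map_mul, map_mul]
      rw [e]
      calc _ ≤ ‖s.π n ((adT (D n))^[j] X) * s.π n (tM (D n))‖ +
            ‖s.π n (tM (D n)) * s.π n ((adT (D n))^[j] X)‖ := norm_sub_le _ _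
        _ ≤ ‖s.π n ((adT (D n))^[j] X)‖ * ‖s.π n (tM (D n))‖ +
            ‖s.π n (tM (D n))‖ * ‖s.π n ((adT (D n))^[j] X)‖ :=
            add_le_add (norm_mul_le _ _) (norm_mul_le _ _)
        _ ≤ 2 ^ j * 1 + 1 * 2 ^ j := by
            gcongr
        _ = 2 ^ (j + 1) := by ring
  unfold Y
  rw [norm_smul, norm_pow, Complex.norm_real, Real.norm_of_nonneg hη]
  calc _ ≤ η n ^ j * 2 ^ j := by
        apply mul_le_mul_of_nonneg_left (key j) (pow_nonneg hη j)
    _ = (2 * η n) ^ j := by rw [mul_pow, mul_comm]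

lemma G_zero (s : Sys D η H) (m k : ℕ) (Φ : H →L[ℂ] H) :
    G s m k Φ 0 = Φ * s.π m (tM (D m) ^ k) := by
  unfold G
  simp

lemma G_comm_zero (s : Sys D η H) (m k : ℕ) (Φ : H →L[ℂ] H) (hΦ : Commute Φ s.T) :
    G s m k Φ 0 * s.T - s.T * G s m k Φ 0 = 0 := by
  rw [G_zero]
  have h := comm_T s m (tM (D m) ^ k)
  rw [← pow_succ, ← pow_succ', sub_self, map_zero, smul_zero] at h
  calc Φ * s.π m (tM (D m) ^ k) * s.T - s.T * (Φ * s.π m (tM (D m) ^ k))
      = Φ * (s.π m (tM (D m) ^ k) * s.T - s.T * s.π m (tM (D m) ^ k)) +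
        (Φ * s.T - s.T * Φ) * s.π m (tM (D m) ^ k) := by noncomm_ring
    _ = 0 := by rw [h, hΦ.eq, sub_self, mul_zero, zero_mul, add_zero]

lemma G_comm_succ (s : Sys D η H) (m k : ℕ) (Φ : H →L[ℂ] H) (hΦ : Commute Φ s.T) (hη : 0 < η m)
    (j : ℕ) (hj : j + 1 ≤ k) :
    G s m k Φ (j + 1) * s.T - s.T * G s m k Φ (j + 1) = G s m k Φ j := by
  have h := comm_T s m (tM (D m) ^ k * dM (D m) ^ (j + 1))
  rw [comm_succ _ _ _ hj, map_smul] at h
  have e : Φ * s.π m (tM (D m) ^ k * dM (D m) ^ (j + 1)) * s.T -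
      s.T * (Φ * s.π m (tM (D m) ^ k * dM (D m) ^ (j + 1))) =
      Φ * ((η m : ℂ) • (((j : ℂ) + 1) • s.π m (tM (D m) ^ k * dM (D m) ^ j))) := by
    rw [← h]
    have e2 : Φ * s.T = s.T * Φ := hΦ.eq
    rw [← mul_assoc, ← e2]
    noncomm_ring
  unfold G
  rw [smul_mul_assoc, mul_smul_comm, ← smul_sub, e, mul_smul_comm, mul_smul_comm, smul_smul,
    smul_smul]
  congr 1
  have h1 : (η m : ℂ) ≠ 0 := by exact_mod_cast hη.ne'
  have h2 : ((j.factorial : ℕ) : ℂ) ≠ 0 := by exact_mod_cast (Nat.factorial_pos j).ne'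
  have h3 : ((j : ℂ) + 1) ≠ 0 := by exact_mod_cast (Nat.succ_ne_zero j)
  push_cast [Nat.factorial_succ]
  rw [pow_succ]
  field_simp

lemma G_norm (s : Sys D η H) (m k : ℕ) (Φ : H →L[ℂ] H) (hη : 0 < η m)
    (ht : ‖s.π m (tM (D m) ^ k)‖ ≤ 1) (hd : ‖s.π m (dM (D m))‖ ≤ ((D m : ℝ) + 1) ^ 2) (j : ℕ) :
    ‖G s m k Φ j‖ ≤ ‖Φ‖ * ((((D m : ℝ) + 1) ^ 2 / η m) ^ j / (j.factorial : ℝ)) := by
  have hf : (0 : ℝ) < (j.factorial : ℝ) := by exact_mod_cast Nat.factorial_pos j
  have hp : 0 < (j.factorial : ℝ) * η m ^ j := mul_pos hf (pow_pos hη j)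
  have h1 : ‖s.π m (tM (D m) ^ k * dM (D m) ^ j)‖ ≤ (((D m : ℝ) + 1) ^ 2) ^ j := by
    have e : s.π m (tM (D m) ^ k * dM (D m) ^ j) = s.π m (tM (D m) ^ k) * s.π m (dM (D m)) ^ j := by
      rw [map_mul, map_pow (s.π m) (dM (D m)) j]
    rw [e]
    calc _ ≤ ‖s.π m (tM (D m) ^ k)‖ * ‖s.π m (dM (D m)) ^ j‖ := norm_mul_le _ _
      _ ≤ 1 * (((D m : ℝ) + 1) ^ 2) ^ j := by
          have hj : ‖s.π m (dM (D m)) ^ j‖ ≤ (((D m : ℝ) + 1) ^ 2) ^ j := by
            rcases Nat.eq_zero_or_pos j with h0 | h0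
            · subst h0
              simp only [pow_zero]
              exact ContinuousLinearMap.norm_id_le
            · exact (norm_pow_le' _ h0).trans (pow_le_pow_left₀ (norm_nonneg _) hd j)
          exact mul_le_mul ht hj (norm_nonneg _) zero_le_one
      _ = _ := one_mul _
  unfold G
  rw [norm_smul, norm_inv, Complex.norm_real, Real.norm_of_nonneg hp.le]
  calc _ ≤ ((j.factorial : ℝ) * η m ^ j)⁻¹ * (‖Φ‖ * (((D m : ℝ) + 1) ^ 2) ^ j) := by
        apply mul_le_mul_of_nonneg_left _ (inv_nonneg.2 hp.le)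
        exact (norm_mul_le _ _).trans (mul_le_mul_of_nonneg_left h1 (norm_nonneg _))
    _ = _ := by
        rw [div_pow]
        field_simp

end LIFT

open LIFT in
theorem t_LIFT (hNRM : Stmt_NRM) : Stmt_LIFT := by
  intro D η H _ _ _ s m k Φ X hη0 hη1 hΦ hX hXn
  obtain ⟨hΦT, hΦπ, hΦP⟩ := hΦ
  obtain ⟨-, -, htk, hd, -⟩ := hNRM D η H s m
  obtain ⟨-, ht1, -⟩ := hNRM D η H s (m + 1)
  -- commutation of `G_j` with the operators of the site `m + 1`
  have hne : m ≠ m + 1 := by omega
  have hGY : ∀ j (A : Mt (D (m + 1))), Commute (G s m k Φ j) (s.π (m + 1) A) := by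
    intro j A
    unfold G
    apply Commute.smul_left
    exact (hΦπ (m + 1) le_rfl A).mul_left (s.comm m (m + 1) hne _ A)
  refine ⟨∑ j ∈ Finset.range (k + 1), ((-1 : ℂ) ^ j) • (G s m k Φ j * Y s (m + 1) X j),
    ⟨?_, ?_, ?_⟩, ?_⟩
  · -- commutes with `T`
    have key : ∀ n, n ≤ k → (∑ j ∈ Finset.range (n + 1),
        ((-1 : ℂ) ^ j) • (G s m k Φ j * Y s (m + 1) X j)) * s.T - s.T *
        (∑ j ∈ Finset.range (n + 1), ((-1 : ℂ) ^ j) • (G s m k Φ j * Y s (m + 1) X j)) =
        ((-1 : ℂ) ^ n) • (G s m k Φ n * Y s (m + 1) X (n + 1)) := by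
      intro n
      induction n with
      | zero =>
        intro _
        rw [Finset.sum_range_one, pow_zero, one_smul, one_smul, ← Y_comm s (m + 1) X 0]
        have h0 := G_comm_zero s m k Φ hΦT
        calc G s m k Φ 0 * Y s (m + 1) X 0 * s.T - s.T * (G s m k Φ 0 * Y s (m + 1) X 0)
            = G s m k Φ 0 * (Y s (m + 1) X 0 * s.T - s.T * Y s (m + 1) X 0) +
              (G s m k Φ 0 * s.T - s.T * G s m k Φ 0) * Y s (m + 1) X 0 := by noncomm_ring
          _ = _ := by rw [h0, zero_mul, add_zero]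
      | succ n ih =>
        intro hn
        rw [Finset.sum_range_succ, add_mul, mul_add, add_sub_add_comm, ih (by omega)]
        have e1 := Y_comm s (m + 1) X (n + 1)
        have e2 := G_comm_succ s m k Φ hΦT hη0 n hn
        rw [smul_mul_assoc, mul_smul_comm, ← smul_sub]
        have e3 : G s m k Φ (n + 1) * Y s (m + 1) X (n + 1) * s.T -
            s.T * (G s m k Φ (n + 1) * Y s (m + 1) X (n + 1)) =
            G s m k Φ (n + 1) * Y s (m + 1) X (n + 1 + 1) +
            G s m k Φ n * Y s (m + 1) X (n + 1) := by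
          calc _ = G s m k Φ (n + 1) *
                (Y s (m + 1) X (n + 1) * s.T - s.T * Y s (m + 1) X (n + 1)) +
                (G s m k Φ (n + 1) * s.T - s.T * G s m k Φ (n + 1)) *
                Y s (m + 1) X (n + 1) := by noncomm_ring
            _ = _ := by rw [e1, e2]
        rw [e3, smul_add, pow_succ]
        simp only [mul_neg, mul_one, neg_smul]
        abel
    have h := key k le_rfl
    have hz : Y s (m + 1) X (k + 1) = 0 := by
      unfold Y
      rw [hX, map_zero, smul_zero]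
    rw [hz, mul_zero, smul_zero] at h
    exact sub_eq_zero.1 h
  · intro i hi A
    apply Commute.sum_left
    intro j _
    apply Commute.smul_left
    apply Commute.mul_left
    · unfold G
      apply Commute.smul_left
      exact (hΦπ i (by omega) A).mul_left (s.comm m i (by omega) _ A)
    · unfold Y
      apply Commute.smul_left
      exact s.comm (m + 1) i (by omega) _ A
  · intro N hN
    apply Commute.sum_left
    intro j _
    apply Commute.smul_left
    apply Commute.mul_left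
    · unfold G
      apply Commute.smul_left
      exact (hΦP N (by omega)).mul_left (s.P_comm N m (by omega) _).symm
    · unfold Y
      apply Commute.smul_left
      exact (s.P_comm N (m + 1) (by omega) _).symm
  · rw [Finset.sum_range_succ']
    have e0 : ((-1 : ℂ) ^ 0) • (G s m k Φ 0 * Y s (m + 1) X 0) =
        Φ * s.π m (tM (D m) ^ k) * s.π (m + 1) X := by
      rw [pow_zero, one_smul, G_zero]
      unfold Y
      rw [pow_zero, one_smul]
      rfl
    rw [e0, add_sub_cancel_right]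
    set y : ℝ := 2 * ((D m : ℝ) + 1) ^ 2 * η (m + 1) / η m with hy
    have hy0 : 0 ≤ y := by positivity
    have hterm : ∀ j ∈ Finset.range k,
        ‖((-1 : ℂ) ^ (j + 1)) • (G s m k Φ (j + 1) * Y s (m + 1) X (j + 1))‖ ≤
        ‖Φ‖ * (y ^ (j + 1) / ((j + 1).factorial : ℝ)) := by
      intro j _
      rw [norm_smul, norm_pow, norm_neg, norm_one, one_pow, one_mul]
      calc _ ≤ ‖G s m k Φ (j + 1)‖ * ‖Y s (m + 1) X (j + 1)‖ := norm_mul_le _ _
        _ ≤ (‖Φ‖ * ((((D m : ℝ) + 1) ^ 2 / η m) ^ (j + 1) / ((j + 1).factorial : ℝ))) *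
            (2 * η (m + 1)) ^ (j + 1) := by
            apply mul_le_mul (G_norm s m k Φ hη0 (htk k) hd (j + 1))
              (Y_norm s (m + 1) X (j + 1) hη1 ht1 hXn) (norm_nonneg _)
            positivity
        _ = _ := by
            rw [hy]
            have : 2 * ((D m : ℝ) + 1) ^ 2 * η (m + 1) / η m =
              (((D m : ℝ) + 1) ^ 2 / η m) * (2 * η (m + 1)) := by ring
            rw [this, mul_pow]
            generalize ((D m : ℝ) + 1) ^ 2 / η m = a
            ring
    calc _ ≤ ∑ j ∈ Finset.range k,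
          ‖((-1 : ℂ) ^ (j + 1)) • (G s m k Φ (j + 1) * Y s (m + 1) X (j + 1))‖ :=
          norm_sum_le _ _
      _ ≤ ∑ j ∈ Finset.range k, ‖Φ‖ * (y ^ (j + 1) / ((j + 1).factorial : ℝ)) :=
          Finset.sum_le_sum hterm
      _ = ‖Φ‖ * ((∑ j ∈ Finset.range (k + 1), y ^ j / (j.factorial : ℝ)) - 1) := by
          rw [← Finset.mul_sum, Finset.sum_range_succ']
          simp
      _ ≤ ‖Φ‖ * (Real.exp y - 1) := by
          apply mul_le_mul_of_nonneg_left _ (norm_nonneg _)
          have := Real.sum_le_exp_of_nonneg hy0 (k + 1)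
          linarith
      _ = ‖Φ‖ * ee D η m := by
          rw [ee, hy]

end Pool.Agent.HSP
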