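import Pool.Agent.HSP.Stmts

/-!
# MODM: matrix units give a representation of the matrix algebra
-/

set_option autoImplicit false

open Filter Topology
open scoped ComplexOrder Matrix

noncomputable section

namespace Pool.Agent.HSP

namespace MODM

section Rep

variable {n : ℕ} {H : Type} [NormedAddCommGroup H] [InnerProductSpace ℂ H] [CompleteSpace H]
  (E : Fin (n + 1) → Fin (n + 1) → (H →L[ℂ] H))

/-- the linear map given by the matrix units -/
def sg (A : Mt n) : H →L[ℂ] H := ∑ a, ∑ b, A a b • E a b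

theorem sg_add (A B : Mt n) : sg E (A + B) = sg E A + sg E B := by
  unfold sg
  rw [← Finset.sum_add_distrib]
  refine Finset.sum_congr rfl fun a _ => ?_
  rw [← Finset.sum_add_distrib]
  refine Finset.sum_congr rfl fun b _ => ?_
  rw [Matrix.add_apply, add_smul]

theorem sg_smul (c : ℂ) (A : Mt n) : sg E (c • A) = c • sg E A := by
  unfold sg
  rw [Finset.smul_sum]
  refine Finset.sum_congr rfl fun a _ => ?_
  rw [Finset.smul_sum]
  refine Finset.sum_congr rfl fun b _ => ?_
  rw [Matrix.smul_apply, smul_smul, smul_eq_mul]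

theorem sg_one (h1 : ∑ a, E a a = 1) : sg E (1 : Mt n) = 1 := by
  unfold sg
  rw [← h1]
  refine Finset.sum_congr rfl fun a _ => ?_
  rw [Finset.sum_eq_single a]
  · rw [Matrix.one_apply_eq, one_smul]
  · intro b _ hb
    rw [Matrix.one_apply_ne (Ne.symm hb), zero_smul]
  · intro h
    exact absurd (Finset.mem_univ a) h

theorem sg_mul (hE : ∀ a b c d, E a b * E c d = if b = c then E a d else 0) (A B : Mt n) :
    sg E (A * B) = sg E A * sg E B := by
  have key : ∀ a b, (A a b • E a b) * sg E B = ∑ d, (A a b * B b d) • E a d := by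
    intro a b
    unfold sg
    rw [Finset.mul_sum, Finset.sum_eq_single b]
    · rw [Finset.mul_sum]
      refine Finset.sum_congr rfl fun d _ => ?_
      rw [smul_mul_assoc, mul_smul_comm, hE a b b d, if_pos rfl, smul_smul]
    · intro c _ hc
      rw [Finset.mul_sum]
      refine Finset.sum_eq_zero fun d _ => ?_
      rw [smul_mul_assoc, mul_smul_comm, hE a b c d, if_neg (Ne.symm hc), smul_zero, smul_zero]
    · intro h
      exact absurd (Finset.mem_univ b) h
  have h1 : sg E A * sg E B = ∑ a, ∑ b, ∑ d, (A a b * B b d) • E a d := by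
    conv_lhs => rw [sg]
    rw [Finset.sum_mul]
    refine Finset.sum_congr rfl fun a _ => ?_
    rw [Finset.sum_mul]
    exact Finset.sum_congr rfl fun b _ => key a b
  rw [h1]
  unfold sg
  refine Finset.sum_congr rfl fun a _ => ?_
  rw [Finset.sum_comm]
  refine Finset.sum_congr rfl fun d _ => ?_
  rw [Matrix.mul_apply, Finset.sum_smul]

theorem sg_star (hs : ∀ a b, star (E a b) = E b a) (A : Mt n) :
    sg E (star A) = star (sg E A) := by
  unfold sg
  rw [star_sum, Finset.sum_comm]
  refine Finset.sum_congr rfl fun a _ => ?_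
  rw [star_sum]
  refine Finset.sum_congr rfl fun b _ => ?_
  rw [star_smul, hs, Matrix.star_apply]

theorem sg_single (A : Mt n) (i j : Fin (n + 1)) (hA : ∀ a b, A a b = if a = i ∧ b = j then 1 else 0) :
    sg E A = E i j := by
  unfold sg
  rw [Finset.sum_eq_single i]
  · rw [Finset.sum_eq_single j]
    · rw [hA, if_pos ⟨rfl, rfl⟩, one_smul]
    · intro b _ hb
      rw [hA, if_neg (fun h => hb h.2), zero_smul]
    · intro h
      exact absurd (Finset.mem_univ j) h
  · intro a _ ha
    refine Finset.sum_eq_zero fun b _ => ?_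
    rw [hA, if_neg (fun h => ha h.1), zero_smul]
  · intro h
    exact absurd (Finset.mem_univ i) h

theorem sg_mem (A : Mt n) :
    sg E A ∈ Submodule.span ℂ (Set.range fun p : Fin (n + 1) × Fin (n + 1) => E p.1 p.2) := by
  unfold sg
  refine Submodule.sum_mem _ fun a _ => Submodule.sum_mem _ fun b _ => ?_
  exact Submodule.smul_mem _ _ (Submodule.subset_span ⟨(a, b), rfl⟩)

end Rep

/-- A unitary matrix whose first column is the flat vector. -/
theorem exists_unitary (n : ℕ) : ∃ W : Mt n, Wᴴ * W = 1 ∧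
    ∀ a b, (Wᴴ * jM n * W) a b = if a = 0 ∧ b = 0 then 1 else 0 := by
  classical
  set r : ℝ := (Real.sqrt ((n : ℝ) + 1))⁻¹ with hr
  have hn : (0 : ℝ) < (n : ℝ) + 1 := by positivity
  have hrr : r * r = ((n : ℝ) + 1)⁻¹ := by
    rw [hr, ← mul_inv, Real.mul_self_sqrt hn.le]
  set ω : EuclideanSpace ℂ (Fin (n + 1)) := WithLp.toLp 2 (fun _ => (r : ℂ)) with hω
  have hωa : ∀ a, ω a = (r : ℂ) := fun a => rfl
  have hω1 : ‖ω‖ = 1 := by
    have h2 : ‖ω‖ ^ 2 = 1 := by
      rw [EuclideanSpace.norm_sq_eq]
      simp only [hωa, Complex.norm_real, Real.norm_eq_abs, sq_abs, Finset.sum_const,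
        Finset.card_univ, Fintype.card_fin, nsmul_eq_mul]
      rw [pow_two, hrr]
      push_cast
      exact mul_inv_cancel₀ hn.ne'
    have h3 : ‖ω‖ ^ 2 = 1 ^ 2 := by rw [h2, one_pow]
    exact (pow_left_inj₀ (norm_nonneg _) zero_le_one two_ne_zero).1 h3
  have hcard : Module.finrank ℂ (EuclideanSpace ℂ (Fin (n + 1))) = Fintype.card (Fin (n + 1)) :=
    finrank_euclideanSpace
  have hon : Orthonormal ℂ (({0} : Set (Fin (n + 1))).domRestrict fun _ => ω) := by
    constructor
    · intro i
      exact hω1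
    · intro i j hij
      exact absurd (Subsingleton.elim i j) hij
  obtain ⟨b, hb⟩ := hon.exists_orthonormalBasis_extension_of_card_eq hcard
  have hb0 : b 0 = ω := hb 0 rfl
  obtain ⟨W, hW⟩ : ∃ W : Mt n, ∀ p a, W p a = b a p := ⟨Matrix.of fun p a => b a p, fun _ _ => rfl⟩
  refine ⟨W, ?_, ?_⟩
  · ext a c
    rw [Matrix.mul_apply]
    have h1 : (inner ℂ (b a) (b c) : ℂ) = ∑ p, Wᴴ a p * W p c := by
      rw [PiLp.inner_apply]
      refine Finset.sum_congr rfl fun p _ => ?_
      rw [Matrix.conjTranspose_apply, RCLike.inner_apply, hW, hW]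
      rw [mul_comm]
      rfl
    rw [← h1, orthonormal_iff_ite.1 b.orthonormal a c, Matrix.one_apply]
  · intro a c
    have h2 : ∀ a c, (Wᴴ * jM n * W) a c = (inner ℂ (b a) ω : ℂ) * (inner ℂ ω (b c) : ℂ) := by
      intro a c
      rw [Matrix.mul_assoc, Matrix.mul_apply]
      have e1 : (inner ℂ (b a) ω : ℂ) = (∑ p, star (b a p)) * (r : ℂ) := by
        rw [PiLp.inner_apply, Finset.sum_mul]
        refine Finset.sum_congr rfl fun p _ => ?_
        rw [RCLike.inner_apply, hωa, mul_comm]
        rfl
      have e2 : (inner ℂ ω (b c) : ℂ) = (r : ℂ) * ∑ p, b c p := by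
        rw [PiLp.inner_apply, Finset.mul_sum]
        refine Finset.sum_congr rfl fun p _ => ?_
        rw [RCLike.inner_apply, hωa, mul_comm]
        congr 1
        exact Complex.conj_ofReal r
      have e3 : ∀ p, (jM n * W) p c = (r : ℂ) * ((r : ℂ) * ∑ p, b c p) := by
        intro p
        rw [Matrix.mul_apply, ← mul_assoc, Finset.mul_sum]
        refine Finset.sum_congr rfl fun q _ => ?_
        have : (r : ℂ) * (r : ℂ) = ((n : ℂ) + 1)⁻¹ := by
          rw [← Complex.ofReal_mul, hrr]
          push_cast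
          rfl
        rw [this, hW]
        rfl
      rw [e1, e2]
      have e4 : ∀ p, Wᴴ a p * (jM n * W) p c = star (b a p) * ((r : ℂ) * ((r : ℂ) * ∑ p, b c p)) := by
        intro p
        rw [e3, Matrix.conjTranspose_apply, hW]
      rw [Finset.sum_congr rfl fun p _ => e4 p, ← Finset.sum_mul]
      ring
    rw [h2, ← hb0, orthonormal_iff_ite.1 b.orthonormal a 0, orthonormal_iff_ite.1 b.orthonormal 0 c]
    by_cases ha : a = 0
    · by_cases hc : c = 0
      · subst ha hc
        simp
      · subst ha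
        simp [hc, Ne.symm hc]
    · simp [ha]

end MODM

theorem t_MODM : Stmt_MODM := by
  intro n H _ _ _ E hE hs h1
  obtain ⟨W, hW, hj⟩ := MODM.exists_unitary n
  have hW' : W * Wᴴ = 1 := mul_eq_one_comm.1 hW
  let ρ : Mt n →⋆ₐ[ℂ] (H →L[ℂ] H) :=
    { toFun := fun A => MODM.sg E (Wᴴ * A * W)
      map_one' := by
        change MODM.sg E (Wᴴ * 1 * W) = 1
        rw [Matrix.mul_one, hW, MODM.sg_one E h1]
      map_mul' := by
        intro A B
        change MODM.sg E (Wᴴ * (A * B) * W) = MODM.sg E (Wᴴ * A * W) * MODM.sg E (Wᴴ * B * W)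
        rw [← MODM.sg_mul E hE]
        congr 1
        calc Wᴴ * (A * B) * W = Wᴴ * A * 1 * B * W := by simp only [Matrix.mul_one, Matrix.mul_assoc]
          _ = Wᴴ * A * (W * Wᴴ) * B * W := by rw [hW']
          _ = Wᴴ * A * W * (Wᴴ * B * W) := by simp only [Matrix.mul_assoc]
      map_zero' := by
        change MODM.sg E (Wᴴ * 0 * W) = 0
        rw [Matrix.mul_zero, Matrix.zero_mul]
        have := MODM.sg_smul E 0 (0 : Mt n)
        rwa [zero_smul, zero_smul] at this
      map_add' := by
        intro A B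
        change MODM.sg E (Wᴴ * (A + B) * W) = MODM.sg E (Wᴴ * A * W) + MODM.sg E (Wᴴ * B * W)
        rw [Matrix.mul_add, Matrix.add_mul, MODM.sg_add]
      commutes' := by
        intro c
        rw [Algebra.algebraMap_eq_smul_one, Algebra.algebraMap_eq_smul_one, Matrix.mul_smul,
          Matrix.smul_mul, MODM.sg_smul, Matrix.mul_one, hW, MODM.sg_one E h1]
      map_star' := by
        intro A
        rw [← MODM.sg_star E hs]
        congr 1
        rw [Matrix.star_eq_conjTranspose, Matrix.star_eq_conjTranspose, Matrix.conjTranspose_mul,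
          Matrix.conjTranspose_mul, Matrix.conjTranspose_conjTranspose, Matrix.mul_assoc] }
  refine ⟨ρ, ?_, ?_⟩
  · change MODM.sg E (Wᴴ * jM n * W) = E 0 0
    exact MODM.sg_single E _ 0 0 hj
  · intro A
    exact MODM.sg_mem E _

end Pool.Agent.HSP
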