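import Pool.Agent.HSP.Stmts

/-!
# MODU: `PEquiv`s of an index set act on `ℓ²`
-/

set_option autoImplicit false

open Filter Topology
open scoped ComplexOrder

noncomputable section

namespace Pool.Agent.HSP

namespace MODU

variable {I : Type}

/-- `ℓ²` on the index set -/
abbrev L2 (I : Type) : Type := lp (fun _ : I => ℂ) 2

/-- composition with a `PEquiv` -/
def uf (σ : I ≃. I) (x : I → ℂ) : I → ℂ := fun c => (σ c).elim 0 (fun c' => x c')

/-- the domain -/
def dom (σ : I ≃. I) : Set I := {c | (σ c).isSome = true}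

/-- the map on the domain -/
def jm (σ : I ≃. I) (c : dom σ) : I := (σ c.1).get c.2

lemma jm_spec (σ : I ≃. I) (c : dom σ) : σ c.1 = some (jm σ c) := by
  unfold jm; simp

lemma jm_inj (σ : I ≃. I) : Function.Injective (jm σ) := by
  intro a b h
  apply Subtype.ext
  have ha := jm_spec σ a
  have hb := jm_spec σ b
  rw [h] at ha
  exact σ.inj (b := jm σ b) (by rw [ha]; rfl) (by rw [hb]; rfl)

lemma uf_dom (σ : I ≃. I) (x : I → ℂ) (c : dom σ) : uf σ x c.1 = x (jm σ c) := by
  unfold uf; rw [jm_spec]; rfl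

lemma uf_not (σ : I ≃. I) (x : I → ℂ) (c : I) (h : c ∉ dom σ) : uf σ x c = 0 := by
  have : σ c = none := by
    cases hc : σ c with
    | none => rfl
    | some v => exact absurd (show (σ c).isSome = true by rw [hc]; rfl) h
  unfold uf; rw [this]; rfl

lemma summ (x : L2 I) : Summable fun c => ‖(x : I → ℂ) c‖ ^ 2 := by
  have h := (lp.memℓp x).summable (p := 2) (by norm_num)
  simpa using h

lemma ind (σ : I ≃. I) (x : I → ℂ) :
    (fun c => ‖uf σ x c‖ ^ 2) = (dom σ).indicator (fun c => ‖uf σ x c‖ ^ 2) := by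
  funext c
  by_cases h : c ∈ dom σ
  · rw [Set.indicator_of_mem h]
  · rw [Set.indicator_of_notMem h, uf_not σ x c h]; simp

lemma uf_summ (σ : I ≃. I) (x : L2 I) : Summable fun c => ‖uf σ x c‖ ^ 2 := by
  rw [ind, ← summable_subtype_iff_indicator]
  have : ((fun c => ‖uf σ x c‖ ^ 2) ∘ (Subtype.val : dom σ → I)) =
      (fun c => ‖(x : I → ℂ) c‖ ^ 2) ∘ jm σ := by
    funext c; simp only [Function.comp]; rw [uf_dom]
  rw [this]
  exact (summ x).comp_injective (jm_inj σ)

lemma uf_tsum (σ : I ≃. I) (x : L2 I) :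
    ∑' c, ‖uf σ x c‖ ^ 2 ≤ ∑' c, ‖(x : I → ℂ) c‖ ^ 2 := by
  have h1 : ∑' c, ‖uf σ x c‖ ^ 2 = ∑' c : dom σ, ‖uf σ x c.1‖ ^ 2 := by
    symm
    apply tsum_subtype_eq_of_support_subset (f := fun c => ‖uf σ x c‖ ^ 2)
    intro c hc
    by_contra h
    apply hc
    show ‖uf σ x c‖ ^ 2 = 0
    rw [uf_not σ x c h]; simp
  rw [h1]
  have h2 : ∑' c : dom σ, ‖uf σ x c.1‖ ^ 2 = ∑' c : dom σ, ‖(x : I → ℂ) (jm σ c)‖ ^ 2 :=
    tsum_congr fun c => by rw [uf_dom]
  rw [h2]
  exact tsum_comp_le_tsum_of_inj (f := fun c => ‖(x : I → ℂ) c‖ ^ 2) (summ x)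
    (fun a => by positivity) (jm_inj σ)

lemma uf_mem (σ : I ≃. I) (x : L2 I) : Memℓp (uf σ x) 2 := by
  apply memℓp_gen
  simpa using uf_summ σ x

lemma norm_sq (x : L2 I) : ‖x‖ ^ 2 = ∑' c, ‖(x : I → ℂ) c‖ ^ 2 := by
  have h := lp.norm_rpow_eq_tsum (p := 2) (by norm_num) x
  simpa using h

/-- the operator -/
def ul (σ : I ≃. I) : L2 I →ₗ[ℂ] L2 I where
  toFun x := ⟨uf σ x, uf_mem σ x⟩
  map_add' x y := by
    ext c
    show uf σ (x + y : L2 I) c = uf σ x c + uf σ y c
    unfold uf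
    cases σ c with
    | none => simp
    | some v => simp
  map_smul' a x := by
    ext c
    show uf σ (a • x : L2 I) c = a • uf σ x c
    unfold uf
    cases σ c with
    | none => simp
    | some v => simp

lemma ul_norm (σ : I ≃. I) (x : L2 I) : ‖ul σ x‖ ≤ 1 * ‖x‖ := by
  rw [one_mul]
  apply le_of_sq_le_sq _ (norm_nonneg _)
  rw [norm_sq, norm_sq]
  exact uf_tsum σ x

/-- the continuous operator -/
def U (σ : I ≃. I) : L2 I →L[ℂ] L2 I := (ul σ).mkContinuous 1 (ul_norm σ)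

lemma U_apply (σ : I ≃. I) (x : L2 I) (c : I) : (U σ x : I → ℂ) c = uf σ x c := rfl

lemma inner_eq (σ : I ≃. I) (x y : L2 I) :
    (inner ℂ (U σ.symm x) y : ℂ) = inner ℂ x (U σ y) := by
  rw [lp.inner_eq_tsum, lp.inner_eq_tsum]
  have h1 : ∑' c, (inner ℂ ((U σ.symm x : I → ℂ) c) ((y : I → ℂ) c) : ℂ) =
      ∑' c : dom σ.symm, (inner ℂ ((x : I → ℂ) (jm σ.symm c)) ((y : I → ℂ) c.1) : ℂ) := by
    rw [← tsum_subtype_eq_of_support_subset (s := dom σ.symm)]
    · apply tsum_congr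
      intro c
      rw [U_apply, uf_dom]
    · intro c hc
      by_contra h
      apply hc
      show (inner ℂ ((U σ.symm x : I → ℂ) c) ((y : I → ℂ) c) : ℂ) = 0
      rw [U_apply, uf_not _ _ _ h, inner_zero_left]
  have h2 : ∑' c, (inner ℂ ((x : I → ℂ) c) ((U σ y : I → ℂ) c) : ℂ) =
      ∑' c : dom σ, (inner ℂ ((x : I → ℂ) c.1) ((y : I → ℂ) (jm σ c)) : ℂ) := by
    rw [← tsum_subtype_eq_of_support_subset (s := dom σ)]
    · apply tsum_congr
      intro c
      rw [U_apply, uf_dom]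
    · intro c hc
      by_contra h
      apply hc
      show (inner ℂ ((x : I → ℂ) c) ((U σ y : I → ℂ) c) : ℂ) = 0
      rw [U_apply, uf_not _ _ _ h, inner_zero_right]
  rw [h1, h2]
  have hs : ∀ c : dom σ, σ.symm (jm σ c) = some c.1 := fun c =>
    (PEquiv.eq_some_iff σ).2 (jm_spec σ c)
  have hs' : ∀ c : dom σ.symm, σ (jm σ.symm c) = some c.1 := fun c =>
    (PEquiv.eq_some_iff σ).1 (jm_spec σ.symm c)
  let e : dom σ ≃ dom σ.symm :=
    { toFun := fun c => ⟨jm σ c, by show (σ.symm (jm σ c)).isSome = true; rw [hs]; rfl⟩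
      invFun := fun c => ⟨jm σ.symm c, by show (σ (jm σ.symm c)).isSome = true; rw [hs']; rfl⟩
      left_inv := by
        intro c
        apply Subtype.ext
        have h := jm_spec σ.symm ⟨jm σ c, by show (σ.symm (jm σ c)).isSome = true; rw [hs]; rfl⟩
        exact (Option.some.inj ((hs c).symm.trans h)).symm
      right_inv := by
        intro c
        apply Subtype.ext
        have h := jm_spec σ ⟨jm σ.symm c, by
          show (σ (jm σ.symm c)).isSome = true; rw [hs']; rfl⟩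
        exact (Option.some.inj ((hs' c).symm.trans h)).symm }
  rw [← e.tsum_eq]
  apply tsum_congr
  intro c
  have h3 : jm σ.symm (e c) = c.1 := by
    have h := jm_spec σ.symm (e c)
    have h' : σ.symm (e c).1 = some c.1 := hs c
    rw [h'] at h
    exact (Option.some.inj h).symm
  rw [h3]
  rfl

end MODU

open MODU

theorem t_MODU : Stmt_MODU := by
  intro I
  refine ⟨U, fun σ x c => rfl, ?_, ?_, ?_⟩
  · intro σ τ
    ext x c
    show uf σ (U τ x) c = uf (σ.trans τ) x c
    unfold uf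
    have h : (σ.trans τ) c = (σ c).bind τ := rfl
    rw [h]
    cases σ c with
    | none => rfl
    | some v => rfl
  · intro σ
    rw [ContinuousLinearMap.star_eq_adjoint]
    symm
    rw [ContinuousLinearMap.eq_adjoint_iff]
    exact inner_eq σ
  · intro σ
    exact LinearMap.mkContinuous_norm_le _ zero_le_one _

end Pool.Agent.HSP
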