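import Pool.Agent.HSP.Stmts

/-!
# NRM: norms of the images of matrices
-/

set_option autoImplicit false

open Filter Topology
open scoped ComplexOrder

noncomputable section

namespace Pool.Agent.HSP

namespace NRM

variable {H : Type} [NormedAddCommGroup H] [InnerProductSpace ℂ H] [CompleteSpace H]

theorem norm_le_one_of_idem {X : H →L[ℂ] H} (h1 : IsSelfAdjoint X) (h2 : X * X = X) :
    ‖X‖ ≤ 1 := by
  have h3 : ‖star X * X‖ = ‖X‖ * ‖X‖ := CStarRing.norm_star_mul_self
  rw [h1.star_eq, h2] at h3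
  by_contra hc
  have hlt : 1 < ‖X‖ := not_le.mp hc
  have h4 : ‖X‖ * 1 < ‖X‖ * ‖X‖ := mul_lt_mul_of_pos_left hlt (by linarith)
  rw [mul_one] at h4
  exact absurd h3 (ne_of_lt h4)

theorem jM_mul_jM (D : ℕ) : jM D * jM D = jM D := by
  ext a b
  have hD : ((D : ℂ) + 1) ≠ 0 := by exact_mod_cast Nat.succ_ne_zero D
  simp only [Matrix.mul_apply, jM, Finset.sum_const, Finset.card_univ, Fintype.card_fin,
    nsmul_eq_mul]
  push_cast
  rw [← mul_assoc, mul_inv_cancel₀ hD, one_mul]

/-- the projection `t* t` -/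
def qM (D : ℕ) : Mt D := Matrix.diagonal fun a => if (a : ℕ) < D then 1 else 0

theorem qM_star (D : ℕ) : star (qM D) = qM D := by
  rw [qM, Matrix.star_eq_conjTranspose, Matrix.diagonal_conjTranspose]
  congr 1
  funext a
  by_cases h : (a : ℕ) < D
  · simp [h]
  · simp [h]

theorem qM_mul (D : ℕ) : qM D * qM D = qM D := by
  rw [qM, Matrix.diagonal_mul_diagonal]
  congr 1
  funext a
  by_cases h : (a : ℕ) < D
  · simp [h]
  · simp [h]

theorem star_tM_mul (D : ℕ) : star (tM D) * tM D = qM D := by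
  ext a b
  rw [Matrix.mul_apply, qM]
  by_cases h : (a : ℕ) < D
  · rw [Finset.sum_eq_single (⟨(a : ℕ) + 1, by omega⟩ : Fin (D + 1))]
    · rw [Matrix.star_apply]
      by_cases hab : a = b
      · subst hab
        simp [tM, h]
      · have hab' : (a : ℕ) ≠ (b : ℕ) := fun e => hab (Fin.ext e)
        simp [tM, hab, hab']
    · intro c _ hc
      have hc' : (c : ℕ) ≠ (a : ℕ) + 1 := fun e => hc (Fin.ext e)
      rw [Matrix.star_apply]
      simp [tM, hc']
    · intro h'
      exact absurd (Finset.mem_univ _) h'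
  · have hz : ∀ c : Fin (D + 1), star (tM D) a c * tM D c b = 0 := by
      intro c
      have hc' : (c : ℕ) ≠ (a : ℕ) + 1 := by
        have := c.isLt
        omega
      rw [Matrix.star_apply]
      simp [tM, hc']
    rw [Finset.sum_eq_zero fun c _ => hz c]
    by_cases hab : a = b
    · subst hab
      simp [h]
    · simp [hab]

variable {D : ℕ → ℕ} {η : ℕ → ℝ}

theorem norm_tM (s : Sys D η H) (i : ℕ) : ‖s.π i (tM (D i))‖ ≤ 1 := by
  have h1 : ‖star (s.π i (tM (D i))) * s.π i (tM (D i))‖ =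
      ‖s.π i (tM (D i))‖ * ‖s.π i (tM (D i))‖ := CStarRing.norm_star_mul_self
  rw [← map_star, ← map_mul, star_tM_mul] at h1
  have h2 : ‖s.π i (qM (D i))‖ ≤ 1 := by
    apply norm_le_one_of_idem
    · change star _ = _
      rw [← map_star, qM_star]
    · rw [← map_mul, qM_mul]
  rw [h1] at h2
  by_contra hc
  have hlt : 1 < ‖s.π i (tM (D i))‖ := not_le.mp hc
  nlinarith

theorem norm_tM_pow (s : Sys D η H) (i k : ℕ) : ‖s.π i (tM (D i) ^ k)‖ ≤ 1 := by
  induction k with
  | zero =>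
    rw [pow_zero, map_one]
    exact ContinuousLinearMap.norm_id_le
  | succ k ih =>
    rw [pow_succ, map_mul]
    calc ‖s.π i (tM (D i) ^ k) * s.π i (tM (D i))‖
        ≤ ‖s.π i (tM (D i) ^ k)‖ * ‖s.π i (tM (D i))‖ := norm_mul_le _ _
      _ ≤ 1 * 1 := mul_le_mul ih (norm_tM s i) (norm_nonneg _) zero_le_one
      _ = 1 := one_mul 1

theorem norm_of_fro (hFRO : Stmt_FRO) (s : Sys D η H) (i : ℕ) (A : Mt (D i)) (c : ℝ)
    (hc : 0 ≤ c) (h : ∑ a, ∑ b, ‖A a b‖ ^ 2 ≤ c ^ 2) : ‖s.π i A‖ ≤ c := by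
  have h1 := hFRO (Fin (D i + 1)) H (fun a b => s.π i (Matrix.single a b (1 : ℂ)))
    (by
      intro a b c d
      by_cases hbc : b = c
      · subst hbc
        simp only [if_true]
        rw [← map_mul, Matrix.single_mul_single_same, mul_one]
      · simp only [if_neg hbc]
        rw [← map_mul, Matrix.single_mul_single_of_ne (h := hbc), map_zero])
    (by
      intro a b
      rw [← map_star, Matrix.star_eq_conjTranspose, Matrix.conjTranspose_single, star_one])
    A c hc h
  have h2 : s.π i A = ∑ a, ∑ b, A a b • s.π i (Matrix.single a b (1 : ℂ)) := by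
    conv_lhs => rw [Matrix.matrix_eq_sum_single A]
    rw [map_sum]
    refine Finset.sum_congr rfl fun a _ => ?_
    rw [map_sum]
    refine Finset.sum_congr rfl fun b _ => ?_
    rw [← map_smul, Matrix.smul_single, smul_eq_mul, mul_one]
  rw [h2]
  exact h1

theorem norm_P (s : Sys D η H) (n : ℕ) : ‖s.P n‖ ≤ 1 :=
  norm_le_one_of_idem (s.P_star n) (s.P_idem n)

theorem P_succ_mul (s : Sys D η H) (n : ℕ) : s.P (n + 1) * s.P n = s.P n := by
  conv_lhs => rw [s.P_step n]
  rw [← mul_assoc, s.P_idem (n + 1), ← s.P_step n]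

theorem P_mul_right (s : Sys D η H) {n N : ℕ} (h : n ≤ N) : s.P N * s.P n = s.P n := by
  induction N, h using Nat.le_induction with
  | base => exact s.P_idem n
  | succ N _ ih =>
    calc s.P (N + 1) * s.P n = s.P (N + 1) * (s.P N * s.P n) := by rw [ih]
      _ = (s.P (N + 1) * s.P N) * s.P n := (mul_assoc _ _ _).symm
      _ = s.P N * s.P n := by rw [P_succ_mul]
      _ = s.P n := ih

theorem P_mul_left (s : Sys D η H) {n N : ℕ} (h : n ≤ N) : s.P n * s.P N = s.P n := by
  have h1 := congrArg star (P_mul_right s h)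
  rw [star_mul, (s.P_star n).star_eq, (s.P_star N).star_eq] at h1
  exact h1

theorem j_mul_P_self (s : Sys D η H) (n : ℕ) : s.π n (jM (D n)) * s.P n = s.P n := by
  have h1 : s.P n = s.π n (jM (D n)) * s.P (n + 1) := by
    rw [s.P_step n]
    exact (s.P_comm (n + 1) n (Nat.lt_succ_self n) (jM (D n))).eq
  calc s.π n (jM (D n)) * s.P n = s.π n (jM (D n)) * (s.π n (jM (D n)) * s.P (n + 1)) := by
        rw [← h1]
    _ = s.π n (jM (D n) * jM (D n)) * s.P (n + 1) := by rw [← mul_assoc, ← map_mul]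
    _ = s.P n := by rw [jM_mul_jM, ← h1]

theorem j_mul_P (s : Sys D η H) {n i : ℕ} (h : n ≤ i) : s.π i (jM (D i)) * s.P n = s.P n := by
  calc s.π i (jM (D i)) * s.P n = s.π i (jM (D i)) * (s.P i * s.P n) := by
        rw [P_mul_right s h]
    _ = (s.π i (jM (D i)) * s.P i) * s.P n := (mul_assoc _ _ _).symm
    _ = s.P i * s.P n := by rw [j_mul_P_self]
    _ = s.P n := P_mul_right s h

theorem P_descend (s : Sys D η H) (N : ℕ) (x : H) (hx : s.P N x = x) : ∀ k n : ℕ, n + k = N →
    (∀ i, n ≤ i → i < N → s.π i (jM (D i)) x = x) → s.P n x = x := by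
  intro k
  induction k with
  | zero =>
    intro n hn _
    rw [show n = N by omega]
    exact hx
  | succ k ih =>
    intro n hn hi
    have h1 := ih (n + 1) (by omega) fun i h1 h2 => hi i (by omega) h2
    have h2 := hi n le_rfl (by omega)
    rw [s.P_step n]
    change s.P (n + 1) (s.π n (jM (D n)) x) = x
    rw [h2, h1]

theorem norm_dM (hFRO : Stmt_FRO) (s : Sys D η H) (i : ℕ) :
    ‖s.π i (dM (D i))‖ ≤ ((D i : ℝ) + 1) ^ 2 := by
  apply norm_of_fro hFRO s i _ _ (by positivity)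
  have h1 : ∀ a b : Fin (D i + 1), ‖dM (D i) a b‖ ^ 2 ≤ ((D i : ℝ) + 1) ^ 2 := by
    intro a b
    apply pow_le_pow_left₀ (norm_nonneg _)
    rw [dM]
    by_cases h : (b : ℕ) = (a : ℕ) + 1
    · rw [if_pos h, Complex.norm_natCast]
      have hb : ((b : ℕ) : ℝ) ≤ (D i : ℝ) := by exact_mod_cast Nat.lt_succ_iff.mp b.isLt
      linarith
    · rw [if_neg h, norm_zero]
      positivity
  calc ∑ a, ∑ b, ‖dM (D i) a b‖ ^ 2 ≤ ∑ _a : Fin (D i + 1), ∑ _b : Fin (D i + 1),
        ((D i : ℝ) + 1) ^ 2 := Finset.sum_le_sum fun a _ => Finset.sum_le_sum fun b _ => h1 a b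
    _ = (((D i : ℝ) + 1) ^ 2) ^ 2 := by
        simp only [Finset.sum_const, Finset.card_univ, Fintype.card_fin, nsmul_eq_mul]
        push_cast
        ring

end NRM

theorem t_NRM (hFRO : Stmt_FRO) : Stmt_NRM := by
  intro D η H _ _ _ s i
  exact ⟨fun A c hc h => NRM.norm_of_fro hFRO s i A c hc h, NRM.norm_tM s i, NRM.norm_tM_pow s i,
    NRM.norm_dM hFRO s i, NRM.norm_P s,
    fun n N h => ⟨NRM.P_mul_left s h, NRM.P_mul_right s h⟩,
    fun n i h => NRM.j_mul_P s h,
    fun n N x h hx hi => NRM.P_descend s N x hx (N - n) n (by omega) hi⟩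

end Pool.Agent.HSP
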