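import Pool.Agent.HSP.Stmts

/-!
# Module PAR: existence of the parameters
-/

set_option autoImplicit false

open Filter Topology

noncomputable section

namespace Pool.Agent.HSP

namespace PAR

/-- the state after stage `m`: `f_m`, `c_{m+1}`, `η_m`, `B_m`, `q_m` -/
structure St : Type where
  f : ℕ
  c : ℕ
  e : ℝ
  B : ℝ
  q : ℕ

/-- properties of a state -/
structure Ok (G : ℕ → ℝ → ℕ → Prop) (S : St) : Prop where
  f1 : 1 ≤ S.f
  e0 : 0 < S.e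
  B0 : 0 < S.B
  bot : 32 * (1024 * (S.f : ℝ) + 1) ^ 2 * Real.exp (-(64 * (S.f : ℝ))) ≤
    Real.exp (-(32 * (S.f : ℝ)))
  good : G S.q S.e S.f

/-- the error of the step -/
def Er (S S' : St) : ℝ := Real.exp (2 * (((4096 * S.f : ℕ) : ℝ) + 1) ^ 2 * S'.e / S.e) - 1

/-- the relation between consecutive states -/
structure Rel (m : ℕ) (S S' : St) : Prop where
  q : S'.q = S.q + 4096 * S.f
  bot : 8 * (1024 * (S.f : ℝ) + 1) ^ 2 * S'.B ≤ Real.exp (-(32 * (S.f : ℝ)))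
  bud1 : 6 * (((2 ^ (2 * (m + 1) + 4) * S.c : ℕ) : ℝ) + 1) ^ 2 * S'.B ≤ S.B
  ele : S'.e ≤ (1 / 2) ^ (m + 1)
  ee1 : Er S S' ≤ 1
  ee2 : 32 * (1024 * (S.f : ℝ) + 1) ^ 2 * Er S S' ≤ Real.exp (-(32 * (S.f : ℝ)))
  ee3 : 12 * (((2 ^ (2 * (m + 1) + 4) * S.c : ℕ) : ℝ) + 1) ^ 2 * Er S S' ≤ S.B
  cpos : 1 ≤ S'.c
  bud2 : 12 * (((2 ^ (2 * (m + 2) + 4) * S'.c : ℕ) : ℝ) + 1) ^ 2 * Real.exp (-(S'.c : ℝ)) ≤ S'.B
  fmono : S.f ≤ S'.f
  noise : 2 * (2 ^ (2 * (m + 2) + 4) * S'.c) * 4 ^ (m + 16) ≤ 4096 * S'.f + 1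
  ddle : 2 ^ (2 * (m + 1) + 4) * S.c ≤ 4096 * S'.f

/-- polynomial times exponential decay -/
lemma ev_small (K : ℝ) (δ : ℝ) (hδ : 0 < δ) :
    ∀ᶠ n : ℕ in atTop, K * ((n : ℝ) ^ 2 * Real.exp (-(n : ℝ))) ≤ δ := by
  have h := (Real.tendsto_pow_mul_exp_neg_atTop_nhds_zero 2).comp
    (tendsto_natCast_atTop_atTop (R := ℝ))
  have h2 := h.const_mul K
  rw [mul_zero] at h2
  exact (h2.eventually_le_const hδ)

/-- the choice of `B` -/
lemma exB (a b x y : ℝ) (ha : 0 < a) (hb : 0 < b) (hx : 0 < x) (hy : 0 < y) :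
    ∃ B : ℝ, 0 < B ∧ a * B ≤ x ∧ b * B ≤ y := by
  refine ⟨min (x / a) (y / b), lt_min (div_pos hx ha) (div_pos hy hb), ?_, ?_⟩
  · calc a * min (x / a) (y / b) ≤ a * (x / a) :=
          mul_le_mul_of_nonneg_left (min_le_left _ _) ha.le
      _ = x := by field_simp
  · calc b * min (x / a) (y / b) ≤ b * (y / b) :=
          mul_le_mul_of_nonneg_left (min_le_right _ _) hb.le
      _ = y := by field_simp

/-- the choice of `η` -/
lemma exE (K w δ : ℝ) (hK : 0 < K) (hw : 0 < w) (hδ : 0 < δ) :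
    ∃ e : ℝ, 0 < e ∧ e ≤ w ∧ Real.exp (K * e) - 1 ≤ δ := by
  have hl : 0 < Real.log (1 + δ) := Real.log_pos (by linarith)
  refine ⟨min w (Real.log (1 + δ) / K), lt_min hw (div_pos hl hK), min_le_left _ _, ?_⟩
  have h1 : K * min w (Real.log (1 + δ) / K) ≤ Real.log (1 + δ) := by
    calc K * min w (Real.log (1 + δ) / K) ≤ K * (Real.log (1 + δ) / K) :=
          mul_le_mul_of_nonneg_left (min_le_right _ _) hK.le
      _ = Real.log (1 + δ) := by field_simp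
  have h2 := Real.exp_le_exp.2 h1
  rw [Real.exp_log (by linarith)] at h2
  linarith

/-- the choice of `c` -/
lemma exC (a : ℕ) (B : ℝ) (hB : 0 < B) :
    ∃ c : ℕ, 1 ≤ c ∧ 12 * (((a * c : ℕ) : ℝ) + 1) ^ 2 * Real.exp (-(c : ℝ)) ≤ B := by
  have h := ev_small (12 * ((a : ℝ) + 1) ^ 2) B hB
  obtain ⟨c, hc, hc1⟩ := (h.and (eventually_ge_atTop 1)).exists
  refine ⟨c, hc1, ?_⟩
  have hc1' : (1 : ℝ) ≤ c := by exact_mod_cast hc1
  have ha : (0 : ℝ) ≤ a := Nat.cast_nonneg a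
  have h1 : ((a * c : ℕ) : ℝ) + 1 ≤ ((a : ℝ) + 1) * c := by
    push_cast
    linarith
  have h2 : (((a * c : ℕ) : ℝ) + 1) ^ 2 ≤ (((a : ℝ) + 1) * c) ^ 2 :=
    pow_le_pow_left₀ (by positivity) h1 2
  calc 12 * (((a * c : ℕ) : ℝ) + 1) ^ 2 * Real.exp (-(c : ℝ))
      ≤ 12 * (((a : ℝ) + 1) * c) ^ 2 * Real.exp (-(c : ℝ)) := by gcongr
    _ = 12 * ((a : ℝ) + 1) ^ 2 * ((c : ℝ) ^ 2 * Real.exp (-(c : ℝ))) := by ring
    _ ≤ B := hc

/-- the bound for large `f` -/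
lemma ev_bot : ∀ᶠ f : ℕ in atTop,
    32 * (1024 * (f : ℝ) + 1) ^ 2 * Real.exp (-(64 * (f : ℝ))) ≤ Real.exp (-(32 * (f : ℝ))) := by
  filter_upwards [ev_small (32 * 1025 ^ 2) 1 one_pos, eventually_ge_atTop 1] with f hf hf1
  have hf1' : (1 : ℝ) ≤ f := by exact_mod_cast hf1
  have h1 : (1024 * (f : ℝ) + 1) ^ 2 ≤ (1025 * f) ^ 2 :=
    pow_le_pow_left₀ (by positivity) (by linarith) 2
  have h2 : Real.exp (-(32 * (f : ℝ))) ≤ Real.exp (-(f : ℝ)) :=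
    Real.exp_le_exp.2 (by linarith)
  have h3 : Real.exp (-(64 * (f : ℝ))) = Real.exp (-(32 * (f : ℝ))) * Real.exp (-(32 * (f : ℝ))) := by
    rw [← Real.exp_add]
    congr 1
    ring
  have h4 : 32 * (1024 * (f : ℝ) + 1) ^ 2 * Real.exp (-(32 * (f : ℝ))) ≤ 1 := by
    calc 32 * (1024 * (f : ℝ) + 1) ^ 2 * Real.exp (-(32 * (f : ℝ)))
        ≤ 32 * (1025 * f) ^ 2 * Real.exp (-(f : ℝ)) := by gcongr
      _ = 32 * 1025 ^ 2 * ((f : ℝ) ^ 2 * Real.exp (-(f : ℝ))) := by ring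
      _ ≤ 1 := hf
  calc 32 * (1024 * (f : ℝ) + 1) ^ 2 * Real.exp (-(64 * (f : ℝ)))
      = (32 * (1024 * (f : ℝ) + 1) ^ 2 * Real.exp (-(32 * (f : ℝ)))) *
          Real.exp (-(32 * (f : ℝ))) := by rw [h3]; ring
    _ ≤ 1 * Real.exp (-(32 * (f : ℝ))) :=
        mul_le_mul_of_nonneg_right h4 (Real.exp_pos _).le
    _ = _ := one_mul _

/-- the next state -/
lemma next (G : ℕ → ℝ → ℕ → Prop) (hG : ∀ (q : ℕ) (e : ℝ), 0 < e → ∀ᶠ f in atTop, G q e f)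
    (m : ℕ) (S : St) (hS : Ok G S) : ∃ S' : St, Ok G S' ∧ Rel m S S' := by
  have hf0 : (0 : ℝ) ≤ S.f := Nat.cast_nonneg _
  set dd : ℕ := 2 ^ (2 * (m + 1) + 4) * S.c with hdd
  have hdd0 : (0 : ℝ) ≤ (dd : ℝ) := Nat.cast_nonneg _
  have hex := Real.exp_pos (-(32 * (S.f : ℝ)))
  obtain ⟨B, hB, hB1, hB2⟩ := exB (8 * (1024 * (S.f : ℝ) + 1) ^ 2) (6 * ((dd : ℝ) + 1) ^ 2)
    (Real.exp (-(32 * (S.f : ℝ)))) S.B (by positivity) (by positivity) hex hS.B0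
  have hK : 0 < 2 * (((4096 * S.f : ℕ) : ℝ) + 1) ^ 2 / S.e := by
    have := hS.e0
    positivity
  obtain ⟨δ, hδ0, hδ1, hδ2⟩ := exB (32 * (1024 * (S.f : ℝ) + 1) ^ 2) (12 * ((dd : ℝ) + 1) ^ 2)
    (Real.exp (-(32 * (S.f : ℝ)))) S.B (by positivity) (by positivity) hex hS.B0
  obtain ⟨e, he, hew, hee⟩ := exE (2 * (((4096 * S.f : ℕ) : ℝ) + 1) ^ 2 / S.e)
    ((1 / 2) ^ (m + 1)) (min 1 δ) hK (by positivity) (lt_min one_pos hδ0)
  obtain ⟨c, hc1, hc⟩ := exC (2 ^ (2 * (m + 2) + 4)) B hB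
  obtain ⟨f, hfG, hfb, hf1⟩ := ((hG (S.q + 4096 * S.f) e he).and (ev_bot.and
    (eventually_ge_atTop (1 + S.f + dd + 2 * (2 ^ (2 * (m + 2) + 4) * c) * 4 ^ (m + 16))))).exists
  have hE : Er S ⟨f, c, e, B, S.q + 4096 * S.f⟩ ≤ min 1 δ := by
    unfold Er
    have : 2 * (((4096 * S.f : ℕ) : ℝ) + 1) ^ 2 * e / S.e =
        2 * (((4096 * S.f : ℕ) : ℝ) + 1) ^ 2 / S.e * e := by ring
    simp only [this]
    exact hee
  refine ⟨⟨f, c, e, B, S.q + 4096 * S.f⟩, ⟨?_, he, hB, hfb, hfG⟩, ?_⟩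
  · show 1 ≤ f
    omega
  refine ⟨rfl, hB1, hB2, hew, hE.trans (min_le_left _ _), ?_, ?_, hc1, hc, ?_, ?_, ?_⟩
  · refine le_trans ?_ hδ1
    exact mul_le_mul_of_nonneg_left (hE.trans (min_le_right _ _)) (by positivity)
  · refine le_trans ?_ hδ2
    exact mul_le_mul_of_nonneg_left (hE.trans (min_le_right _ _)) (by positivity)
  · show S.f ≤ f
    omega
  · show 2 * (2 ^ (2 * (m + 2) + 4) * c) * 4 ^ (m + 16) ≤ 4096 * f + 1
    omega
  · show dd ≤ 4096 * f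
    omega

/-- the initial state -/
lemma start (G : ℕ → ℝ → ℕ → Prop) (hG : ∀ (q : ℕ) (e : ℝ), 0 < e → ∀ᶠ f in atTop, G q e f) :
    ∃ S : St, Ok G S ∧ S.q = 1 ∧ S.e = 1 := by
  obtain ⟨f, h1, h2, h3⟩ := ((hG 1 1 one_pos).and (ev_bot.and (eventually_ge_atTop 1))).exists
  exact ⟨⟨f, 1, 1, 1, 1⟩, ⟨h3, one_pos, one_pos, h2, h1⟩, rfl, rfl⟩

/-- the sequence of states -/
lemma exSeq (G : ℕ → ℝ → ℕ → Prop) (hG : ∀ (q : ℕ) (e : ℝ), 0 < e → ∀ᶠ f in atTop, G q e f) :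
    ∃ S : ℕ → St, (S 0).q = 1 ∧ (S 0).e = 1 ∧ (∀ n, Ok G (S n)) ∧ ∀ n, Rel n (S n) (S (n + 1)) := by
  obtain ⟨S₀, h0, hq, he⟩ := start G hG
  choose F hF1 hF2 using next G hG
  let s : ℕ → {S : St // Ok G S} := fun n =>
    Nat.rec ⟨S₀, h0⟩ (fun m S => ⟨F m S.1 S.2, hF1 m S.1 S.2⟩) n
  refine ⟨fun n => (s n).1, hq, he, fun n => (s n).2, fun n => ?_⟩
  exact hF2 n (s n).1 (s n).2

end PAR

theorem t_PAR : Stmt_PAR := by
  intro G hG
  obtain ⟨S, hq, he, hok, hrel⟩ := PAR.exSeq G hG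
  let c : ℕ → ℕ := fun i => Nat.casesOn i 1 (fun m => (S m).c)
  have hc : ∀ m, c (m + 1) = (S m).c := fun m => rfl
  have hE : ∀ m, ee (fun i => 4096 * (S i).f) (fun i => (S i).e) m = PAR.Er (S m) (S (m + 1)) :=
    fun m => rfl
  refine ⟨fun i => (S i).f, c, fun i => 4096 * (S i).f, fun i => (S i).e, fun i => (S i).B, ?_, ?_⟩
  · refine
      { D_eq := fun i => rfl
        f_pos := fun i => (hok i).f1
        f_mono := fun i => (hrel i).fmono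
        c_pos := ?_
        dd_le := ?_
        η_pos := fun i => (hok i).e0
        η_le := ?_
        B_pos := fun m _ => (hok m).B0
        ee_le := ?_
        noise := ?_
        budget := ?_
        bot := fun l => (hrel l).bot
        bot2 := ?_ }
    · intro m hm
      obtain ⟨k, rfl⟩ : ∃ k, m = k + 1 := ⟨m - 1, by omega⟩
      rw [hc]
      exact (hrel k).cpos
    · intro m hm
      unfold dd
      rw [hc]
      exact (hrel m).ddle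
    · intro i
      cases i with
      | zero => rw [he]; norm_num
      | succ k => exact (hrel k).ele
    · intro m
      rw [hE]
      exact (hrel m).ee1
    · intro m hm
      obtain ⟨k, rfl⟩ : ∃ k, m = k + 1 := ⟨m - 1, by omega⟩
      unfold dd
      rw [hc]
      exact (hrel k).noise
    · intro m hm
      obtain ⟨k, rfl⟩ : ∃ k, m = k + 1 := ⟨m - 1, by omega⟩
      rw [hE]
      unfold dd
      rw [hc]
      have h1 := (hrel (k + 1)).bud1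
      have h2 := (hrel k).bud2
      have h3 := (hrel (k + 1)).ee3
      set d : ℝ := ((2 ^ (2 * (k + 1 + 1) + 4) * (S (k + 1)).c : ℕ) : ℝ) with hd
      have h2' : 12 * (d + 1) ^ 2 * Real.exp (-((S (k + 1)).c : ℝ)) ≤ (S (k + 1)).B := h2
      nlinarith
    · intro l
      rw [hE]
      have h1 := (hok l).bot
      have h2 := (hrel l).ee2
      have h3 : 16 * (1024 * ((S l).f : ℝ) + 1) ^ 2 *
          (Real.exp (-(64 * ((S l).f : ℝ))) + PAR.Er (S l) (S (l + 1))) =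
          1 / 2 * (32 * (1024 * ((S l).f : ℝ) + 1) ^ 2 * Real.exp (-(64 * ((S l).f : ℝ)))) +
          1 / 2 * (32 * (1024 * ((S l).f : ℝ) + 1) ^ 2 * PAR.Er (S l) (S (l + 1))) := by ring
      rw [h3]
      linarith
  · intro l
    have hql : ∀ l, (S l).q = 1 + ∑ i ∈ Finset.range l, 4096 * (S i).f := by
      intro l
      induction l with
      | zero => simp [hq]
      | succ n ih => rw [Finset.sum_range_succ, (hrel n).q, ih, add_assoc]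
    have := (hok l).good
    rw [hql l] at this
    exact this

end Pool.Agent.HSP
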