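import Pool.Agent.HSP.Stmts

/-!
# PIG: choice of a good window
-/

set_option autoImplicit false

noncomputable section

namespace Pool.Agent.HSP

namespace PIG

variable {D : ℕ → ℕ} {η : ℕ → ℝ} {H : Type} [NormedAddCommGroup H] [InnerProductSpace ℂ H]
  [CompleteSpace H]

/-- averaging fixes the flat part and commutes with `W` -/
theorem key (hFLT : Stmt_FLT) (s : Sys D η H) (i d r : ℕ) (W : H →L[ℂ] H) (z x0 : H)
    (hd : d ≤ D i) (hr : r ≤ d) (hW : ∀ A, Commute W (s.π i A))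
    (hx0 : s.π i (jM (D i)) x0 = x0) :
    W (s.π i (rM (D i) d r) z - x0) = s.π i (rM (D i) d r) (W (z - x0)) := by
  have h1 : s.π i (rM (D i) d r) x0 = x0 := by
    have h2 := (hFLT.1 (D i) d r hd hr).1
    have h3 : s.π i (rM (D i) d r) (s.π i (jM (D i)) x0) = s.π i (jM (D i)) x0 := by
      rw [← ContinuousLinearMap.mul_apply, ← map_mul, h2]
    rwa [hx0] at h3
  have h4 : W (s.π i (rM (D i) d r) (z - x0)) = s.π i (rM (D i) d r) (W (z - x0)) := by
    have h5 := congrArg (fun F : H →L[ℂ] H => F (z - x0)) (hW (rM (D i) d r)).eq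
    simpa only [ContinuousLinearMap.mul_apply] using h5
  rw [← h4, map_sub (s.π i (rM (D i) d r)), h1]

end PIG

theorem t_PIG (hBES : Stmt_BES) (hFLT : Stmt_FLT) : Stmt_PIG := by
  intro D η H _ _ _ s i d g W z x0 φ φ0 hg hd hW hx0 hφ0
  set a : ℕ → ℝ := fun r => ‖s.π i (rM (D i) d r) (W (z - x0))‖ ^ 2 with ha
  set b : ℕ → ℝ := fun r => ‖s.π i (rM (D i) d r) (W (φ - φ0))‖ ^ 2 with hb
  have ha0 : ∀ r, 0 ≤ a r := fun r => sq_nonneg _
  have hb0 : ∀ r, 0 ≤ b r := fun r => sq_nonneg _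
  have hA : ∑ r ∈ Finset.range (d + 1), a r ≤ ((d : ℝ) + 1) * ‖W (z - x0)‖ ^ 2 :=
    hBES D η H s i d (W (z - x0)) hd
  have hB : ∑ r ∈ Finset.range (d + 1), b r ≤ ((d : ℝ) + 1) * ‖W (φ - φ0)‖ ^ 2 :=
    hBES D η H s i d (W (φ - φ0)) hd
  have hA' : ∑ r ∈ Finset.range (d - g + 1), a r ≤ ∑ r ∈ Finset.range (d + 1), a r :=
    Finset.sum_le_sum_of_subset_of_nonneg
      (Finset.range_subset_range.2 (by omega)) (fun r _ _ => ha0 r)
  have hB' : ∑ r ∈ Finset.range (d - g + 1), b (r + g) ≤ ∑ r ∈ Finset.range (d + 1), b r := by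
    have h1 : ∑ r ∈ Finset.range (d - g + 1), b (r + g) =
        ∑ r ∈ (Finset.range (d - g + 1)).map (addRightEmbedding g), b r := by
      rw [Finset.sum_map]; rfl
    rw [h1]
    refine Finset.sum_le_sum_of_subset_of_nonneg ?_ (fun r _ _ => hb0 r)
    intro r hr
    rw [Finset.mem_map] at hr
    obtain ⟨r', hr', rfl⟩ := hr
    rw [Finset.mem_range] at hr' ⊢
    simp only [addRightEmbedding_apply]
    omega
  have hcast : ((d - g + 1 : ℕ) : ℝ) = (d : ℝ) - g + 1 := by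
    push_cast [Nat.cast_sub hg]; ring
  have hpos : (0 : ℝ) < (d : ℝ) - g + 1 := by
    rw [← hcast]; positivity
  obtain ⟨r, hr, hmin⟩ := Finset.exists_min_image (Finset.range (d - g + 1))
    (fun r => a r + b (r + g)) ⟨0, Finset.mem_range.2 (by omega)⟩
  rw [Finset.mem_range] at hr
  refine ⟨r, by omega, ?_⟩
  rw [PIG.key hFLT s i d r W z x0 hd (by omega) hW hx0,
    PIG.key hFLT s i d (r + g) W φ φ0 hd (by omega) hW hφ0]
  change a r + b (r + g) ≤ _
  have hcard : ((d : ℝ) - g + 1) * (a r + b (r + g)) ≤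
      ∑ q ∈ Finset.range (d - g + 1), (a q + b (q + g)) := by
    have h2 := Finset.card_nsmul_le_sum (Finset.range (d - g + 1)) (fun q => a q + b (q + g))
      (a r + b (r + g)) (fun q hq => hmin q hq)
    rw [Finset.card_range, nsmul_eq_mul, hcast] at h2
    exact h2
  rw [Finset.sum_add_distrib] at hcard
  rw [div_mul_eq_mul_div, le_div_iff₀ hpos]
  nlinarith [hcard, hA, hB, hA', hB']

end Pool.Agent.HSP
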