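import Pool.Agent.HSP.Stmts

/-!
# Hilbert spaces are reflexive
-/

set_option autoImplicit false

noncomputable section

namespace Pool.Agent.HSP

namespace REFL

variable {H : Type} [NormedAddCommGroup H] [InnerProductSpace ℂ H] [CompleteSpace H]

/-- The functional `y ↦ conj (G (toDual y))`. -/
def fn (G : StrongDual ℂ (StrongDual ℂ H)) : StrongDual ℂ H :=
  LinearMap.mkContinuous
    { toFun := fun y => (starRingEnd ℂ) (G (InnerProductSpace.toDual ℂ H y))
      map_add' := fun y z => by rw [map_add, map_add, map_add]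
      map_smul' := fun c y => by
        rw [LinearIsometryEquiv.map_smulₛₗ, map_smul, smul_eq_mul, map_mul, RingHom.id_apply,
          smul_eq_mul, Complex.conj_conj] } ‖G‖ (fun y => by
      change ‖(starRingEnd ℂ) (G (InnerProductSpace.toDual ℂ H y))‖ ≤ ‖G‖ * ‖y‖
      rw [RCLike.norm_conj]
      refine (G.le_opNorm _).trans ?_
      rw [LinearIsometryEquiv.norm_map])

lemma fn_apply (G : StrongDual ℂ (StrongDual ℂ H)) (y : H) :
    fn G y = (starRingEnd ℂ) (G (InnerProductSpace.toDual ℂ H y)) := rfl

end REFL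

open REFL in
/-- Hilbert spaces are reflexive. -/
theorem t_REFL : Stmt_REFL := by
  intro H _ _ _ G
  refine ⟨(InnerProductSpace.toDual ℂ H).symm (fn G), ?_⟩
  ext ℓ
  obtain ⟨y, rfl⟩ := (InnerProductSpace.toDual ℂ H).surjective ℓ
  rw [NormedSpace.dual_def, InnerProductSpace.toDual_apply_apply]
  have h : (inner ℂ ((InnerProductSpace.toDual ℂ H).symm (fn G)) y : ℂ) = fn G y := by
    rw [← InnerProductSpace.toDual_apply_apply, LinearIsometryEquiv.apply_symm_apply]
  rw [← inner_conj_symm, h, fn_apply, Complex.conj_conj]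

end Pool.Agent.HSP
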