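import Pool.Agent.HSP.Stmts

/-!
# WINA: the causal window matrices are killed by `2 d + 1` commutators with the shift
-/

set_option autoImplicit false

open Filter Topology
open scoped ComplexOrder

noncomputable section

namespace Pool.Agent.HSP

namespace WINA

open Polynomial

theorem mul_t (D : ℕ) (Y : Mt D) (a b : Fin (D + 1)) :
    (Y * tM D) a b = if h : (b : ℕ) + 1 < D + 1 then Y a ⟨(b : ℕ) + 1, h⟩ else 0 := by
  rw [Matrix.mul_apply]
  split_ifs with h
  · rw [Finset.sum_eq_single (⟨(b : ℕ) + 1, h⟩ : Fin (D + 1))]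
    · simp [tM]
    · intro c _ hc
      have h1 : (c : ℕ) ≠ (b : ℕ) + 1 := fun h2 => hc (Fin.ext h2)
      simp [tM, h1]
    · intro h1
      exact absurd (Finset.mem_univ _) h1
  · apply Finset.sum_eq_zero
    intro c _
    have h1 : (c : ℕ) ≠ (b : ℕ) + 1 := fun h2 => h (h2 ▸ c.2)
    simp [tM, h1]

theorem t_mul (D : ℕ) (Y : Mt D) (a b : Fin (D + 1)) :
    (tM D * Y) a b = if h : 1 ≤ (a : ℕ) then Y ⟨(a : ℕ) - 1, by omega⟩ b else 0 := by
  rw [Matrix.mul_apply]
  split_ifs with h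
  · rw [Finset.sum_eq_single (⟨(a : ℕ) - 1, by omega⟩ : Fin (D + 1))]
    · have h1 : (a : ℕ) = (a : ℕ) - 1 + 1 := by omega
      simp only [tM]
      rw [if_pos h1, one_mul]
    · intro c _ hc
      have h1 : ¬ (a : ℕ) = (c : ℕ) + 1 := fun h2 => hc (Fin.ext (by simp only; omega))
      simp [tM, h1]
    · intro h1
      exact absurd (Finset.mem_univ _) h1
  · apply Finset.sum_eq_zero
    intro c _
    have h1 : ¬ (a : ℕ) = (c : ℕ) + 1 := by omega
    simp [tM, h1]

theorem adT_iter (D : ℕ) (X : Mt D) (Q : ℕ → ℂ → ℂ)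
    (hX : ∀ a b : Fin (D + 1), X a b = if (b : ℕ) ≤ (a : ℕ) then Q (a - b) b else 0) (j : ℕ) :
    ∀ a b : Fin (D + 1), ((adT D)^[j] X) a b =
      if (b : ℕ) + j ≤ (a : ℕ) then (fwdDiff (1 : ℂ))^[j] (Q (a - b - j)) b else 0 := by
  induction j with
  | zero => intro a b; simpa using hX a b
  | succ j ih =>
    intro a b
    rw [Function.iterate_succ_apply']
    have h1 : adT D ((adT D)^[j] X) a b =
        (((adT D)^[j] X) * tM D) a b - (tM D * ((adT D)^[j] X)) a b := rfl
    rw [h1, mul_t, t_mul]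
    have ha := a.2
    by_cases h2 : (b : ℕ) + (j + 1) ≤ (a : ℕ)
    · rw [dif_pos (by omega), dif_pos (by omega), if_pos h2, ih, ih]
      simp only
      rw [if_pos (by omega), if_pos (by omega)]
      have h3 : (a : ℕ) - ((b : ℕ) + 1) - j = (a : ℕ) - b - (j + 1) := by omega
      have h4 : (a : ℕ) - 1 - (b : ℕ) - j = (a : ℕ) - b - (j + 1) := by omega
      rw [h3, h4, Function.iterate_succ_apply']
      unfold fwdDiff
      push_cast
      rfl
    · rw [if_neg h2]
      have h5 : (if h : (b : ℕ) + 1 < D + 1 then ((adT D)^[j] X) a ⟨(b : ℕ) + 1, h⟩ else 0) = 0 := by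
        split_ifs with h
        · rw [ih, if_neg]
          simp only
          omega
        · rfl
      have h6 : (if h : 1 ≤ (a : ℕ) then ((adT D)^[j] X) ⟨(a : ℕ) - 1, by omega⟩ b else 0) = 0 := by
        split_ifs with h
        · rw [ih, if_neg]
          simp only
          omega
        · rfl
      rw [h5, h6, sub_zero]

/-- The polynomial of the entries on a diagonal. -/
def Qp (D d r g l : ℕ) : ℂ[X] :=
  C (((((r + g).factorial : ℂ) * ((d - (r + g)).factorial : ℂ) * (D.choose d : ℂ)) *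
    ((r.factorial : ℂ) * ((d - r).factorial : ℂ) * (D.choose d : ℂ)) * ((D : ℂ) + 1))⁻¹) *
  ((descPochhammer ℂ (r + g)).comp (X + C (l : ℂ)) *
    (descPochhammer ℂ (d - (r + g))).comp (C ((D : ℂ) - l) - X) *
    (descPochhammer ℂ r * (descPochhammer ℂ (d - r)).comp (C (D : ℂ) - X)))

theorem Qp_natDegree (D d r g l : ℕ) (h : r + g ≤ d) : (Qp D d r g l).natDegree < 2 * d + 1 := by
  have hc : ∀ (k : ℕ) (q : ℂ[X]), q.natDegree ≤ 1 → ((descPochhammer ℂ k).comp q).natDegree ≤ k := by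
    intro k q hq
    refine natDegree_comp_le.trans ?_
    rw [descPochhammer_natDegree]
    calc k * q.natDegree ≤ k * 1 := Nat.mul_le_mul_left k hq
      _ = k := mul_one k
  have h1 : (X + C (l : ℂ)).natDegree ≤ 1 := (natDegree_X_add_C _).le
  have h2 : ∀ c : ℂ, (C c - X).natDegree ≤ 1 := by
    intro c
    refine (natDegree_sub_le _ _).trans ?_
    simp
  unfold Qp
  refine lt_of_le_of_lt (natDegree_C_mul_le _ _) ?_
  refine lt_of_le_of_lt natDegree_mul_le ?_
  have h3 : ((descPochhammer ℂ (r + g)).comp (X + C (l : ℂ)) *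
    (descPochhammer ℂ (d - (r + g))).comp (C ((D : ℂ) - l) - X)).natDegree ≤
      (r + g) + (d - (r + g)) :=
    natDegree_mul_le.trans (Nat.add_le_add (hc _ _ h1) (hc _ _ (h2 _)))
  have h4 : (descPochhammer ℂ r * (descPochhammer ℂ (d - r)).comp (C (D : ℂ) - X)).natDegree ≤
      r + (d - r) := by
    refine natDegree_mul_le.trans (Nat.add_le_add ?_ (hc _ _ (h2 _)))
    rw [descPochhammer_natDegree]
  omega

theorem Qp_eval (D d r g l p : ℕ) (h : p + l ≤ D) :
    (Qp D d r g l).eval (p : ℂ) =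
      ((win D d (r + g) (p + l) * win D d r p / ((D : ℝ) + 1) : ℝ) : ℂ) := by
  unfold Qp win
  have h1 : (((p + l : ℕ)).choose (r + g) : ℂ) =
      (descPochhammer ℂ (r + g)).eval ((p : ℂ) + l) / ((r + g).factorial : ℂ) := by
    rw [Nat.cast_choose_eq_descPochhammer_div ℂ]
    push_cast
    rfl
  have h2 : (((D - (p + l) : ℕ)).choose (d - (r + g)) : ℂ) =
      (descPochhammer ℂ (d - (r + g))).eval ((D : ℂ) - l - p) / ((d - (r + g)).factorial : ℂ) := by
    rw [Nat.cast_choose_eq_descPochhammer_div ℂ, Nat.cast_sub h]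
    push_cast
    rw [show (D : ℂ) - (p + l) = (D : ℂ) - l - p by ring]
  have h3 : ((p.choose r : ℕ) : ℂ) =
      (descPochhammer ℂ r).eval (p : ℂ) / (r.factorial : ℂ) :=
    Nat.cast_choose_eq_descPochhammer_div ℂ p r
  have h4 : (((D - p : ℕ)).choose (d - r) : ℂ) =
      (descPochhammer ℂ (d - r)).eval ((D : ℂ) - p) / ((d - r).factorial : ℂ) := by
    rw [Nat.cast_choose_eq_descPochhammer_div ℂ, Nat.cast_sub (by omega)]
  push_cast
  rw [h1, h2, h3, h4]
  simp only [eval_mul, eval_C, eval_comp, eval_add, eval_X, eval_sub]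
  rw [mul_inv, mul_inv, mul_inv, mul_inv, mul_inv, mul_inv]
  simp only [div_eq_mul_inv]
  ring

end WINA

open WINA in
theorem t_WINA : Stmt_WINA := by
  intro D d r g _ hrg
  ext a b
  rw [adT_iter D (xM D d r g) (fun l => (Qp D d r g l).eval)]
  · rw [Polynomial.fwdDiff_iter_eq_zero_of_degree_lt (Qp_natDegree D d r g _ hrg)]
    simp
  · intro a b
    unfold xM
    by_cases h : (b : ℕ) ≤ (a : ℕ)
    · rw [if_pos h, if_pos h, Qp_eval D d r g _ _ (by have := a.2; omega)]
      rw [show (b : ℕ) + ((a : ℕ) - (b : ℕ)) = (a : ℕ) by omega]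
    · rw [if_neg h, if_neg h]

end Pool.Agent.HSP
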