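import Pool.Agent.HSP.Stmts

/-!
# Two distant windows in the wrong order

See `PAPER.md`. The product of the windows `r` and `r + g` at two points in the wrong order is at
most the geometric mean of the products at the two points, and at one point the product of the
windows `a` and `b` with `a + 2 ≤ b` grows by a definite factor when the indices move towards
each other.
-/

set_option autoImplicit false

noncomputable section

namespace Pool.Agent.HSP

namespace WINP

/-- binomial coefficients are totally positive of order two -/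
theorem choose_tp (y y' s k : ℕ) (h : y' ≤ y) :
    y.choose s * y'.choose (s + k) ≤ y'.choose s * y.choose (s + k) := by
  induction k with
  | zero => exact le_of_eq (by simp [mul_comm])
  | succ k ih =>
    have h1 : y'.choose (s + (k + 1)) * (s + k + 1) = y'.choose (s + k) * (y' - (s + k)) :=
      Nat.choose_succ_right_eq y' (s + k)
    have h2 : y.choose (s + (k + 1)) * (s + k + 1) = y.choose (s + k) * (y - (s + k)) :=
      Nat.choose_succ_right_eq y (s + k)
    have h3 : y' - (s + k) ≤ y - (s + k) := Nat.sub_le_sub_right h _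
    have h4 : (y.choose s * y'.choose (s + (k + 1))) * (s + k + 1) ≤
        (y'.choose s * y.choose (s + (k + 1))) * (s + k + 1) := by
      calc (y.choose s * y'.choose (s + (k + 1))) * (s + k + 1)
          = y.choose s * (y'.choose (s + (k + 1)) * (s + k + 1)) := by ring
        _ = (y.choose s * y'.choose (s + k)) * (y' - (s + k)) := by rw [h1]; ring
        _ ≤ (y'.choose s * y.choose (s + k)) * (y - (s + k)) := Nat.mul_le_mul ih h3
        _ = y'.choose s * (y.choose (s + (k + 1)) * (s + k + 1)) := by rw [h2]; ring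
        _ = (y'.choose s * y.choose (s + (k + 1))) * (s + k + 1) := by ring
    exact Nat.le_of_mul_le_mul_right h4 (Nat.succ_pos _)

/-- moving the two windows towards each other, integer form -/
theorem step_nat (q M a k e : ℕ) :
    (a + k + 2) * (k + 2 + e) * ((q.choose a * M.choose (k + 2 + e)) *
      (q.choose (a + k + 2) * M.choose e)) ≤
    (a + 1) * (e + 1) * ((q.choose (a + 1) * M.choose (k + 1 + e)) *
      (q.choose (a + k + 1) * M.choose (e + 1))) := by
  have h1 : q.choose (a + k + 2) * (a + k + 2) = q.choose (a + k + 1) * (q - (a + k + 1)) :=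
    Nat.choose_succ_right_eq q (a + k + 1)
  have h2 : M.choose (k + 2 + e) * (k + 2 + e) = M.choose (k + 1 + e) * (M - (k + 1 + e)) := by
    have := Nat.choose_succ_right_eq M (k + 1 + e)
    have e1 : k + 1 + e + 1 = k + 2 + e := by omega
    rwa [e1] at this
  have h3 : q.choose (a + 1) * (a + 1) = q.choose a * (q - a) := Nat.choose_succ_right_eq q a
  have h4 : M.choose (e + 1) * (e + 1) = M.choose e * (M - e) := Nat.choose_succ_right_eq M e
  have h5 : (q - (a + k + 1)) * (M - (k + 1 + e)) ≤ (q - a) * (M - e) :=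
    Nat.mul_le_mul (by omega) (by omega)
  calc (a + k + 2) * (k + 2 + e) * ((q.choose a * M.choose (k + 2 + e)) *
        (q.choose (a + k + 2) * M.choose e))
      = q.choose a * M.choose e * (q.choose (a + k + 2) * (a + k + 2)) *
        (M.choose (k + 2 + e) * (k + 2 + e)) := by ring
    _ = q.choose a * M.choose e * q.choose (a + k + 1) * M.choose (k + 1 + e) *
        ((q - (a + k + 1)) * (M - (k + 1 + e))) := by rw [h1, h2]; ring
    _ ≤ q.choose a * M.choose e * q.choose (a + k + 1) * M.choose (k + 1 + e) *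
        ((q - a) * (M - e)) := Nat.mul_le_mul_left _ h5
    _ = (q.choose (a + 1) * (a + 1)) * (M.choose (e + 1) * (e + 1)) *
        (q.choose (a + k + 1) * M.choose (k + 1 + e)) := by rw [h3, h4]; ring
    _ = (a + 1) * (e + 1) * ((q.choose (a + 1) * M.choose (k + 1 + e)) *
        (q.choose (a + k + 1) * M.choose (e + 1))) := by ring

theorem win_nonneg (D d r p : ℕ) : 0 ≤ win D d r p := by
  unfold win; positivity

/-- moving the two windows towards each other -/
theorem step_real (D d q a b : ℕ) (hab : a + 2 ≤ b) (hb : b ≤ d) :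
    win D d a q * win D d b q ≤
      (1 - ((b : ℝ) - a - 1) / d) ^ 2 * (win D d (a + 1) q * win D d (b - 1) q) := by
  obtain ⟨k, rfl⟩ := Nat.exists_eq_add_of_le hab
  obtain ⟨e, rfl⟩ := Nat.exists_eq_add_of_le hb
  have hN := step_nat q (D - q) a k e
  have hR : ((a : ℝ) + k + 2) * (k + 2 + e) * (((q.choose a : ℝ) * (D - q).choose (k + 2 + e)) *
      ((q.choose (a + k + 2) : ℝ) * (D - q).choose e)) ≤
      ((a : ℝ) + 1) * (e + 1) * (((q.choose (a + 1) : ℝ) * (D - q).choose (k + 1 + e)) *
      ((q.choose (a + k + 1) : ℝ) * (D - q).choose (e + 1))) := by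
    exact_mod_cast hN
  have e1 : a + 2 + k + e - a = k + 2 + e := by omega
  have e2 : a + 2 + k + e - (a + 2 + k) = e := by omega
  have e3 : a + 2 + k + e - (a + 1) = k + 1 + e := by omega
  have e4 : a + 2 + k - 1 = a + k + 1 := by omega
  have e5 : a + 2 + k + e - (a + k + 1) = e + 1 := by omega
  have e6 : a + 2 + k = a + k + 2 := by omega
  have hd : (0 : ℝ) < ((a + 2 + k + e : ℕ) : ℝ) := by positivity
  have hw1 : win D (a + 2 + k + e) a q * win D (a + 2 + k + e) (a + 2 + k) q =
      (((q.choose a : ℝ) * (D - q).choose (k + 2 + e)) *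
      ((q.choose (a + k + 2) : ℝ) * (D - q).choose e)) / (D.choose (a + 2 + k + e) : ℝ) ^ 2 := by
    unfold win
    rw [e1, e2, e6]
    ring
  have hw2 : win D (a + 2 + k + e) (a + 1) q * win D (a + 2 + k + e) (a + 2 + k - 1) q =
      (((q.choose (a + 1) : ℝ) * (D - q).choose (k + 1 + e)) *
      ((q.choose (a + k + 1) : ℝ) * (D - q).choose (e + 1))) / (D.choose (a + 2 + k + e) : ℝ) ^ 2 := by
    unfold win
    rw [e3, e4, e5]
    ring
  rw [hw1, hw2, ← mul_div_assoc]
  refine div_le_div_of_nonneg_right ?_ (by positivity)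
  set X : ℝ := ((q.choose a : ℝ) * (D - q).choose (k + 2 + e)) *
      ((q.choose (a + k + 2) : ℝ) * (D - q).choose e) with hX
  set Y : ℝ := ((q.choose (a + 1) : ℝ) * (D - q).choose (k + 1 + e)) *
      ((q.choose (a + k + 1) : ℝ) * (D - q).choose (e + 1)) with hY
  have hY0 : 0 ≤ Y := by rw [hY]; positivity
  have hpos : (0 : ℝ) < ((a : ℝ) + k + 2) * (k + 2 + e) := by positivity
  have hX1 : X ≤ ((a : ℝ) + 1) * (e + 1) / (((a : ℝ) + k + 2) * (k + 2 + e)) * Y := by
    rw [div_mul_eq_mul_div, le_div_iff₀ hpos]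
    nlinarith [hR]
  refine le_trans hX1 (mul_le_mul_of_nonneg_right ?_ hY0)
  have hcast : ((a + 2 + k + e : ℕ) : ℝ) = (a : ℝ) + 2 + k + e := by push_cast; ring
  have hcast2 : ((a + 2 + k : ℕ) : ℝ) = (a : ℝ) + 2 + k := by push_cast; ring
  have f1 : ((a : ℝ) + 1) / ((a : ℝ) + k + 2) ≤
      1 - (((a + 2 + k : ℕ) : ℝ) - a - 1) / ((a + 2 + k + e : ℕ) : ℝ) := by
    rw [hcast, hcast2]
    have h1 : 1 - ((a : ℝ) + 2 + k - a - 1) / ((a : ℝ) + 2 + k + e) =
        ((a : ℝ) + 1 + e) / ((a : ℝ) + 2 + k + e) := by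
      field_simp
      ring
    rw [h1, div_le_div_iff₀ (by positivity) (by positivity)]
    have : (0 : ℝ) ≤ (e : ℝ) * (k + 1) := by positivity
    nlinarith
  have f2 : ((e : ℝ) + 1) / ((k : ℝ) + 2 + e) ≤
      1 - (((a + 2 + k : ℕ) : ℝ) - a - 1) / ((a + 2 + k + e : ℕ) : ℝ) := by
    rw [hcast, hcast2]
    have h1 : 1 - ((a : ℝ) + 2 + k - a - 1) / ((a : ℝ) + 2 + k + e) =
        ((a : ℝ) + 1 + e) / ((a : ℝ) + 2 + k + e) := by
      field_simp
      ring
    rw [h1, div_le_div_iff₀ (by positivity) (by positivity)]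
    have : (0 : ℝ) ≤ (a : ℝ) * (k + 1) := by positivity
    nlinarith
  have f3 : ((a : ℝ) + 1) * (e + 1) / (((a : ℝ) + k + 2) * (k + 2 + e)) =
      (((a : ℝ) + 1) / ((a : ℝ) + k + 2)) * (((e : ℝ) + 1) / ((k : ℝ) + 2 + e)) := by
    rw [div_mul_div_comm]
  rw [f3, sq]
  have g1 : 0 ≤ ((e : ℝ) + 1) / ((k : ℝ) + 2 + e) := by positivity
  have g2 : 0 ≤ ((a : ℝ) + 1) / ((a : ℝ) + k + 2) := by positivity
  exact mul_le_mul f1 f2 g1 (le_trans g2 f1)

/-- `i` steps -/
theorem steps (D d q r g h : ℕ) (hd : r + g ≤ d) (hh : 4 * h ≤ g) (i : ℕ) (hi : i ≤ h) :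
    win D d r q * win D d (r + g) q ≤
      (1 - (g : ℝ) / (2 * d)) ^ (2 * i) * (win D d (r + i) q * win D d (r + g - i) q) := by
  induction i with
  | zero => simp
  | succ i ih =>
    have hi' : i ≤ h := by omega
    refine le_trans (ih hi') ?_
    have hab : r + i + 2 ≤ r + g - i := by omega
    have hb : r + g - i ≤ d := by omega
    have hs := step_real D d q (r + i) (r + g - i) hab hb
    have hdpos : (0 : ℝ) < (d : ℝ) := by
      have : 0 < d := by omega
      exact_mod_cast this
    have hcast : ((r + g - i : ℕ) : ℝ) = (r : ℝ) + g - i := by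
      rw [Nat.cast_sub (by omega)]; push_cast; ring
    have hgd : (r : ℝ) + g ≤ d := by exact_mod_cast hd
    have hhg : 4 * (h : ℝ) ≤ g := by exact_mod_cast hh
    have hih : (i : ℝ) + 1 ≤ h := by exact_mod_cast hi
    have hr0 : (0 : ℝ) ≤ r := Nat.cast_nonneg r
    have hi0 : (0 : ℝ) ≤ i := Nat.cast_nonneg i
    have hfac : (1 - (((r + g - i : ℕ) : ℝ) - ((r + i : ℕ) : ℝ) - 1) / d) ^ 2 ≤
        (1 - (g : ℝ) / (2 * d)) ^ 2 := by
      refine pow_le_pow_left₀ ?_ ?_ 2
      · rw [hcast, sub_nonneg, div_le_one hdpos]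
        push_cast
        linarith
      · rw [hcast]
        push_cast
        have h1 : (g : ℝ) / (2 * d) = (g / 2) / d := by rw [div_div]
        rw [h1]
        have h2 : (g : ℝ) / 2 / d ≤ ((r : ℝ) + g - i - (r + i) - 1) / d := by
          refine div_le_div_of_nonneg_right ?_ hdpos.le
          linarith
        linarith
    have hw0 : 0 ≤ win D d (r + i + 1) q * win D d (r + g - i - 1) q :=
      mul_nonneg (win_nonneg _ _ _ _) (win_nonneg _ _ _ _)
    have hs2 := le_trans hs (mul_le_mul_of_nonneg_right hfac hw0)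
    have hp0 : 0 ≤ (1 - (g : ℝ) / (2 * d)) ^ (2 * i) := by
      rw [pow_mul]; positivity
    calc (1 - (g : ℝ) / (2 * d)) ^ (2 * i) * (win D d (r + i) q * win D d (r + g - i) q)
        ≤ (1 - (g : ℝ) / (2 * d)) ^ (2 * i) * ((1 - (g : ℝ) / (2 * d)) ^ 2 *
          (win D d (r + i + 1) q * win D d (r + g - i - 1) q)) :=
          mul_le_mul_of_nonneg_left hs2 hp0
      _ = (1 - (g : ℝ) / (2 * d)) ^ (2 * (i + 1)) *
          (win D d (r + (i + 1)) q * win D d (r + g - (i + 1)) q) := by
          have e1 : r + i + 1 = r + (i + 1) := by omega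
          have e2 : r + g - i - 1 = r + g - (i + 1) := by omega
          have e3 : 2 * (i + 1) = 2 * i + 2 := by omega
          rw [e1, e2, e3, pow_add]
          ring

/-- the product of two distant windows at the same point -/
theorem same_point (hWINS : Stmt_WINS) (D d q r g h : ℕ) (hdD : d ≤ D) (hd : r + g ≤ d)
    (hh : 4 * h ≤ g) (hq : q ≤ D) :
    win D d r q * win D d (r + g) q ≤ Real.exp (-((g : ℝ) * (h : ℝ) / (d : ℝ))) := by
  obtain ⟨-, hle, -, -⟩ := hWINS D d hdD
  have h1 := steps D d q r g h hd hh h le_rfl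
  have h2 : win D d (r + h) q ≤ 1 := hle _ _ hq (by omega)
  have h3 : win D d (r + g - h) q ≤ 1 := hle _ _ hq (by omega)
  have h4 : win D d (r + h) q * win D d (r + g - h) q ≤ 1 :=
    mul_le_one₀ h2 (win_nonneg _ _ _ _) h3
  have hp0 : 0 ≤ (1 - (g : ℝ) / (2 * d)) ^ (2 * h) := by
    rw [pow_mul]; positivity
  have h5 : win D d r q * win D d (r + g) q ≤ (1 - (g : ℝ) / (2 * d)) ^ (2 * h) := by
    calc _ ≤ _ := h1
      _ ≤ (1 - (g : ℝ) / (2 * d)) ^ (2 * h) * 1 := mul_le_mul_of_nonneg_left h4 hp0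
      _ = _ := mul_one _
  refine le_trans h5 ?_
  have hgd : (g : ℝ) ≤ d := by
    have : g ≤ d := by omega
    exact_mod_cast this
  have h6 : 0 ≤ 1 - (g : ℝ) / (2 * d) := by
    rw [sub_nonneg]
    refine div_le_one_of_le₀ ?_ (by positivity)
    have : (0 : ℝ) ≤ d := Nat.cast_nonneg d
    linarith
  have h7 : 1 - (g : ℝ) / (2 * d) ≤ Real.exp (-((g : ℝ) / (2 * d))) := Real.one_sub_le_exp_neg _
  calc (1 - (g : ℝ) / (2 * d)) ^ (2 * h) ≤ (Real.exp (-((g : ℝ) / (2 * d)))) ^ (2 * h) :=
        pow_le_pow_left₀ h6 h7 _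
    _ = Real.exp (-((g : ℝ) * (h : ℝ) / (d : ℝ))) := by
        rw [← Real.exp_nat_mul]
        refine congrArg Real.exp ?_
        push_cast
        by_cases hd0 : (d : ℝ) = 0
        · rw [hd0]; simp
        · field_simp

/-- exchange of the two points -/
theorem exchange (D d r g p p' : ℕ) (hd : r + g ≤ d) (hp : p' ≤ p) :
    win D d r p * win D d (r + g) p' ≤ win D d r p' * win D d (r + g) p := by
  have h1 := choose_tp p p' r g hp
  have h2 := choose_tp (D - p') (D - p) (d - (r + g)) g (by omega)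
  have e1 : d - (r + g) + g = d - r := by omega
  rw [e1] at h2
  have h1R : (p.choose r : ℝ) * p'.choose (r + g) ≤ (p'.choose r : ℝ) * p.choose (r + g) := by
    exact_mod_cast h1
  have h2R : ((D - p').choose (d - (r + g)) : ℝ) * (D - p).choose (d - r) ≤
      ((D - p).choose (d - (r + g)) : ℝ) * (D - p').choose (d - r) := by
    exact_mod_cast h2
  have h3 := mul_le_mul h1R h2R (by positivity) (by positivity)
  unfold win
  rw [div_mul_div_comm, div_mul_div_comm]
  refine div_le_div_of_nonneg_right ?_ (by positivity)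
  linarith

end WINP

/-- WINP: two distant windows in the wrong order. -/
theorem t_WINP (hWINS : Stmt_WINS) : Stmt_WINP := by
  intro D d r g h p p' hdD hrg hh hp hpD
  have h1 := WINP.exchange D d r g p p' hrg hp
  have h2 := WINP.same_point hWINS D d p r g h hdD hrg hh hpD
  have h3 := WINP.same_point hWINS D d p' r g h hdD hrg hh (le_trans hp hpD)
  have n1 := WINP.win_nonneg D d r p
  have n2 := WINP.win_nonneg D d (r + g) p'
  have n3 := WINP.win_nonneg D d r p'
  have n4 := WINP.win_nonneg D d (r + g) p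
  have hE : 0 ≤ Real.exp (-((g : ℝ) * (h : ℝ) / (d : ℝ))) := (Real.exp_pos _).le
  refine (sq_le_sq₀ (mul_nonneg n1 n2) hE).1 ?_
  calc (win D d r p * win D d (r + g) p') ^ 2
      = (win D d r p * win D d (r + g) p') * (win D d r p * win D d (r + g) p') := sq _
    _ ≤ (win D d r p * win D d (r + g) p') * (win D d r p' * win D d (r + g) p) :=
        mul_le_mul_of_nonneg_left h1 (mul_nonneg n1 n2)
    _ = (win D d r p * win D d (r + g) p) * (win D d r p' * win D d (r + g) p') := by ring
    _ ≤ Real.exp (-((g : ℝ) * (h : ℝ) / (d : ℝ))) * Real.exp (-((g : ℝ) * (h : ℝ) / (d : ℝ))) :=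
        mul_le_mul h2 h3 (mul_nonneg n3 n2) hE
    _ = Real.exp (-((g : ℝ) * (h : ℝ) / (d : ℝ))) ^ 2 := (sq _).symm

end Pool.Agent.HSP
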