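import Pool.Agent.HSP.Stmts

/-!
# Module WINS: elementary facts about the window polynomials
-/

set_option autoImplicit false

open Filter Topology Finset

noncomputable section

namespace Pool.Agent.HSP

namespace WINS

/-- dual Vandermonde identity -/
theorem dual (r : ℕ) : ∀ D s : ℕ,
    ∑ p ∈ Finset.range (D + 1), p.choose r * (D - p).choose s = (D + 1).choose (r + s + 1) := by
  intro D
  induction D with
  | zero =>
    intro s
    rw [Finset.sum_range_one]
    rcases r with _ | r
    · rcases s with _ | s
      · simp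
      · simp [Nat.choose_eq_zero_of_lt]
    · have h1 : (0 + 1).choose (r + 1 + s + 1) = 0 := Nat.choose_eq_zero_of_lt (by omega)
      rw [h1]
      simp
  | succ D ih =>
    intro s
    rcases s with _ | s
    · have h1 := ih 0
      simp only [Nat.choose_zero_right, mul_one, add_zero] at h1 ⊢
      rw [Finset.sum_range_succ, h1, Nat.choose_succ_succ (D + 1) r]
      exact Nat.add_comm _ _
    · rw [Finset.sum_range_succ, Nat.sub_self, Nat.choose_zero_succ, mul_zero, add_zero]
      have h1 : ∀ p ∈ Finset.range (D + 1), p.choose r * (D + 1 - p).choose (s + 1) =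
          p.choose r * (D - p).choose s + p.choose r * (D - p).choose (s + 1) := by
        intro p hp
        have hp1 : p ≤ D := Nat.lt_succ_iff.1 (Finset.mem_range.1 hp)
        have h2 : D + 1 - p = (D - p) + 1 := by omega
        rw [h2, Nat.choose_succ_succ, Nat.mul_add]
      rw [Finset.sum_congr rfl h1, Finset.sum_add_distrib, ih s, ih (s + 1)]
      have h3 : r + (s + 1) + 1 = (r + s + 1) + 1 := by omega
      rw [h3, Nat.choose_succ_succ (D + 1) (r + s + 1)]

theorem vander (D d p : ℕ) (hp : p ≤ D) :
    ∑ r ∈ Finset.range (d + 1), p.choose r * (D - p).choose (d - r) = D.choose d := by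
  have h1 := Nat.add_choose_eq p (D - p) d
  have h2 : p + (D - p) = D := by omega
  rw [h2] at h1
  rw [h1, Finset.Nat.sum_antidiagonal_eq_sum_range_succ
    (fun a b => p.choose a * (D - p).choose b) d]

end WINS

theorem t_WINS : Stmt_WINS := by
  intro D d hd
  have hpos : (0 : ℝ) < (D.choose d : ℝ) := by exact_mod_cast Nat.choose_pos hd
  have h0 : ∀ r p, 0 ≤ win D d r p := by
    intro r p
    unfold win
    positivity
  have h1 : ∀ p, p ≤ D → ∑ r ∈ Finset.range (d + 1), win D d r p = 1 := by
    intro p hp
    unfold win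
    rw [← Finset.sum_div, div_eq_one_iff_eq hpos.ne']
    exact_mod_cast WINS.vander D d p hp
  refine ⟨h0, ?_, h1, ?_⟩
  · intro r p hp hr
    rw [← h1 p hp]
    exact Finset.single_le_sum (f := fun r => win D d r p) (fun r _ => h0 r p)
      (Finset.mem_range.2 (Nat.lt_succ_of_le hr))
  · intro r hr
    unfold win
    rw [← Finset.sum_div]
    have h2 := WINS.dual r D (d - r)
    have h3 : r + (d - r) + 1 = d + 1 := by omega
    rw [h3] at h2
    have h4 : (∑ p ∈ Finset.range (D + 1), ((p.choose r : ℝ) * ((D - p).choose (d - r) : ℝ))) =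
        ((D + 1).choose (d + 1) : ℝ) := by exact_mod_cast h2
    rw [h4, div_eq_div_iff hpos.ne' (by positivity)]
    have h5 := Nat.add_one_mul_choose_eq D d
    have h6 : ((D : ℝ) + 1) * (D.choose d : ℝ) = ((D + 1).choose (d + 1) : ℝ) * ((d : ℝ) + 1) := by
      exact_mod_cast h5
    exact h6.symm

end Pool.Agent.HSP
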