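import Pool.Agent.HSP.Main
import Pool.Agent.HSP.FRO
import Pool.Agent.HSP.NRM
import Pool.Agent.HSP.WINS
import Pool.Agent.HSP.WINP
import Pool.Agent.HSP.WINA
import Pool.Agent.HSP.LIFT
import Pool.Agent.HSP.DESC
import Pool.Agent.HSP.BES
import Pool.Agent.HSP.FLT
import Pool.Agent.HSP.PIG
import Pool.Agent.HSP.ITER
import Pool.Agent.HSP.LEMN
import Pool.Agent.HSP.PAR
import Pool.Agent.HSP.MODU
import Pool.Agent.HSP.MODM
import Pool.Agent.HSP.REFL
import Pool.Agent.HSP.TNS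

/-!
# The modules without hypotheses
-/

set_option autoImplicit false

namespace Pool.Agent.HSP

theorem c_NRM : Stmt_NRM := t_NRM t_FRO
theorem c_FLT : Stmt_FLT := t_FLT t_WINS c_NRM
theorem c_BES : Stmt_BES := t_BES t_WINS c_NRM
theorem c_LIFT : Stmt_LIFT := t_LIFT c_NRM
theorem c_WINP : Stmt_WINP := t_WINP t_WINS
theorem c_DESC : Stmt_DESC := t_DESC c_NRM t_WINS c_WINP t_WINA c_LIFT
theorem c_PIG : Stmt_PIG := t_PIG c_BES c_FLT
theorem c_ITER : Stmt_ITER := t_ITER c_NRM c_DESC c_PIG c_FLT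

/-- The negation of the problem from the last two modules. -/
theorem not_main_of' (hLEMQ : Stmt_LEMQ) (hMOD : Stmt_MOD) :
    ¬ (∀ (X : Type) [NormedAddCommGroup X] [NormedSpace ℂ X] [CompleteSpace X]
      [TopologicalSpace.SeparableSpace X],
      ¬ FiniteDimensional ℂ X →
      Function.Surjective (NormedSpace.inclusionInDoubleDual ℂ X) →
      ∀ T : X →L[ℂ] X, (∀ c : ℂ, T ≠ c • ContinuousLinearMap.id ℂ X) →
        ∃ M : Submodule ℂ X, IsClosed (M : Set X) ∧ M ≠ ⊥ ∧ M ≠ ⊤ ∧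
          ∀ S : X →L[ℂ] X, S * T = T * S → ∀ x ∈ M, S x ∈ M) :=
  not_main_of (t_MAINA c_NRM t_PAR c_ITER hLEMQ) hMOD t_REFL t_TNS

end Pool.Agent.HSP
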