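import Mathlib

/-!
# An operator on Hilbert space without nontrivial hyperinvariant subspaces: definitions

See `PAPER.md` in this folder for the complete proof. `tM D` is the truncated shift `e_p ↦ e_{p+1}` on
`ℂ^{D+1}`, `dM D` is `e_p ↦ p e_{p-1}`, `jM D` is the projection onto the flat vector
`ω = (D+1)^{-1/2} (1, …, 1)`, `win D d r` is the `r`-th window polynomial (degree `d`) on `{0, …, D}`,
`rM D d r` averages with the weight `win D d r` and returns the flat vector.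
-/

set_option autoImplicit false

open Filter Topology
open scoped ComplexOrder

noncomputable section

namespace Pool.Agent.HSP

/-- square matrices of size `D + 1` -/
abbrev Mt (D : ℕ) : Type := Matrix (Fin (D + 1)) (Fin (D + 1)) ℂ

/-- the truncated shift `e_p ↦ e_{p+1}`, `e_D ↦ 0` -/
def tM (D : ℕ) : Mt D := fun a b => if (a : ℕ) = (b : ℕ) + 1 then 1 else 0

/-- the derivative `e_p ↦ p e_{p-1}` -/
def dM (D : ℕ) : Mt D := fun a b => if (b : ℕ) = (a : ℕ) + 1 then ((b : ℕ) : ℂ) else 0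

/-- the projection onto the flat vector -/
def jM (D : ℕ) : Mt D := fun _ _ => ((D : ℂ) + 1)⁻¹

/-- `e_p ↦ ω` (flat unit vector), the other basis vectors go to `0` -/
def oM (D : ℕ) (p : ℕ) : Mt D := fun _ b => if (b : ℕ) = p then (((Real.sqrt ((D : ℝ) + 1))⁻¹ : ℝ) : ℂ) else 0

/-- window polynomials: `C(p, r) C(D - p, d - r) / C(D, d)` -/
def win (D d r p : ℕ) : ℝ := ((p.choose r : ℝ) * ((D - p).choose (d - r) : ℝ)) / (D.choose d : ℝ)

/-- weighted average with weight `win D d r`, the result is a multiple of the flat vector -/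
def rM (D d r : ℕ) : Mt D := fun _ b => ((((d : ℝ) + 1) / ((D : ℝ) + 1) * win D d r b : ℝ) : ℂ)

/-- the causal part of the rank one matrix `|win (r + g)⟩ ⟨win r| / (D + 1)` -/
def xM (D d r g : ℕ) : Mt D := fun a b =>
  if (b : ℕ) ≤ (a : ℕ) then ((win D d (r + g) a * win D d r b / ((D : ℝ) + 1) : ℝ) : ℂ) else 0

/-- commutator with the truncated shift -/
def adT (D : ℕ) (X : Mt D) : Mt D := X * tM D - tM D * X

/-- A system: commuting representations `π i` of the matrix algebras of all sites on a Hilbert space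
`H`, the operator `T = ∑ η_i t_i`, and the projections `P n` onto the vectors which are the reference
vector in all sites `≥ n`. -/
structure Sys (D : ℕ → ℕ) (η : ℕ → ℝ) (H : Type) [NormedAddCommGroup H] [InnerProductSpace ℂ H]
    [CompleteSpace H] where
  π : (i : ℕ) → Mt (D i) →⋆ₐ[ℂ] (H →L[ℂ] H)
  comm : ∀ i j, i ≠ j → ∀ A B, Commute (π i A) (π j B)
  T : H →L[ℂ] H
  hasSum : HasSum (fun i => (η i : ℂ) • π i (tM (D i))) T
  P : ℕ → H →L[ℂ] H
  P_star : ∀ n, IsSelfAdjoint (P n)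
  P_idem : ∀ n, P n * P n = P n
  P_comm : ∀ n i, i < n → ∀ A, Commute (P n) (π i A)
  P_step : ∀ n, P n = P (n + 1) * π n (jM (D n))
  P_lim : ∀ x, Tendsto (fun n => P n x) atTop (𝓝 x)
  rank1 : ∀ (n : ℕ) (w z : H), P n w = w → P n z = z → ∃ F : H →L[ℂ] H,
    ‖F‖ ≤ ‖w‖ * ‖z‖ ∧ (∀ i, n ≤ i → ∀ A, Commute F (π i A)) ∧ (∀ N, n ≤ N → Commute F (P N)) ∧
    ∀ y, P n y = y → F y = (inner ℂ z y : ℂ) • w

section Basic

variable {D : ℕ → ℕ} {η : ℕ → ℝ} {H : Type} [NormedAddCommGroup H] [InnerProductSpace ℂ H]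
  [CompleteSpace H]

/-- operators of level `n` in the commutant of `T` -/
def Sys.Cn (s : Sys D η H) (n : ℕ) : Set (H →L[ℂ] H) :=
  {Φ | Commute Φ s.T ∧ (∀ i, n ≤ i → ∀ A, Commute Φ (s.π i A)) ∧ ∀ N, n ≤ N → Commute Φ (s.P N)}

/-- `x` and `φ` are almost orthogonal for the operators of level `n` in the commutant -/
def Sys.Small (s : Sys D η H) (n : ℕ) (x φ : H) (θ : ℝ) : Prop :=
  ∀ Φ ∈ s.Cn n, ‖(inner ℂ φ (Φ x) : ℂ)‖ ≤ θ * ‖Φ‖

/-- the partial sum `∑_{i < n} η_i t_i` -/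
noncomputable def Sys.Tn (s : Sys D η H) (n : ℕ) : H →L[ℂ] H :=
  ∑ i ∈ Finset.range n, (η i : ℂ) • s.π i (tM (D i))

/-- the error of the lifting from site `m` to site `m + 1` -/
noncomputable def ee (D : ℕ → ℕ) (η : ℕ → ℝ) (m : ℕ) : ℝ :=
  Real.exp (2 * ((D m : ℝ) + 1) ^ 2 * η (m + 1) / η m) - 1

end Basic

/-! ### parameters -/

/-- degree of the far windows at site `m` -/
def dd (c : ℕ → ℕ) (m : ℕ) : ℕ := 2 ^ (2 * m + 4) * c m

/-- gap of the far windows at site `m` -/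
def gg (c : ℕ → ℕ) (m : ℕ) : ℕ := 2 ^ (m + 3) * c m

/-- quarter gap of the far windows at site `m` -/
def hh (c : ℕ → ℕ) (m : ℕ) : ℕ := 2 ^ (m + 1) * c m

/-- The growth conditions. -/
structure Par (f c D : ℕ → ℕ) (η B : ℕ → ℝ) : Prop where
  D_eq : ∀ i, D i = 4096 * f i
  f_pos : ∀ i, 1 ≤ f i
  f_mono : ∀ i, f i ≤ f (i + 1)
  c_pos : ∀ m, 1 ≤ m → 1 ≤ c (m + 1)
  dd_le : ∀ m, 1 ≤ m → dd c (m + 1) ≤ D (m + 1)
  η_pos : ∀ i, 0 < η i
  η_le : ∀ i, η i ≤ (1 / 2) ^ i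
  B_pos : ∀ m, 1 ≤ m → 0 < B m
  ee_le : ∀ m, ee D η m ≤ 1
  noise : ∀ m, 1 ≤ m → 2 * dd c (m + 1) * 4 ^ (m + 15) ≤ D m + 1
  budget : ∀ m, 1 ≤ m → ((dd c (m + 1) : ℝ) + 1) ^ 2 *
    (2 * B (m + 1) + 4 * (Real.exp (-(c (m + 1) : ℝ)) + ee D η m)) ≤ B m
  bot : ∀ l, 8 * (1024 * (f l : ℝ) + 1) ^ 2 * B (l + 1) ≤ Real.exp (-(32 * (f l : ℝ)))
  bot2 : ∀ l, 16 * (1024 * (f l : ℝ) + 1) ^ 2 * (Real.exp (-(64 * (f l : ℝ))) + ee D η l) ≤
    Real.exp (-(32 * (f l : ℝ)))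

end Pool.Agent.HSP
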