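import Pool.Agent.HSP.Stmts

/-!
# Module LEMQ: Lemma Q
-/

set_option autoImplicit false

open Filter Topology
open scoped ComplexOrder

noncomputable section

namespace Pool.Agent.HSP

namespace LEMQ

open Finset

/-! ### algebra -/

/-- expansion of a power of a sum with a nilpotent commuting summand -/
theorem expand {R : Type*} [Ring R] (S Y : R) (hc : Commute S Y) (q : ℕ) (hS : S ^ q = 0) (j : ℕ) :
    (S + Y) ^ j = ∑ i ∈ range q, (S ^ i * Y ^ (j - i)) * (j.choose i : R) := by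
  rw [hc.add_pow]
  have hz : ∀ i, q ≤ i → S ^ i = 0 := fun i hi => pow_eq_zero_of_le hi hS
  have e1 : ∑ i ∈ range (j + 1), (S ^ i * Y ^ (j - i)) * (j.choose i : R)
      = ∑ i ∈ range (max (j + 1) q), (S ^ i * Y ^ (j - i)) * (j.choose i : R) := by
    apply sum_subset
    · intro x hx; simp only [mem_range] at hx ⊢; omega
    · intro x _ hx
      simp only [mem_range, not_lt] at hx
      rw [Nat.choose_eq_zero_of_lt (by omega)]; simp
  have e2 : ∑ i ∈ range q, (S ^ i * Y ^ (j - i)) * (j.choose i : R)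
      = ∑ i ∈ range (max (j + 1) q), (S ^ i * Y ^ (j - i)) * (j.choose i : R) := by
    apply sum_subset
    · intro x hx; simp only [mem_range] at hx ⊢; omega
    · intro x _ hx
      simp only [mem_range, not_lt] at hx
      rw [hz x hx]; simp
  rw [e1, e2]

theorem telescope {R : Type*} [Ring R] (Z B : R) (M : ℕ) (hZ : Z ^ (M + 1) = 0) :
    Commute (∑ j ∈ range (M + 1), Z ^ j * B * Z ^ (M - j)) Z := by
  have h := Finset.sum_range_sub (fun j => Z ^ j * B * Z ^ (M + 1 - j)) (M + 1)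
  have h1 : ∑ j ∈ range (M + 1), (Z ^ (j + 1) * B * Z ^ (M + 1 - (j + 1)) -
      Z ^ j * B * Z ^ (M + 1 - j)) =
      Z * (∑ j ∈ range (M + 1), Z ^ j * B * Z ^ (M - j)) -
      (∑ j ∈ range (M + 1), Z ^ j * B * Z ^ (M - j)) * Z := by
    rw [Finset.mul_sum, Finset.sum_mul, ← Finset.sum_sub_distrib]
    apply Finset.sum_congr rfl
    intro j hj
    simp only [mem_range] at hj
    have e1 : M + 1 - (j + 1) = M - j := by omega
    have e2 : M + 1 - j = (M - j) + 1 := by omega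
    rw [e1, e2, pow_succ Z (M - j), pow_succ' Z j]
    simp only [mul_assoc]
  rw [h1] at h
  simp only [Nat.sub_self, pow_zero, mul_one, Nat.sub_zero, one_mul, hZ, zero_mul, mul_zero,
    sub_zero] at h
  exact (sub_eq_zero.mp h).symm

section Op

variable {H : Type} [NormedAddCommGroup H] [InnerProductSpace ℂ H] [CompleteSpace H]

theorem norm_pow_le_pow (S : H →L[ℂ] H) (i : ℕ) : ‖S ^ i‖ ≤ ‖S‖ ^ i := by
  rcases Nat.eq_zero_or_pos i with h | h
  · subst h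
    rw [pow_zero, pow_zero]; exact (ContinuousLinearMap.norm_id_le : ‖ContinuousLinearMap.id ℂ H‖ ≤ 1)
  · exact norm_pow_le' S h

theorem norm_nat_le (n : ℕ) : ‖((n : ℕ) : H →L[ℂ] H)‖ ≤ (n : ℝ) := by
  have h : ((n : ℕ) : H →L[ℂ] H) = (n : ℂ) • (1 : H →L[ℂ] H) := by
    ext v
    have h1 : ((n : ℕ) : H →L[ℂ] H) v = n • v := by simp
    rw [h1]
    simp only [smul_apply]
    exact (Nat.cast_smul_eq_nsmul ℂ n v).symm
  rw [h]
  calc ‖(n : ℂ) • (1 : H →L[ℂ] H)‖ ≤ ‖(n : ℂ)‖ * ‖(1 : H →L[ℂ] H)‖ := norm_smul_le _ _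
    _ ≤ (n : ℝ) * 1 := by
        have h1 : ‖(n : ℂ)‖ = (n : ℝ) := by simp
        rw [h1]
        exact mul_le_mul_of_nonneg_left ContinuousLinearMap.norm_id_le (Nat.cast_nonneg n)
    _ = n := mul_one _

/-- norm of the powers of `S + t` -/
theorem norm_add_pow (S t : H →L[ℂ] H) (hc : Commute S t) (q : ℕ) (hS : S ^ q = 0)
    (ht : ∀ m : ℕ, ‖t ^ m‖ ≤ 1) (j : ℕ) :
    ‖(S + t) ^ j‖ ≤ ∑ i ∈ range q, (j.choose i : ℝ) * ‖S‖ ^ i := by
  rw [expand S t hc q hS j]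
  refine (norm_sum_le _ _).trans (Finset.sum_le_sum ?_)
  intro i _
  calc ‖S ^ i * t ^ (j - i) * ((j.choose i : ℕ) : H →L[ℂ] H)‖
      ≤ ‖S ^ i‖ * ‖t ^ (j - i)‖ * ‖((j.choose i : ℕ) : H →L[ℂ] H)‖ :=
        (norm_mul_le _ _).trans (mul_le_mul_of_nonneg_right (norm_mul_le _ _) (norm_nonneg _))
    _ ≤ ‖S‖ ^ i * 1 * (j.choose i : ℝ) := by
        apply mul_le_mul _ (norm_nat_le _) (norm_nonneg _) (by positivity)
        exact mul_le_mul (norm_pow_le_pow S i) (ht _) (norm_nonneg _) (by positivity)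
    _ = (j.choose i : ℝ) * ‖S‖ ^ i := by ring

/-- if `O (Z - S)^j v` is large then some `O Z^(j - i) v` with `i < q` is large -/
theorem exists_large (S Z O : H →L[ℂ] H) (hc : Commute S Z) (q : ℕ) (hS : S ^ q = 0)
    (hO : Commute O S) (v : H) (j : ℕ) (ρ Λ : ℝ) (hρ : 0 < ρ) (hΛ0 : 0 < Λ)
    (hΛ : ∑ i ∈ range q, (j.choose i : ℝ) * ‖S‖ ^ i < Λ)
    (h : ρ ≤ ‖O (((Z - S) ^ j) v)‖) :
    ∃ i, i < q ∧ i ≤ j ∧ ρ / Λ ≤ ‖O ((Z ^ (j - i)) v)‖ := by
  by_contra hcon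
  push Not at hcon
  have e0 : Z - S = (-S) + Z := by abel
  have hcn : Commute (-S) Z := hc.neg_left
  have hSn : (-S) ^ q = 0 := by rw [neg_pow, hS, mul_zero]
  have e1 : O (((Z - S) ^ j) v) = ∑ i ∈ range q, ((j.choose i : ℝ) : ℂ) •
      ((-S) ^ i) (O ((Z ^ (j - i)) v)) := by
    rw [e0, expand (-S) Z hcn q hSn j]
    rw [_root_.sum_apply, map_sum]
    apply Finset.sum_congr rfl
    intro i _
    have hOi : Commute O ((-S) ^ i) := hO.neg_right.pow_right i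
    have h1 : (((-S) ^ i * Z ^ (j - i) * ((j.choose i : ℕ) : H →L[ℂ] H)) v) =
        (((j.choose i : ℕ) : ℝ) : ℂ) • (((-S) ^ i) ((Z ^ (j - i)) v)) := by
      have h2 : (((j.choose i : ℕ) : H →L[ℂ] H)) v = (((j.choose i : ℕ) : ℝ) : ℂ) • v := by
        have h4 : ((j.choose i : ℕ) : H →L[ℂ] H) v = (j.choose i) • v := by simp
        rw [h4, Complex.ofReal_natCast]
        exact (Nat.cast_smul_eq_nsmul ℂ (j.choose i) v).symm
      rw [mul_apply_eq_comp, h2, map_smul, mul_apply_eq_comp]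
    rw [h1, map_smul]
    congr 1
    have h3 : (O * (-S) ^ i) ((Z ^ (j - i)) v) = ((-S) ^ i * O) ((Z ^ (j - i)) v) := by
      rw [hOi.eq]
    simpa using h3
  have e2 : ‖O (((Z - S) ^ j) v)‖ ≤ ∑ i ∈ range q, ((j.choose i : ℝ) * ‖S‖ ^ i) * (ρ / Λ) := by
    rw [e1]
    refine (norm_sum_le _ _).trans (Finset.sum_le_sum ?_)
    intro i hi
    simp only [mem_range] at hi
    rw [norm_smul]
    have hn : ‖(((j.choose i : ℕ) : ℝ) : ℂ)‖ = (j.choose i : ℝ) := by simp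
    rw [hn]
    rcases le_or_gt i j with hij | hij
    · have h1 := (hcon i hi hij).le
      have h2 : ‖((-S) ^ i) (O ((Z ^ (j - i)) v))‖ ≤ ‖S‖ ^ i * (ρ / Λ) := by
        refine ((((-S) ^ i)).le_opNorm _).trans ?_
        apply mul_le_mul _ h1 (norm_nonneg _) (by positivity)
        have := norm_pow_le_pow (-S) i
        rwa [norm_neg] at this
      calc (j.choose i : ℝ) * ‖((-S) ^ i) (O ((Z ^ (j - i)) v))‖
          ≤ (j.choose i : ℝ) * (‖S‖ ^ i * (ρ / Λ)) :=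
            mul_le_mul_of_nonneg_left h2 (Nat.cast_nonneg _)
        _ = _ := by ring
    · rw [Nat.choose_eq_zero_of_lt hij]; simp
  rw [← Finset.sum_mul] at e2
  have e3 : (∑ i ∈ range q, (j.choose i : ℝ) * ‖S‖ ^ i) * (ρ / Λ) < Λ * (ρ / Λ) :=
    mul_lt_mul_of_pos_right hΛ (div_pos hρ hΛ0)
  have e4 : Λ * (ρ / Λ) = ρ := by field_simp
  linarith

end Op

/-! ### matrices -/

section Mat

/-- the number `(D+1)^(-1/2)` -/
def rt (D : ℕ) : ℂ := (((Real.sqrt ((D : ℝ) + 1))⁻¹ : ℝ) : ℂ)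

theorem star_rt (D : ℕ) : star (rt D) = rt D := by
  unfold rt
  exact Complex.conj_ofReal _

theorem rt_sq (D : ℕ) : rt D * rt D = ((D : ℂ) + 1)⁻¹ := by
  unfold rt
  rw [← Complex.ofReal_mul, ← mul_inv, Real.mul_self_sqrt (by positivity)]
  push_cast; rfl

theorem oM_apply (D p : ℕ) (a b : Fin (D + 1)) : oM D p a b = if (b : ℕ) = p then rt D else 0 := rfl

theorem tM_apply (D : ℕ) (a b : Fin (D + 1)) : tM D a b = if (a : ℕ) = (b : ℕ) + 1 then 1 else 0 :=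
  rfl

theorem jM_apply (D : ℕ) (a b : Fin (D + 1)) : jM D a b = ((D : ℂ) + 1)⁻¹ := rfl

theorem tM_pow (D j : ℕ) : ∀ a b : Fin (D + 1),
    (tM D ^ j) a b = if (a : ℕ) = (b : ℕ) + j then 1 else 0 := by
  induction j with
  | zero =>
    intro a b
    rw [pow_zero, Matrix.one_apply]
    simp only [add_zero, Fin.ext_iff]
  | succ j ih =>
    intro a b
    rw [pow_succ, Matrix.mul_apply]
    by_cases hb : (b : ℕ) + 1 < D + 1
    · rw [Finset.sum_eq_single (⟨(b : ℕ) + 1, hb⟩ : Fin (D + 1))]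
      · rw [ih, tM_apply]
        simp only [if_true, mul_one]
        by_cases h : (a : ℕ) = (b : ℕ) + 1 + j
        · rw [if_pos h, if_pos (by omega)]
        · rw [if_neg h, if_neg (by omega)]
      · intro c _ hc
        rw [tM_apply, if_neg, mul_zero]
        intro h
        exact hc (Fin.ext h)
      · intro h; exact absurd (Finset.mem_univ _) h
    · have ha := a.2
      rw [if_neg (by omega)]
      apply Finset.sum_eq_zero
      intro c _
      have hc := c.2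
      rw [tM_apply, if_neg (by omega), mul_zero]

theorem tM_pow_zero (D j : ℕ) (hj : D + 1 ≤ j) : tM D ^ j = 0 := by
  ext a b
  have ha := a.2
  rw [tM_pow, if_neg (by omega)]
  rfl

theorem oM_mul_tM (D p : ℕ) (hp : p + 1 ≤ D) : oM D (p + 1) * tM D = oM D p := by
  ext a b
  rw [Matrix.mul_apply, Finset.sum_eq_single (⟨p + 1, by omega⟩ : Fin (D + 1))]
  · rw [oM_apply, oM_apply, tM_apply]
    simp only [if_true]
    by_cases h : (b : ℕ) = p
    · rw [if_pos h, if_pos (by omega), mul_one]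
    · rw [if_neg h, if_neg (by omega), mul_zero]
  · intro c _ hc
    rw [oM_apply, if_neg, zero_mul]
    intro h
    exact hc (Fin.ext h)
  · intro h; exact absurd (Finset.mem_univ _) h

theorem oM_mul_tMH (D p : ℕ) : oM D p * star (tM D) = oM D (p + 1) := by
  ext a b
  rw [Matrix.mul_apply]
  by_cases hp : p < D + 1
  · rw [Finset.sum_eq_single (⟨p, hp⟩ : Fin (D + 1))]
    · rw [oM_apply, oM_apply, Matrix.star_apply, tM_apply]
      simp only [if_true]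
      by_cases h : (b : ℕ) = p + 1
      · rw [if_pos h, star_one, mul_one, if_pos h]
      · rw [if_neg h, star_zero, mul_zero, if_neg h]
    · intro c _ hc
      rw [oM_apply, if_neg, zero_mul]
      intro h
      exact hc (Fin.ext h)
    · intro h; exact absurd (Finset.mem_univ _) h
  · have hb := b.2
    rw [oM_apply, if_neg (by omega)]
    apply Finset.sum_eq_zero
    intro c _
    have hc := c.2
    rw [oM_apply, if_neg (by omega), zero_mul]

theorem oM_mul_jM (D p : ℕ) (hp : p ≤ D) : oM D p * jM D = rt D • jM D := by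
  ext a b
  rw [Matrix.mul_apply, Finset.sum_eq_single (⟨p, by omega⟩ : Fin (D + 1))]
  · rw [oM_apply, Matrix.smul_apply, jM_apply, jM_apply]
    simp only [if_true, smul_eq_mul]
  · intro c _ hc
    rw [oM_apply, if_neg, zero_mul]
    intro h
    exact hc (Fin.ext h)
  · intro h; exact absurd (Finset.mem_univ _) h

theorem cast_ne (D : ℕ) : ((D : ℂ) + 1) ≠ 0 := by
  exact_mod_cast Nat.succ_ne_zero D

theorem jM_mul_oM (D p : ℕ) : jM D * oM D p = oM D p := by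
  ext a b
  rw [Matrix.mul_apply]
  simp only [oM_apply, jM_apply]
  rw [Finset.sum_const, Finset.card_univ, Fintype.card_fin, nsmul_eq_mul]
  have := cast_ne D
  push_cast
  field_simp

theorem oM_star_mul (D p : ℕ) (a b : Fin (D + 1)) : (star (oM D p) * oM D p) a b =
    if (a : ℕ) = p ∧ (b : ℕ) = p then 1 else 0 := by
  rw [Matrix.mul_apply]
  simp only [Matrix.star_apply, oM_apply]
  rw [Finset.sum_const, Finset.card_univ, Fintype.card_fin, nsmul_eq_mul]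
  by_cases h1 : (a : ℕ) = p
  · by_cases h2 : (b : ℕ) = p
    · rw [if_pos h1, if_pos h2, if_pos ⟨h1, h2⟩, star_rt, rt_sq]
      have := cast_ne D
      push_cast
      field_simp
    · have h3 : ¬ ((a : ℕ) = p ∧ (b : ℕ) = p) := fun h => h2 h.2
      rw [if_neg h2, if_neg h3, mul_zero, mul_zero]
  · have h3 : ¬ ((a : ℕ) = p ∧ (b : ℕ) = p) := fun h => h1 h.1
    rw [if_neg h1, if_neg h3, star_zero, zero_mul, mul_zero]

theorem sum_oM (D : ℕ) : ∑ p ∈ range (D + 1), star (oM D p) * oM D p = 1 := by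
  ext a b
  rw [Matrix.sum_apply]
  simp only [oM_star_mul]
  rw [Matrix.one_apply]
  by_cases h : a = b
  · subst h
    rw [if_pos rfl, Finset.sum_eq_single (a : ℕ)]
    · simp
    · intro p _ hp
      rw [if_neg (fun h => hp h.1.symm)]
    · intro h
      exact absurd (mem_range.mpr a.2) h
  · rw [if_neg h]
    apply Finset.sum_eq_zero
    intro p _
    rw [if_neg]
    rintro ⟨h1, h2⟩
    exact h (Fin.ext (h1.trans h2.symm))

theorem oM_tM_pow (D j : ℕ) (hj : j ≤ D) : oM D D * tM D ^ j = oM D (D - j) := by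
  induction j with
  | zero => simp
  | succ j ih =>
    rw [pow_succ, ← mul_assoc, ih (by omega)]
    have e : D - j = (D - (j + 1)) + 1 := by omega
    rw [e]
    exact oM_mul_tM D (D - (j + 1)) (by omega)

theorem oM_tMH_pow (D p : ℕ) : oM D 0 * star (tM D) ^ p = oM D p := by
  induction p with
  | zero => simp
  | succ p ih => rw [pow_succ, ← mul_assoc, ih, oM_mul_tMH]

end Mat

/-! ### systems -/

section SysF

variable {D : ℕ → ℕ} {η : ℕ → ℝ} {H : Type} [NormedAddCommGroup H] [InnerProductSpace ℂ H]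
  [CompleteSpace H] (s : Sys D η H)

theorem comm_Tn (n i : ℕ) (hi : n ≤ i) (A : Mt (D i)) : Commute (s.Tn n) (s.π i A) := by
  unfold Sys.Tn
  apply Commute.sum_left
  intro j hj
  simp only [mem_range] at hj
  exact (s.comm j i (by omega) _ _).smul_left _

theorem comm_Tn_P (n N : ℕ) (hN : n ≤ N) : Commute (s.Tn n) (s.P N) := by
  unfold Sys.Tn
  apply Commute.sum_left
  intro j hj
  simp only [mem_range] at hj
  exact ((s.P_comm N j (by omega) _).symm).smul_left _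

theorem Tn_succ (n : ℕ) : s.Tn (n + 1) = s.Tn n + (η n : ℂ) • s.π n (tM (D n)) := by
  unfold Sys.Tn
  rw [Finset.sum_range_succ]

theorem Tn_pow (n : ℕ) : s.Tn n ^ (1 + ∑ i ∈ range n, D i) = 0 := by
  induction n with
  | zero => simp [Sys.Tn]
  | succ n ih =>
    rw [Tn_succ]
    have h1 : ((η n : ℂ) • s.π n (tM (D n))) ^ (D n + 1) = 0 := by
      rw [smul_pow, ← map_pow, tM_pow_zero _ _ le_rfl, map_zero, smul_zero]
    have h2 : Commute (s.Tn n) ((η n : ℂ) • s.π n (tM (D n))) :=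
      (comm_Tn s n n le_rfl _).smul_right _
    apply h2.add_pow_eq_zero_of_add_le_succ_of_pow_eq_zero ih h1
    rw [Finset.sum_range_succ]
    omega

theorem norm_Tn (hNRM : Stmt_NRM) (h0 : ∀ i, 0 < η i) (h1 : ∀ i, η i ≤ (1 / 2) ^ i) (n : ℕ) :
    ‖s.Tn n‖ ≤ 2 := by
  unfold Sys.Tn
  have h2 : ∀ i, ‖(η i : ℂ) • s.π i (tM (D i))‖ ≤ (1 / 2 : ℝ) ^ i := by
    intro i
    have h3 := (hNRM D η H s i).2.1
    calc ‖(η i : ℂ) • s.π i (tM (D i))‖ ≤ ‖(η i : ℂ)‖ * ‖s.π i (tM (D i))‖ := norm_smul_le _ _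
      _ ≤ (1 / 2 : ℝ) ^ i * 1 := by
          apply mul_le_mul _ h3 (norm_nonneg _) (by positivity)
          rw [Complex.norm_real, Real.norm_eq_abs, abs_of_pos (h0 i)]
          exact h1 i
      _ = _ := mul_one _
  calc ‖∑ i ∈ range n, (η i : ℂ) • s.π i (tM (D i))‖
      ≤ ∑ i ∈ range n, ‖(η i : ℂ) • s.π i (tM (D i))‖ := norm_sum_le _ _
    _ ≤ ∑ i ∈ range n, (1 / 2 : ℝ) ^ i := Finset.sum_le_sum (fun i _ => h2 i)
    _ ≤ 2 := sum_geometric_two_le n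

theorem comm_tail (n : ℕ) (Y : H →L[ℂ] H) (h : ∀ i, n ≤ i → ∀ A, Commute Y (s.π i A)) :
    Commute Y (s.T - s.Tn n) := by
  have h1 : HasSum (fun i => (η (i + n) : ℂ) • s.π (i + n) (tM (D (i + n)))) (s.T - s.Tn n) := by
    have h2 := (hasSum_nat_add_iff' (f := fun i => (η i : ℂ) • s.π i (tM (D i))) n).mpr s.hasSum
    exact h2
  have h2 := h1.mul_left Y
  have h3 := h1.mul_right Y
  have h4 : (fun i => Y * ((η (i + n) : ℂ) • s.π (i + n) (tM (D (i + n))))) =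
      (fun i => ((η (i + n) : ℂ) • s.π (i + n) (tM (D (i + n)))) * Y) := by
    funext i
    exact ((h (i + n) (by omega) _).smul_right _).eq
  rw [h4] at h2
  exact h2.unique h3

/-- Parseval for the components at the site `l` -/
theorem sum_comp (l : ℕ) (v : H) :
    ∑ p ∈ range (D l + 1), ‖s.π l (oM (D l) p) v‖ ^ 2 = ‖v‖ ^ 2 := by
  have h1 : ∀ p, ((‖s.π l (oM (D l) p) v‖ ^ 2 : ℝ) : ℂ) =
      inner ℂ v ((s.π l (star (oM (D l) p) * oM (D l) p)) v) := by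
    intro p
    rw [map_mul, map_star, mul_apply_eq_comp, ContinuousLinearMap.star_eq_adjoint,
      ContinuousLinearMap.adjoint_inner_right, inner_self_eq_norm_sq_to_K]
    push_cast; rfl
  have h2 : ((∑ p ∈ range (D l + 1), ‖s.π l (oM (D l) p) v‖ ^ 2 : ℝ) : ℂ) =
      ((‖v‖ ^ 2 : ℝ) : ℂ) := by
    rw [Complex.ofReal_sum, Finset.sum_congr rfl (fun p _ => h1 p), ← inner_sum]
    rw [← _root_.sum_apply, ← map_sum, sum_oM, map_one]
    simp only [one_apply_eq_self]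
    rw [inner_self_eq_norm_sq_to_K]
    push_cast; rfl
  exact_mod_cast h2

theorem norm_comp_le (l p : ℕ) (v : H) (hp : p ≤ D l) : ‖s.π l (oM (D l) p) v‖ ≤ ‖v‖ := by
  have h := sum_comp s l v
  have h1 : ‖s.π l (oM (D l) p) v‖ ^ 2 ≤ ‖v‖ ^ 2 := by
    rw [← h]
    exact Finset.single_le_sum (f := fun p => ‖s.π l (oM (D l) p) v‖ ^ 2)
      (fun _ _ => by positivity) (mem_range.mpr (by omega))
  exact (sq_le_sq₀ (norm_nonneg _) (norm_nonneg _)).mp h1

theorem norm_oM_le (l p : ℕ) (hp : p ≤ D l) : ‖s.π l (oM (D l) p)‖ ≤ 1 := by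
  apply ContinuousLinearMap.opNorm_le_bound _ zero_le_one
  intro v
  rw [one_mul]
  exact norm_comp_le s l p v hp

theorem P_comp (l p : ℕ) (v : H) (hv : s.P (l + 1) v = v) :
    s.P l (s.π l (oM (D l) p) v) = s.π l (oM (D l) p) v := by
  rw [s.P_step l, mul_apply_eq_comp, ← mul_apply_eq_comp (s.π l (jM (D l))), ← map_mul, jM_mul_oM]
  have h := s.P_comm (l + 1) l (by omega) (oM (D l) p)
  have h2 : (s.P (l + 1) * s.π l (oM (D l) p)) v = (s.π l (oM (D l) p) * s.P (l + 1)) v := by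
    rw [h.eq]
  rw [mul_apply_eq_comp, mul_apply_eq_comp, hv] at h2
  exact h2

theorem comp_flat (hNRM : Stmt_NRM) (l p : ℕ) (hp : p ≤ D l) (x : H) (hx : s.P l x = x) :
    s.π l (oM (D l) p) x = rt (D l) • x := by
  have h1 : s.π l (jM (D l)) x = x := by
    have h := (hNRM D η H s l).2.2.2.2.2.2.1 l l le_rfl
    have h2 : (s.π l (jM (D l)) * s.P l) x = s.P l x := by rw [h]
    rwa [mul_apply_eq_comp, hx] at h2
  have h3 : (s.π l (oM (D l) p)) (s.π l (jM (D l)) x) = rt (D l) • x := by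
    rw [← mul_apply_eq_comp (s.π l (oM (D l) p)), ← map_mul, oM_mul_jM _ _ hp, map_smul,
      smul_apply, h1]
  rwa [h1] at h3

end SysF

section Main

variable {D : ℕ → ℕ} {η : ℕ → ℝ} {H : Type} [NormedAddCommGroup H] [InnerProductSpace ℂ H]
  [CompleteSpace H] (s : Sys D η H)

theorem norm_rt (n : ℕ) : ‖rt n‖ = (Real.sqrt ((n : ℝ) + 1))⁻¹ := by
  unfold rt
  rw [Complex.norm_real, Real.norm_eq_abs, abs_of_nonneg (by positivity)]

theorem inner_sum_formula (l : ℕ) (Z F : H →L[ℂ] H) (α y w z : H)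
    (hF1 : ∀ A, Commute F (s.π l A))
    (hF2 : ∀ v, s.P l v = v → F v = (inner ℂ z v : ℂ) • w)
    (hγP : ∀ j : ℕ, s.P l (s.π l (oM (D l) (D l)) ((Z ^ j) y)) =
      s.π l (oM (D l) (D l)) ((Z ^ j) y)) (M : ℕ) :
    (inner ℂ α ((∑ j ∈ range (M + 1), Z ^ j *
      (F * s.π l (star (oM (D l) 0) * oM (D l) (D l))) * Z ^ (M - j)) y) : ℂ) =
    ∑ j ∈ range (M + 1), (inner ℂ (s.π l (oM (D l) 0) ((star Z ^ j) α)) w : ℂ) *
      (inner ℂ z (s.π l (oM (D l) (D l)) ((Z ^ (M - j)) y)) : ℂ) := by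
  rw [_root_.sum_apply, inner_sum]
  apply Finset.sum_congr rfl
  intro j _
  set g : H := s.π l (oM (D l) (D l)) ((Z ^ (M - j)) y) with hg
  have e1 : (Z ^ j * (F * s.π l (star (oM (D l) 0) * oM (D l) (D l))) * Z ^ (M - j)) y =
      (Z ^ j) (s.π l (star (oM (D l) 0)) (F g)) := by
    have h1 := (hF1 (star (oM (D l) 0))).eq
    rw [mul_apply_eq_comp, mul_apply_eq_comp, map_mul, ← mul_assoc F, h1, mul_apply_eq_comp,
      mul_apply_eq_comp]
  rw [e1, hF2 g (hγP (M - j))]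
  have e2 : (inner ℂ α ((Z ^ j) (s.π l (star (oM (D l) 0)) ((inner ℂ z g : ℂ) • w))) : ℂ) =
      inner ℂ (s.π l (oM (D l) 0) ((star Z ^ j) α)) ((inner ℂ z g : ℂ) • w) := by
    rw [map_star, ContinuousLinearMap.star_eq_adjoint, ← star_pow,
      ContinuousLinearMap.star_eq_adjoint]
    rw [← ContinuousLinearMap.adjoint_inner_left (Z ^ j)]
    rw [ContinuousLinearMap.adjoint_inner_right]
  rw [e2, inner_smul_right]
  ring

/-- a large component of a vector near a flat vector -/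
theorem exists_comp (hNRM : Stmt_NRM) (l f : ℕ) (hD : D l = 4096 * f) (u x0 : H)
    (hx0 : s.P l x0 = x0) (hx : 1 / 2 ≤ ‖x0‖) (hu : ‖u - x0‖ ≤ 5 / 2048) (g : ℕ → ℕ)
    (hg : ∀ i, i ≤ f → g i ≤ D l) (hinj : ∀ i j, i ≤ f → j ≤ f → g i = g j → i = j) :
    ∃ i, i ≤ f ∧ (4 * Real.sqrt ((D l : ℝ) + 1))⁻¹ ≤ ‖s.π l (oM (D l) (g i)) u‖ := by
  by_contra hcon
  push Not at hcon
  set r : ℝ := Real.sqrt ((D l : ℝ) + 1) with hr
  have hrpos : 0 < r := Real.sqrt_pos.mpr (by positivity)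
  have hr2 : r ^ 2 = (D l : ℝ) + 1 := Real.sq_sqrt (by positivity)
  have h1 : ∀ i, i ≤ f → (4 * r)⁻¹ ≤ ‖s.π l (oM (D l) (g i)) (u - x0)‖ := by
    intro i hi
    have h2 := hcon i hi
    have h3 := comp_flat s hNRM l (g i) (hg i hi) x0 hx0
    have h4 : ‖s.π l (oM (D l) (g i)) x0‖ = r⁻¹ * ‖x0‖ := by
      rw [h3, norm_smul, norm_rt]
    have h5 : r⁻¹ * (1 / 2) ≤ r⁻¹ * ‖x0‖ :=
      mul_le_mul_of_nonneg_left hx (by positivity)
    have h6 : ‖s.π l (oM (D l) (g i)) x0‖ - ‖s.π l (oM (D l) (g i)) u‖ ≤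
        ‖s.π l (oM (D l) (g i)) (u - x0)‖ := by
      rw [map_sub, norm_sub_rev]
      exact norm_sub_norm_le _ _
    have h7 : (4 * r)⁻¹ = r⁻¹ / 4 := by rw [mul_inv]; ring
    rw [h7] at h2 ⊢
    linarith
  have h2 : ∑ i ∈ range (f + 1), ‖s.π l (oM (D l) (g i)) (u - x0)‖ ^ 2 ≤ ‖u - x0‖ ^ 2 := by
    rw [← sum_comp s l (u - x0)]
    have h3 : ∑ i ∈ range (f + 1), ‖s.π l (oM (D l) (g i)) (u - x0)‖ ^ 2 =
        ∑ p ∈ (range (f + 1)).image g, ‖s.π l (oM (D l) p) (u - x0)‖ ^ 2 := by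
      rw [Finset.sum_image]
      intro i hi j hj hij
      have hi' := mem_range.mp (Finset.mem_coe.mp hi)
      have hj' := mem_range.mp (Finset.mem_coe.mp hj)
      exact hinj i j (by omega) (by omega) hij
    rw [h3]
    apply Finset.sum_le_sum_of_subset_of_nonneg
    · intro p hp
      rw [Finset.mem_image] at hp
      obtain ⟨i, hi, rfl⟩ := hp
      have := mem_range.mp hi
      exact mem_range.mpr (Nat.lt_succ_of_le (hg i (by omega)))
    · intro _ _ _; positivity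
  have h3 : ((f : ℝ) + 1) * ((4 * r)⁻¹) ^ 2 ≤
      ∑ i ∈ range (f + 1), ‖s.π l (oM (D l) (g i)) (u - x0)‖ ^ 2 := by
    have h4 : ∑ _i ∈ range (f + 1), ((4 * r)⁻¹) ^ 2 ≤
        ∑ i ∈ range (f + 1), ‖s.π l (oM (D l) (g i)) (u - x0)‖ ^ 2 := by
      apply Finset.sum_le_sum
      intro i hi
      have := mem_range.mp hi
      exact pow_le_pow_left₀ (by positivity) (h1 i (by omega)) 2
    rw [Finset.sum_const, card_range, nsmul_eq_mul] at h4
    push_cast at h4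
    exact h4
  have h4 : ‖u - x0‖ ^ 2 ≤ (5 / 2048) ^ 2 := pow_le_pow_left₀ (norm_nonneg _) hu 2
  have h5 : ((4 * r)⁻¹) ^ 2 = (16 * ((D l : ℝ) + 1))⁻¹ := by
    rw [inv_pow, mul_pow, hr2]; norm_num
  have h6 : ((f : ℝ) + 1) * (16 * ((D l : ℝ) + 1))⁻¹ ≤ (5 / 2048) ^ 2 := by
    rw [← h5]; linarith
  rw [hD] at h6
  push_cast at h6
  rw [mul_inv_le_iff₀ (by positivity)] at h6
  have hf : (0 : ℝ) ≤ (f : ℝ) := Nat.cast_nonneg f
  nlinarith

end Main

theorem nat1 (a q j : ℕ) (h : a + q - 1 < j) : a + q ≤ j := by omega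

theorem nat2 (a b q n0 M : ℕ) (hq : 1 ≤ q) (h : n0 ≤ b + q - 1)
    (hM : M = (a + q - 1) + (b + q - 1) - n0) : a + q ≤ M + 1 := by omega

theorem nat3 (a f q n0 M : ℕ) (hq : 1 ≤ q) (ha : a = 4096 * f)
    (hM : M = (a + q - 1) + (2048 * f + q - 1) - n0) : M + 1 ≤ 2 * a + 2 * q := by omega

theorem nat4 (a f q n0 : ℕ) (ha : a = 4096 * f) (h : n0 ≤ 2048 * f + q - 1) :
    n0 ≤ a + q - 1 := by omega

theorem conv_sum (F G : ℕ → ℂ) (A B n0 M : ℕ) (hA : ∀ j, A < j → F j = 0)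
    (hB : ∀ j, B < j → G j = 0) (h0 : n0 ≤ A) (h1 : n0 ≤ B) (hM : M = A + B - n0) :
    ∑ j ∈ range (M + 1), F j * G (M - j) =
      ∑ k ∈ range (n0 + 1), F (A - k) * G (B - (n0 - k)) := by
  symm
  apply Finset.sum_of_injOn (fun k => A - k)
  · intro a ha b hb hab
    have ha2 := mem_range.mp (Finset.mem_coe.mp ha)
    have hb2 := mem_range.mp (Finset.mem_coe.mp hb)
    have hab' : A - a = A - b := hab
    omega
  · intro a ha
    have ha2 := mem_range.mp (Finset.mem_coe.mp ha)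
    have h : A - a < M + 1 := by omega
    exact Finset.mem_coe.mpr (mem_range.mpr h)
  · intro j hj hj'
    have hj2 := mem_range.mp hj
    rcases Nat.lt_or_ge A j with h | h
    · rw [hA j h, zero_mul]
    · have h2 : B < M - j := by
        by_contra h3
        apply hj'
        refine ⟨A - j, ?_, ?_⟩
        · have h4 : A - j < n0 + 1 := by omega
          exact Finset.mem_coe.mpr (mem_range.mpr h4)
        · show A - (A - j) = j
          omega
      rw [hB _ h2, mul_zero]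
  · intro k hk
    have hk2 := mem_range.mp hk
    have e1 : M - (A - k) = B - (n0 - k) := by omega
    show F (A - k) * G (B - (n0 - k)) = F (A - k) * G (M - (A - k))
    rw [e1]

section Core

variable {D : ℕ → ℕ} {η : ℕ → ℝ} {H : Type} [NormedAddCommGroup H] [InnerProductSpace ℂ H]
  [CompleteSpace H]

/-- Lemma Q with explicit numerical hypotheses -/
theorem core (hNRM : Stmt_NRM) (hLEMN : Stmt_LEMN) (s : Sys D η H) (l f q : ℕ) (e Λ p : ℝ)
    (he : 0 < e) (hη0 : ∀ i, 0 < η i) (hη1 : ∀ i, η i ≤ (1 / 2) ^ i)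
    (hq : q = 1 + ∑ i ∈ range l, D i) (hle : η l = e) (hD : D l = 4096 * f)
    (u α x0 φ0 : H) (hu : s.P (l + 1) u = u) (hα : s.P (l + 1) α = α) (hx0 : s.P l x0 = x0)
    (hφ0 : s.P l φ0 = φ0) (hx0n : 1 / 2 ≤ ‖x0‖) (hφ0n : 1 / 2 ≤ ‖φ0‖) (hux : ‖u - x0‖ ≤ 5 / 2048)
    (hαφ : ‖α - φ0‖ ≤ 5 / 2048) (hun : ‖u‖ ≤ 2) (hαn : ‖α‖ ≤ 2)
    (hΛ1 : 1 ≤ Λ)
    (hΛ : ∀ n, n ≤ D l + q → ∑ i ∈ range q, (n.choose i : ℝ) * (2 / e) ^ i < Λ)
    (hp : p = (4 * Real.sqrt ((D l : ℝ) + 1))⁻¹ / Λ / (2 * Λ))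
    (ha : 2 * 8 ^ (4 * (f + 2 * q)) ≤ p * p * 8 ^ (5 * (f + 2 * q)))
    (hb : 5 * (f + 2 * q) ≤ 2048 * f + q - 1)
    (hc : (2 * (D l : ℝ) + 2 * q) * (64 ^ (2 * (f + 2 * q)) * 4 ^ (5 * (f + 2 * q))) ≤
      p * p * Real.exp (32 * (f : ℝ))) :
    ∃ Φ ∈ s.Cn (l + 1), Φ ≠ 0 ∧ Real.exp (-(32 * (f : ℝ))) * ‖Φ‖ ≤
        ‖(inner ℂ α (Φ (s.π l (tM (D l) ^ (2048 * f)) u)) : ℂ)‖ := by
  have hq1 : 1 ≤ q := by omega
  have hΛ0 : (0 : ℝ) < Λ := by linarith
  -- the operators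
  obtain ⟨S, hSdef⟩ : ∃ S : H →L[ℂ] H, S = ((e : ℂ)⁻¹) • s.Tn l := ⟨_, rfl⟩
  obtain ⟨t, htdef⟩ : ∃ t : H →L[ℂ] H, t = s.π l (tM (D l)) := ⟨_, rfl⟩
  obtain ⟨Z, hZdef⟩ : ∃ Z : H →L[ℂ] H, Z = S + t := ⟨_, rfl⟩
  have hec : (e : ℂ) ≠ 0 := by exact_mod_cast he.ne'
  have hS : S ^ q = 0 := by
    rw [hSdef, smul_pow, hq, Tn_pow s l, smul_zero]
  have hSn : ‖S‖ ≤ 2 / e := by
    rw [hSdef]
    calc ‖((e : ℂ)⁻¹) • s.Tn l‖ ≤ ‖((e : ℂ)⁻¹)‖ * ‖s.Tn l‖ := norm_smul_le _ _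
      _ ≤ e⁻¹ * 2 := by
          apply mul_le_mul _ (norm_Tn s hNRM hη0 hη1 l) (norm_nonneg _) (by positivity)
          rw [norm_inv, Complex.norm_real, Real.norm_eq_abs, abs_of_pos he]
      _ = 2 / e := by ring
  have hSπ : ∀ i, l ≤ i → ∀ A, Commute S (s.π i A) := by
    intro i hi A
    rw [hSdef]
    exact (comm_Tn s l i hi A).smul_left _
  have hSP : ∀ N, l ≤ N → Commute S (s.P N) := by
    intro N hN
    rw [hSdef]
    exact (comm_Tn_P s l N hN).smul_left _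
  have hSt : Commute S t := by rw [htdef]; exact hSπ l le_rfl _
  have hSZ : Commute S Z := by rw [hZdef]; exact (Commute.refl S).add_right hSt
  have htZ : Commute t Z := by rw [hZdef]; exact hSt.symm.add_right (Commute.refl t)
  have htn : ∀ m : ℕ, ‖t ^ m‖ ≤ 1 := by
    intro m
    rw [htdef, ← map_pow]
    exact (hNRM D η H s l).2.2.1 m
  have htz : ∀ m, D l + 1 ≤ m → t ^ m = 0 := by
    intro m hm
    rw [htdef, ← map_pow, tM_pow_zero _ _ hm, map_zero]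
  -- powers of Z
  have hsum : ∀ (X : H →L[ℂ] H) (_ : ‖X‖ ≤ 2 / e) (n : ℕ), n ≤ D l + q →
      ∑ i ∈ range q, (n.choose i : ℝ) * ‖X‖ ^ i < Λ := by
    intro X hX n hn
    refine lt_of_le_of_lt (Finset.sum_le_sum ?_) (hΛ n hn)
    intro i _
    exact mul_le_mul_of_nonneg_left (pow_le_pow_left₀ (norm_nonneg _) hX i) (Nat.cast_nonneg _)
  have hZ0 : ∀ j k, D l + q ≤ j + k → Z ^ j * t ^ k = 0 := by
    intro j k hjk
    rw [hZdef, expand S t hSt q hS j, Finset.sum_mul]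
    apply Finset.sum_eq_zero
    intro i hi
    have hi' := mem_range.mp hi
    rcases le_or_gt i j with hij | hij
    · have h1 : (j.choose i : H →L[ℂ] H) * t ^ k = t ^ k * (j.choose i : H →L[ℂ] H) :=
        (Nat.cast_commute _ _).eq
      rw [mul_assoc, h1, ← mul_assoc, mul_assoc (S ^ i), ← pow_add, htz _ (by omega), mul_zero,
        zero_mul]
    · rw [Nat.choose_eq_zero_of_lt hij]; simp
  have hZz : ∀ j, D l + q ≤ j → Z ^ j = 0 := by
    intro j hj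
    have := hZ0 j 0 (by omega)
    rwa [pow_zero, mul_one] at this
  have hZn : ∀ j : ℕ, ‖Z ^ j‖ ≤ Λ := by
    intro j
    rcases le_or_gt j (D l + q) with h | h
    · rw [hZdef]
      exact (norm_add_pow S t hSt q hS htn j).trans (hsum S hSn j h).le
    · rw [hZz j (by omega), norm_zero]; exact hΛ0.le
  have hZP : ∀ N, l + 1 ≤ N → Commute Z (s.P N) := by
    intro N hN
    rw [hZdef]
    apply (hSP N (by omega)).add_left
    rw [htdef]
    exact (s.P_comm N l (by omega) _).symm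
  -- the vectors
  obtain ⟨y, hydef⟩ : ∃ y : H, y = s.π l (tM (D l) ^ (2048 * f)) u := ⟨_, rfl⟩
  have hyt : y = (t ^ (2048 * f)) u := by rw [hydef, htdef, map_pow]
  have hyn : ‖y‖ ≤ 2 := by
    rw [hyt]
    calc ‖(t ^ (2048 * f)) u‖ ≤ ‖t ^ (2048 * f)‖ * ‖u‖ := ContinuousLinearMap.le_opNorm _ _
      _ ≤ 1 * 2 := mul_le_mul (htn _) hun (norm_nonneg _) zero_le_one
      _ = 2 := one_mul _
  have hyP : s.P (l + 1) y = y := by
    have h1 := s.P_comm (l + 1) l (by omega) (tM (D l) ^ (2048 * f))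
    have h2 : (s.P (l + 1) * s.π l (tM (D l) ^ (2048 * f))) u =
      (s.π l (tM (D l) ^ (2048 * f)) * s.P (l + 1)) u := by rw [h1.eq]
    rw [mul_apply_eq_comp, mul_apply_eq_comp, hu, ← hydef] at h2
    exact h2
  obtain ⟨γ, hγdef⟩ : ∃ γ : ℕ → H, γ = fun j => s.π l (oM (D l) (D l)) ((Z ^ j) y) := ⟨_, rfl⟩
  obtain ⟨β, hβdef⟩ : ∃ β : ℕ → H, β = fun j => s.π l (oM (D l) 0) ((star Z ^ j) α) := ⟨_, rfl⟩
  have hγn : ∀ j, ‖γ j‖ ≤ 2 * Λ := by
    intro j
    rw [hγdef]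
    refine (norm_comp_le s l _ _ le_rfl).trans ?_
    calc ‖(Z ^ j) y‖ ≤ ‖Z ^ j‖ * ‖y‖ := ContinuousLinearMap.le_opNorm _ _
      _ ≤ Λ * 2 := mul_le_mul (hZn j) hyn (norm_nonneg _) hΛ0.le
      _ = 2 * Λ := mul_comm _ _
  have hβn : ∀ j, ‖β j‖ ≤ 2 * Λ := by
    intro j
    rw [hβdef]
    refine (norm_comp_le s l _ _ (Nat.zero_le _)).trans ?_
    calc ‖(star Z ^ j) α‖ ≤ ‖star Z ^ j‖ * ‖α‖ := ContinuousLinearMap.le_opNorm _ _
      _ ≤ Λ * 2 := by
          apply mul_le_mul _ hαn (norm_nonneg _) hΛ0.le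
          rw [← star_pow, norm_star]; exact hZn j
      _ = 2 * Λ := mul_comm _ _
  have hγz : ∀ j, 2048 * f + q ≤ j → γ j = 0 := by
    intro j hj
    rw [hγdef]
    simp only
    rw [hyt, ← mul_apply_eq_comp (Z ^ j), hZ0 j (2048 * f) (by omega)]
    simp
  have hβz : ∀ j, D l + q ≤ j → β j = 0 := by
    intro j hj
    rw [hβdef]
    simp only
    rw [← star_pow, hZz j hj]
    simp
  have hγP : ∀ j, s.P l (γ j) = γ j := by
    intro j
    rw [hγdef]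
    apply P_comp
    have h1 := ((hZP (l + 1) le_rfl).pow_left j).eq
    have h2 : (Z ^ j * s.P (l + 1)) y = (s.P (l + 1) * Z ^ j) y := by rw [h1]
    rw [mul_apply_eq_comp, mul_apply_eq_comp, hyP] at h2
    exact h2.symm
  have hZsP : Commute (star Z) (s.P (l + 1)) := by
    have h1 := (hZP (l + 1) le_rfl).star_star
    rwa [(s.P_star (l + 1)).star_eq] at h1
  have hβP : ∀ j, s.P l (β j) = β j := by
    intro j
    rw [hβdef]
    apply P_comp
    have h1 := (hZsP.pow_left j).eq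
    have h2 : (star Z ^ j * s.P (l + 1)) α = (s.P (l + 1) * star Z ^ j) α := by rw [h1]
    rw [mul_apply_eq_comp, mul_apply_eq_comp, hα] at h2
    exact h2.symm
  -- large components
  obtain ⟨ρ, hρdef⟩ : ∃ ρ : ℝ, ρ = (4 * Real.sqrt ((D l : ℝ) + 1))⁻¹ := ⟨_, rfl⟩
  have hρ : 0 < ρ := by
    rw [hρdef]
    have : 0 < Real.sqrt ((D l : ℝ) + 1) := Real.sqrt_pos.mpr (by positivity)
    positivity
  obtain ⟨i1, hi1, hi1'⟩ := exists_comp s hNRM l f hD u x0 hx0 hx0n hux (fun i => i)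
    (fun i hi => by omega) (fun i j _ _ h => h)
  obtain ⟨i2, hi2, hi2'⟩ := exists_comp s hNRM l f hD α φ0 hφ0 hφ0n hαφ (fun i => D l - i)
    (fun i hi => by omega) (fun i j h1 h2 h => by
      have h3 : D l - i = D l - j := h
      omega)
  rw [← hρdef] at hi1' hi2'
  have hOS : ∀ m, Commute (s.π l (oM (D l) m)) S := fun m => (hSπ l le_rfl _).symm
  have hj1 : ∃ j, j ≤ 2048 * f ∧ 2048 * f + q - 1 - j ≤ f + 2 * q ∧ ρ / Λ ≤ ‖γ j‖ := by
    have h1 : s.π l (oM (D l) (D l)) (((Z - S) ^ (2048 * f - i1)) y) =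
        s.π l (oM (D l) i1) u := by
      have h2 : Z - S = t := by rw [hZdef]; abel
      rw [h2, hyt, ← mul_apply_eq_comp (t ^ (2048 * f - i1)), ← pow_add, htdef, ← map_pow,
        ← mul_apply_eq_comp, ← map_mul, oM_tM_pow _ _ (by omega)]
      congr 3
      omega
    obtain ⟨i, hi, hij, hi3⟩ := exists_large S Z (s.π l (oM (D l) (D l))) hSZ q hS (hOS _) y
      (2048 * f - i1) ρ Λ hρ hΛ0 (hsum S hSn _ (by omega)) (by rw [h1]; exact hi1')
    refine ⟨2048 * f - i1 - i, by omega, by omega, ?_⟩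
    rw [hγdef]
    exact hi3
  have hj2 : ∃ j, j ≤ D l ∧ D l + q - 1 - j ≤ f + 2 * q ∧ ρ / Λ ≤ ‖β j‖ := by
    have h1 : s.π l (oM (D l) 0) (((star Z - star S) ^ (D l - i2)) α) =
        s.π l (oM (D l) (D l - i2)) α := by
      have h2 : star Z - star S = star t := by rw [hZdef, star_add]; abel
      rw [h2, htdef, ← map_star, ← map_pow, ← mul_apply_eq_comp, ← map_mul, oM_tMH_pow]
    have hS' : star S ^ q = 0 := by rw [← star_pow, hS, star_zero]
    have hOS' : Commute (s.π l (oM (D l) 0)) (star S) := by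
      have h3 := (hSπ l le_rfl (star (oM (D l) 0))).star_star
      rw [map_star, star_star] at h3
      exact h3.symm
    have hnS : ‖star S‖ ≤ 2 / e := by rw [norm_star]; exact hSn
    obtain ⟨i, hi, hij, hi3⟩ := exists_large (star S) (star Z) (s.π l (oM (D l) 0))
      hSZ.star_star q hS' hOS' α
      (D l - i2) ρ Λ hρ hΛ0 (hsum (star S) hnS _ (by omega)) (by rw [h1]; exact hi2')
    refine ⟨D l - i2 - i, by omega, by omega, ?_⟩
    rw [hβdef]
    exact hi3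
  obtain ⟨j1, hj1a, hj1b, hj1c⟩ := hj1
  obtain ⟨j2, hj2a, hj2b, hj2c⟩ := hj2
  have hρΛ : 0 < ρ / Λ := div_pos hρ hΛ0
  have hγpos : 0 < ‖γ j1‖ := lt_of_lt_of_le hρΛ hj1c
  have hβpos : 0 < ‖β j2‖ := lt_of_lt_of_le hρΛ hj2c
  -- unit vectors
  obtain ⟨z, hzdef⟩ : ∃ z : H, z = (((‖γ j1‖ : ℝ) : ℂ)⁻¹) • γ j1 := ⟨_, rfl⟩
  obtain ⟨w, hwdef⟩ : ∃ w : H, w = (((‖β j2‖ : ℝ) : ℂ)⁻¹) • β j2 := ⟨_, rfl⟩
  have hzn : ‖z‖ = 1 := by
    rw [hzdef, norm_smul, norm_inv, Complex.norm_real, norm_norm, inv_mul_cancel₀ hγpos.ne']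
  have hwn : ‖w‖ = 1 := by
    rw [hwdef, norm_smul, norm_inv, Complex.norm_real, norm_norm, inv_mul_cancel₀ hβpos.ne']
  have hzP : s.P l z = z := by rw [hzdef, map_smul, hγP]
  have hwP : s.P l w = w := by rw [hwdef, map_smul, hβP]
  have hzγ : ‖(inner ℂ z (γ j1) : ℂ)‖ = ‖γ j1‖ := by
    rw [hzdef, inner_smul_left, inner_self_eq_norm_sq_to_K, norm_mul, RCLike.norm_conj, norm_inv,
      Complex.norm_real, norm_norm, norm_pow]
    have : ‖((‖γ j1‖ : ℝ) : ℂ)‖ = ‖γ j1‖ := by rw [Complex.norm_real, norm_norm]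
    erw [this]
    field_simp
  have hβw : ‖(inner ℂ (β j2) w : ℂ)‖ = ‖β j2‖ := by
    rw [hwdef, inner_smul_right, inner_self_eq_norm_sq_to_K, norm_mul, norm_inv,
      Complex.norm_real, norm_norm, norm_pow]
    have : ‖((‖β j2‖ : ℝ) : ℂ)‖ = ‖β j2‖ := by rw [Complex.norm_real, norm_norm]
    erw [this]
    field_simp
  obtain ⟨F, hFn, hFπ, hFP, hFy⟩ := s.rank1 l w z hwP hzP
  rw [hwn, hzn, one_mul] at hFn
  -- the sequences
  obtain ⟨Pn, hPn⟩ : ∃ Pn : ℕ → ℂ, Pn = fun n =>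
    (inner ℂ (β (D l + q - 1 - n)) w : ℂ) / ((2 * Λ : ℝ) : ℂ) := ⟨_, rfl⟩
  obtain ⟨Qn, hQn⟩ : ∃ Qn : ℕ → ℂ, Qn = fun n =>
    (inner ℂ z (γ (2048 * f + q - 1 - n)) : ℂ) / ((2 * Λ : ℝ) : ℂ) := ⟨_, rfl⟩
  have h2Λ : ‖((2 * Λ : ℝ) : ℂ)‖ = 2 * Λ := by
    rw [Complex.norm_real, Real.norm_eq_abs, abs_of_pos (by positivity)]
  have hPle : ∀ n, ‖Pn n‖ ≤ 1 := by
    intro n
    rw [hPn]
    simp only
    rw [norm_div, h2Λ, div_le_one (by positivity)]
    calc ‖(inner ℂ (β (D l + q - 1 - n)) w : ℂ)‖ ≤ ‖β (D l + q - 1 - n)‖ * ‖w‖ :=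
          norm_inner_le_norm _ _
      _ ≤ 2 * Λ := by rw [hwn, mul_one]; exact hβn _
  have hQle : ∀ n, ‖Qn n‖ ≤ 1 := by
    intro n
    rw [hQn]
    simp only
    rw [norm_div, h2Λ, div_le_one (by positivity)]
    calc ‖(inner ℂ z (γ (2048 * f + q - 1 - n)) : ℂ)‖ ≤ ‖z‖ * ‖γ (2048 * f + q - 1 - n)‖ :=
          norm_inner_le_norm _ _
      _ ≤ 2 * Λ := by rw [hzn, one_mul]; exact hγn _
  have hp0 : 0 < p := by
    rw [hp, ← hρdef]
    positivity
  have hP1 : p ≤ ‖Pn (D l + q - 1 - j2)‖ := by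
    rw [hPn]
    simp only
    have e1 : D l + q - 1 - (D l + q - 1 - j2) = j2 := by omega
    rw [e1, norm_div, h2Λ, hβw, hp, ← hρdef]
    exact div_le_div_of_nonneg_right hj2c (by positivity)
  have hQ1 : p ≤ ‖Qn (2048 * f + q - 1 - j1)‖ := by
    rw [hQn]
    simp only
    have e1 : 2048 * f + q - 1 - (2048 * f + q - 1 - j1) = j1 := by omega
    rw [e1, norm_div, h2Λ, hzγ, hp, ← hρdef]
    exact div_le_div_of_nonneg_right hj1c (by positivity)
  obtain ⟨n0, hn0, hn1⟩ := hLEMN Pn Qn p p (f + 2 * q) (5 * (f + 2 * q)) (D l + q - 1 - j2)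
    (2048 * f + q - 1 - j1) hPle hQle hp0 hp0 hP1 hQ1 hj2b hj1b (by omega) ha
  -- the operator
  have hn0B : n0 ≤ 2048 * f + q - 1 := hn0.trans hb
  have hn0A : n0 ≤ D l + q - 1 := nat4 _ _ _ _ hD hn0B
  obtain ⟨M, hM⟩ : ∃ M : ℕ, M = (D l + q - 1) + (2048 * f + q - 1) - n0 := ⟨_, rfl⟩
  obtain ⟨Φ, hΦ⟩ : ∃ Φ : H →L[ℂ] H, Φ = ∑ j ∈ range (M + 1), Z ^ j *
      (F * s.π l (star (oM (D l) 0) * oM (D l) (D l))) * Z ^ (M - j) := ⟨_, rfl⟩
  have hform := inner_sum_formula s l Z F α y w z (fun A => hFπ l le_rfl A) hFy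
    (fun j => by have := hγP j; rw [hγdef] at this; exact this) M
  rw [← hΦ] at hform
  have hsumeq : (inner ℂ α (Φ y) : ℂ) = ((2 * Λ : ℝ) : ℂ) * ((2 * Λ : ℝ) : ℂ) *
      ∑ k ∈ range (n0 + 1), Pn k * Qn (n0 - k) := by
    have hcs := conv_sum (fun j => (inner ℂ (β j) w : ℂ)) (fun j => (inner ℂ z (γ j) : ℂ))
      (D l + q - 1) (2048 * f + q - 1) n0 M
      (fun j hj => by
        have h1 := hβz j (nat1 _ _ _ hj)
        simp only [h1, inner_zero_left])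
      (fun j hj => by
        have h1 := hγz j (nat1 _ _ _ hj)
        simp only [h1, inner_zero_right])
      hn0A hn0B hM
    have e1 : ∑ k ∈ range (n0 + 1), Pn k * Qn (n0 - k) =
        (((2 * Λ : ℝ) : ℂ) * ((2 * Λ : ℝ) : ℂ))⁻¹ * ∑ k ∈ range (n0 + 1),
          (inner ℂ (β (D l + q - 1 - k)) w : ℂ) *
            (inner ℂ z (γ (2048 * f + q - 1 - (n0 - k))) : ℂ) := by
      rw [hPn, hQn, Finset.mul_sum]
      apply Finset.sum_congr rfl
      intro k _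
      simp only
      rw [div_mul_div_comm, div_eq_mul_inv, mul_comm]
    have h3 : ((2 * Λ : ℝ) : ℂ) * ((2 * Λ : ℝ) : ℂ) ≠ 0 := by
      intro h
      have h4 := congrArg norm h
      rw [norm_mul, h2Λ, norm_zero] at h4
      nlinarith
    rw [e1, mul_inv_cancel_left₀ h3, ← hcs, hform, hγdef, hβdef]
  have hZM : Z ^ (M + 1) = 0 := hZz (M + 1) (nat2 _ _ _ _ _ hq1 hn0B hM)
  have hlow : (2 * Λ) * (2 * Λ) * (p * p / (4 * 64 ^ (2 * (f + 2 * q)) * 4 ^ (5 * (f + 2 * q)))) ≤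
      ‖(inner ℂ α (Φ y) : ℂ)‖ := by
    rw [hsumeq, norm_mul, norm_mul, h2Λ]
    exact mul_le_mul_of_nonneg_left hn1 (by positivity)
  have hlowpos : 0 < (2 * Λ) * (2 * Λ) *
      (p * p / (4 * 64 ^ (2 * (f + 2 * q)) * 4 ^ (5 * (f + 2 * q)))) := by positivity
  refine ⟨Φ, ⟨?_, ?_, ?_⟩, ?_, ?_⟩
  · -- commutes with T
    have hc1 : Commute Φ Z := by rw [hΦ]; exact telescope Z _ M hZM
    have hcn : ∀ i, l + 1 ≤ i → ∀ A, Commute Φ (s.π i A) := by
      intro i hi A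
      have hZi : Commute Z (s.π i A) := by
        rw [hZdef]
        apply (hSπ i (by omega) A).add_left
        rw [htdef]
        exact s.comm l i (by omega) _ _
      rw [hΦ]
      apply Commute.sum_left
      intro j _
      exact ((hZi.pow_left j).mul_left ((hFπ i (by omega) A).mul_left
        (s.comm l i (by omega) _ _))).mul_left (hZi.pow_left _)
    have hc2 := comm_tail s (l + 1) Φ hcn
    have hT : s.T = (e : ℂ) • Z + (s.T - s.Tn (l + 1)) := by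
      rw [Tn_succ, hZdef, hSdef, htdef, hle, smul_add, smul_smul, mul_inv_cancel₀ hec, one_smul]
      abel
    rw [hT]
    exact (hc1.smul_right _).add_right hc2
  · intro i hi A
    have hZi : Commute Z (s.π i A) := by
      rw [hZdef]
      apply (hSπ i (by omega) A).add_left
      rw [htdef]
      exact s.comm l i (by omega) _ _
    rw [hΦ]
    apply Commute.sum_left
    intro j _
    exact ((hZi.pow_left j).mul_left ((hFπ i (by omega) A).mul_left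
      (s.comm l i (by omega) _ _))).mul_left (hZi.pow_left _)
  · intro N hN
    rw [hΦ]
    apply Commute.sum_left
    intro j _
    exact (((hZP N hN).pow_left j).mul_left ((hFP N (by omega)).mul_left
      (s.P_comm N l (by omega) _).symm)).mul_left ((hZP N hN).pow_left _)
  · intro h0
    rw [h0] at hlow
    simp only [zero_apply, inner_zero_right, norm_zero] at hlow
    linarith
  · rw [← hydef]
    refine le_trans ?_ hlow
    have hΦn : ‖Φ‖ ≤ ((M : ℝ) + 1) * (Λ * Λ) := by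
      rw [hΦ]
      refine (norm_sum_le _ _).trans ?_
      have h1 : ∀ j ∈ range (M + 1), ‖Z ^ j * (F * s.π l (star (oM (D l) 0) * oM (D l) (D l))) *
          Z ^ (M - j)‖ ≤ Λ * Λ := by
        intro j _
        have h2 : ‖F * s.π l (star (oM (D l) 0) * oM (D l) (D l))‖ ≤ 1 := by
          rw [map_mul, map_star]
          calc ‖F * (star (s.π l (oM (D l) 0)) * s.π l (oM (D l) (D l)))‖
              ≤ ‖F‖ * (‖star (s.π l (oM (D l) 0))‖ * ‖s.π l (oM (D l) (D l))‖) :=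
                (norm_mul_le _ _).trans
                  (mul_le_mul_of_nonneg_left (norm_mul_le _ _) (norm_nonneg _))
            _ ≤ 1 * (1 * 1) := by
                rw [norm_star]
                apply mul_le_mul hFn _ (by positivity) zero_le_one
                exact mul_le_mul (norm_oM_le s l 0 (Nat.zero_le _))
                  (norm_oM_le s l (D l) le_rfl) (norm_nonneg _) zero_le_one
            _ = 1 := by norm_num
        calc ‖Z ^ j * (F * s.π l (star (oM (D l) 0) * oM (D l) (D l))) * Z ^ (M - j)‖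
            ≤ ‖Z ^ j‖ * ‖F * s.π l (star (oM (D l) 0) * oM (D l) (D l))‖ * ‖Z ^ (M - j)‖ :=
              (norm_mul_le _ _).trans
                (mul_le_mul_of_nonneg_right (norm_mul_le _ _) (norm_nonneg _))
          _ ≤ Λ * 1 * Λ := by
              apply mul_le_mul _ (hZn _) (norm_nonneg _) (by positivity)
              exact mul_le_mul (hZn _) h2 (norm_nonneg _) hΛ0.le
          _ = Λ * Λ := by ring
      refine (Finset.sum_le_sum h1).trans ?_
      rw [Finset.sum_const, card_range, nsmul_eq_mul]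
      push_cast
      exact le_rfl
    have hM2 : (M : ℝ) + 1 ≤ 2 * (D l : ℝ) + 2 * q := by
      have h1 : M + 1 ≤ 2 * D l + 2 * q := nat3 _ _ _ _ _ hq1 hD hM
      exact_mod_cast h1
    obtain ⟨E, hE⟩ : ∃ E : ℝ, E = 64 ^ (2 * (f + 2 * q)) * 4 ^ (5 * (f + 2 * q)) := ⟨_, rfl⟩
    have hEpos : 0 < E := by rw [hE]; positivity
    have hexp : Real.exp (-(32 * (f : ℝ))) * Real.exp (32 * (f : ℝ)) = 1 := by
      rw [← Real.exp_add]; simp
    have e1 : (2 * Λ) * (2 * Λ) *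
        (p * p / (4 * 64 ^ (2 * (f + 2 * q)) * 4 ^ (5 * (f + 2 * q)))) =
        (Λ * Λ) * (p * p / E) := by
      rw [hE]
      field_simp
      ring
    rw [e1]
    have h3 : Real.exp (-(32 * (f : ℝ))) * ((M : ℝ) + 1) ≤ p * p / E := by
      rw [le_div_iff₀ hEpos]
      rw [← hE] at hc
      have h4 : ((M : ℝ) + 1) * E ≤ p * p * Real.exp (32 * (f : ℝ)) :=
        (mul_le_mul_of_nonneg_right hM2 hEpos.le).trans hc
      calc Real.exp (-(32 * (f : ℝ))) * ((M : ℝ) + 1) * E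
          = Real.exp (-(32 * (f : ℝ))) * (((M : ℝ) + 1) * E) := by ring
        _ ≤ Real.exp (-(32 * (f : ℝ))) * (p * p * Real.exp (32 * (f : ℝ))) :=
            mul_le_mul_of_nonneg_left h4 (Real.exp_pos _).le
        _ = p * p * (Real.exp (-(32 * (f : ℝ))) * Real.exp (32 * (f : ℝ))) := by ring
        _ = p * p := by rw [hexp, mul_one]
    calc Real.exp (-(32 * (f : ℝ))) * ‖Φ‖
        ≤ Real.exp (-(32 * (f : ℝ))) * (((M : ℝ) + 1) * (Λ * Λ)) :=
          mul_le_mul_of_nonneg_left hΦn (Real.exp_pos _).le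
      _ = (Λ * Λ) * (Real.exp (-(32 * (f : ℝ))) * ((M : ℝ) + 1)) := by ring
      _ ≤ (Λ * Λ) * (p * p / E) := mul_le_mul_of_nonneg_left h3 (by positivity)

end Core

/-! ### numbers -/

theorem poly_le (C0 : ℝ) (k : ℕ) : ∀ᶠ f : ℕ in atTop, C0 * ((f : ℝ) + 1) ^ k ≤ 2 ^ f := by
  have h1 := (tendsto_pow_const_div_const_pow_of_one_lt k (by norm_num : (1 : ℝ) < 2)).comp
    (tendsto_add_atTop_nat 1)
  have hpos : (0 : ℝ) < 1 / (2 * (|C0| + 1)) := by positivity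
  filter_upwards [h1.eventually (gt_mem_nhds hpos)] with f hf
  simp only [Function.comp_apply] at hf
  push_cast at hf
  have h2 : (0 : ℝ) < 2 ^ (f + 1) := by positivity
  rw [div_lt_div_iff₀ h2 (by positivity), one_mul] at hf
  have h3 : C0 ≤ |C0| + 1 := by linarith [le_abs_self C0]
  have h4 : (0 : ℝ) ≤ ((f : ℝ) + 1) ^ k := by positivity
  have h5 : C0 * ((f : ℝ) + 1) ^ k ≤ (|C0| + 1) * ((f : ℝ) + 1) ^ k :=
    mul_le_mul_of_nonneg_right h3 h4
  rw [pow_succ] at hf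
  nlinarith

theorem choose_sum_le (q N n : ℕ) (s : ℝ) (hs : 0 ≤ s) (hn : n ≤ N) :
    ∑ i ∈ range q, (n.choose i : ℝ) * s ^ i ≤ q * ((1 + s) ^ q * ((N : ℝ) + 1) ^ q) := by
  have h1 : ∀ i ∈ range q, (n.choose i : ℝ) * s ^ i ≤ (1 + s) ^ q * ((N : ℝ) + 1) ^ q := by
    intro i hi
    have hi' := (mem_range.mp hi).le
    have h2 : (n.choose i : ℝ) ≤ ((N : ℝ) + 1) ^ q := by
      calc (n.choose i : ℝ) ≤ (n : ℝ) ^ i := by exact_mod_cast Nat.choose_le_pow n i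
        _ ≤ ((N : ℝ) + 1) ^ i := by
            apply pow_le_pow_left₀ (Nat.cast_nonneg _)
            have : (n : ℝ) ≤ N := by exact_mod_cast hn
            linarith
        _ ≤ ((N : ℝ) + 1) ^ q := pow_le_pow_right₀ (by
            have : (0 : ℝ) ≤ N := Nat.cast_nonneg N
            linarith) hi'
    have h3 : s ^ i ≤ (1 + s) ^ q := by
      calc s ^ i ≤ (1 + s) ^ i := pow_le_pow_left₀ hs (by linarith) i
        _ ≤ (1 + s) ^ q := pow_le_pow_right₀ (by linarith) hi'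
    calc (n.choose i : ℝ) * s ^ i ≤ ((N : ℝ) + 1) ^ q * (1 + s) ^ q :=
          mul_le_mul h2 h3 (by positivity) (by positivity)
      _ = _ := mul_comm _ _
  refine (Finset.sum_le_sum h1).trans ?_
  rw [Finset.sum_const, card_range, nsmul_eq_mul]

theorem pp_eq (y Λ : ℝ) (hy : 0 < y) (hΛ : 0 < Λ) :
    (4 * Real.sqrt y)⁻¹ / Λ / (2 * Λ) * ((4 * Real.sqrt y)⁻¹ / Λ / (2 * Λ)) =
      (64 * y * Λ ^ 4)⁻¹ := by
  obtain ⟨r, hr⟩ : ∃ r : ℝ, r = Real.sqrt y := ⟨_, rfl⟩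
  have hr0 : 0 < r := by rw [hr]; exact Real.sqrt_pos.mpr hy
  have hr2 : y = r ^ 2 := by rw [hr]; exact (Real.sq_sqrt hy.le).symm
  rw [← hr, hr2]
  field_simp
  ring

theorem numeric (q : ℕ) (e : ℝ) (he : 0 < e) : ∀ᶠ f : ℕ in atTop, ∃ Λ p : ℝ, 1 ≤ Λ ∧
    (∀ n, n ≤ 4096 * f + q → ∑ i ∈ range q, (n.choose i : ℝ) * (2 / e) ^ i < Λ) ∧
    p = (4 * Real.sqrt (((4096 * f : ℕ) : ℝ) + 1))⁻¹ / Λ / (2 * Λ) ∧
    2 * 8 ^ (4 * (f + 2 * q)) ≤ p * p * 8 ^ (5 * (f + 2 * q)) ∧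
    5 * (f + 2 * q) ≤ 2048 * f + q - 1 ∧
    (2 * ((4096 * f : ℕ) : ℝ) + 2 * q) * (64 ^ (2 * (f + 2 * q)) * 4 ^ (5 * (f + 2 * q))) ≤
      p * p * Real.exp (32 * (f : ℝ)) := by
  obtain ⟨A, hA⟩ : ∃ A : ℝ, A = q * ((1 + 2 / e) ^ q * (4096 + (q : ℝ) + 1) ^ q) + 1 := ⟨_, rfl⟩
  have hA1 : 1 ≤ A := by
    rw [hA]
    have : 0 ≤ (q : ℝ) * ((1 + 2 / e) ^ q * (4096 + (q : ℝ) + 1) ^ q) := by positivity
    linarith
  obtain ⟨C0, hC0⟩ : ∃ C0 : ℝ, C0 = 128 * 4096 * A ^ 4 * (8192 + 2 * (q : ℝ) + 1) * 2 ^ (44 * q) :=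
    ⟨_, rfl⟩
  filter_upwards [poly_le C0 (4 * q + 2), eventually_ge_atTop (q + 1)] with f hf hfq
  obtain ⟨x, hx⟩ : ∃ x : ℝ, x = (f : ℝ) + 1 := ⟨_, rfl⟩
  have hx1 : 1 ≤ x := by rw [hx]; have : (0 : ℝ) ≤ f := Nat.cast_nonneg f; linarith
  have hq0 : (0 : ℝ) ≤ q := Nat.cast_nonneg q
  have hf0 : (0 : ℝ) ≤ f := Nat.cast_nonneg f
  have hxq : 1 ≤ x ^ q := one_le_pow₀ hx1
  obtain ⟨Λ, hΛ⟩ : ∃ Λ : ℝ, Λ = A * x ^ q := ⟨_, rfl⟩
  have hΛ1 : 1 ≤ Λ := by
    rw [hΛ]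
    calc (1 : ℝ) = 1 * 1 := by norm_num
      _ ≤ A * x ^ q := mul_le_mul hA1 hxq zero_le_one (by linarith)
  have hΛ0 : 0 < Λ := by linarith
  obtain ⟨Dl, hDl⟩ : ∃ Dl : ℝ, Dl = ((4096 * f : ℕ) : ℝ) := ⟨_, rfl⟩
  have hDl' : Dl = 4096 * (f : ℝ) := by rw [hDl]; push_cast; ring
  have hDl1 : 0 < Dl + 1 := by rw [hDl']; positivity
  refine ⟨Λ, (4 * Real.sqrt (Dl + 1))⁻¹ / Λ / (2 * Λ), hΛ1, ?_, ?_, ?_, ?_, ?_⟩
  · intro n hn
    have h1 := choose_sum_le q (4096 * f + q) n (2 / e) (by positivity) hn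
    refine lt_of_le_of_lt h1 ?_
    rw [hΛ, hA]
    have h2 : (((4096 * f + q : ℕ) : ℝ) + 1) ^ q ≤ (4096 + (q : ℝ) + 1) ^ q * x ^ q := by
      rw [← mul_pow]
      apply pow_le_pow_left₀ (by positivity)
      rw [hx]
      push_cast
      nlinarith [mul_nonneg hq0 hf0]
    have h3 : (q : ℝ) * ((1 + 2 / e) ^ q * (((4096 * f + q : ℕ) : ℝ) + 1) ^ q) ≤
        (q : ℝ) * ((1 + 2 / e) ^ q * ((4096 + (q : ℝ) + 1) ^ q * x ^ q)) := by
      apply mul_le_mul_of_nonneg_left _ hq0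
      exact mul_le_mul_of_nonneg_left h2 (by positivity)
    have h4 : ((q : ℝ) * ((1 + 2 / e) ^ q * (4096 + (q : ℝ) + 1) ^ q) + 1) * x ^ q =
        (q : ℝ) * ((1 + 2 / e) ^ q * ((4096 + (q : ℝ) + 1) ^ q * x ^ q)) + x ^ q := by ring
    rw [h4]
    linarith
  · rw [hDl]
  · -- first inequality
    obtain ⟨W, hW⟩ : ∃ W : ℝ, W = 64 * (Dl + 1) * Λ ^ 4 := ⟨_, rfl⟩
    have hWpos : 0 < W := by rw [hW]; positivity
    have hpp : (4 * Real.sqrt (Dl + 1))⁻¹ / Λ / (2 * Λ) *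
        ((4 * Real.sqrt (Dl + 1))⁻¹ / Λ / (2 * Λ)) = W⁻¹ := by
      rw [hW]; exact pp_eq (Dl + 1) Λ hDl1 hΛ0
    rw [hpp]
    have h1 : 2 * W ≤ 2 ^ f := by
      refine le_trans ?_ hf
      rw [hW, hΛ, hC0, hDl', ← hx]
      have e1 : (f : ℝ) = x - 1 := by rw [hx]; ring
      have h2 : 2 * (64 * (4096 * (f : ℝ) + 1) * (A * x ^ q) ^ 4) ≤
          128 * 4096 * A ^ 4 * x ^ (4 * q + 1) := by
        have e2 : 128 * 4096 * A ^ 4 * x ^ (4 * q + 1) =
            2 * (64 * (4096 * x) * (A * x ^ q) ^ 4) := by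
          rw [mul_pow, ← pow_mul, pow_succ, mul_comm q 4]; ring
        rw [e2, e1]
        have h3 : 4096 * (x - 1) + 1 ≤ 4096 * x := by linarith
        have h4 : 0 ≤ (A * x ^ q) ^ 4 := by positivity
        nlinarith
      refine h2.trans ?_
      have h5 : (1 : ℝ) ≤ (8192 + 2 * (q : ℝ) + 1) * 2 ^ (44 * q) * x := by
        have h6 : (1 : ℝ) ≤ 2 ^ (44 * q) := one_le_pow₀ (by norm_num)
        have h7 : (1 : ℝ) ≤ 8192 + 2 * (q : ℝ) + 1 := by linarith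
        have h8 : (1 : ℝ) ≤ (8192 + 2 * (q : ℝ) + 1) * 2 ^ (44 * q) := by nlinarith
        nlinarith
      have h9 : 0 ≤ 128 * 4096 * A ^ 4 * x ^ (4 * q + 1) := by positivity
      calc 128 * 4096 * A ^ 4 * x ^ (4 * q + 1) = 128 * 4096 * A ^ 4 * x ^ (4 * q + 1) * 1 := by
            rw [mul_one]
        _ ≤ 128 * 4096 * A ^ 4 * x ^ (4 * q + 1) *
            ((8192 + 2 * (q : ℝ) + 1) * 2 ^ (44 * q) * x) := mul_le_mul_of_nonneg_left h5 h9
        _ = 128 * 4096 * A ^ 4 * (8192 + 2 * (q : ℝ) + 1) * 2 ^ (44 * q) * x ^ (4 * q + 2) := by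
            rw [pow_succ x (4 * q + 1)]; ring
    rw [inv_mul_eq_div, le_div_iff₀ hWpos]
    have h2 : (2 : ℝ) ^ f ≤ 8 ^ (f + 2 * q) := by
      calc (2 : ℝ) ^ f ≤ 8 ^ f := pow_le_pow_left₀ (by norm_num) (by norm_num) f
        _ ≤ 8 ^ (f + 2 * q) := pow_le_pow_right₀ (by norm_num) (by omega)
    have e3 : (8 : ℝ) ^ (5 * (f + 2 * q)) = 8 ^ (4 * (f + 2 * q)) * 8 ^ (f + 2 * q) := by
      rw [← pow_add]; congr 1; ring
    rw [e3]
    calc 2 * 8 ^ (4 * (f + 2 * q)) * W = 8 ^ (4 * (f + 2 * q)) * (2 * W) := by ring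
      _ ≤ 8 ^ (4 * (f + 2 * q)) * 8 ^ (f + 2 * q) :=
          mul_le_mul_of_nonneg_left (h1.trans h2) (by positivity)
  · omega
  · obtain ⟨W, hW⟩ : ∃ W : ℝ, W = 64 * (Dl + 1) * Λ ^ 4 := ⟨_, rfl⟩
    have hWpos : 0 < W := by rw [hW]; positivity
    have hpp : (4 * Real.sqrt (Dl + 1))⁻¹ / Λ / (2 * Λ) *
        ((4 * Real.sqrt (Dl + 1))⁻¹ / Λ / (2 * Λ)) = W⁻¹ := by
      rw [hW]; exact pp_eq (Dl + 1) Λ hDl1 hΛ0
    rw [hpp, ← hDl]
    have h1 : (2 * Dl + 2 * q) * W * 2 ^ (44 * q) ≤ 2 ^ f := by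
      refine le_trans ?_ hf
      rw [hW, hΛ, hC0, hDl', ← hx]
      have e1 : (f : ℝ) = x - 1 := by rw [hx]; ring
      have h2 : 64 * (4096 * (f : ℝ) + 1) * (A * x ^ q) ^ 4 ≤
          128 * 4096 * A ^ 4 * x ^ (4 * q + 1) := by
        have e2 : 128 * 4096 * A ^ 4 * x ^ (4 * q + 1) =
            2 * (64 * (4096 * x) * (A * x ^ q) ^ 4) := by
          rw [mul_pow, ← pow_mul, pow_succ, mul_comm q 4]; ring
        rw [e2, e1]
        have h3 : 4096 * (x - 1) + 1 ≤ 4096 * x := by linarith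
        have h4 : 0 ≤ (A * x ^ q) ^ 4 := by positivity
        have h5 : 0 ≤ 64 * (4096 * x) * (A * x ^ q) ^ 4 := by positivity
        nlinarith
      have h3 : 2 * (4096 * (f : ℝ)) + 2 * q ≤ (8192 + 2 * (q : ℝ) + 1) * x := by
        rw [e1]; nlinarith
      calc (2 * (4096 * (f : ℝ)) + 2 * q) * (64 * (4096 * (f : ℝ) + 1) * (A * x ^ q) ^ 4) *
            2 ^ (44 * q)
          ≤ ((8192 + 2 * (q : ℝ) + 1) * x) * (128 * 4096 * A ^ 4 * x ^ (4 * q + 1)) *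
            2 ^ (44 * q) := by
            apply mul_le_mul_of_nonneg_right _ (by positivity)
            exact mul_le_mul h3 h2 (by positivity) (by positivity)
        _ = 128 * 4096 * A ^ 4 * (8192 + 2 * (q : ℝ) + 1) * 2 ^ (44 * q) * x ^ (4 * q + 2) := by
            rw [pow_succ x (4 * q + 1)]; ring
    rw [inv_mul_eq_div, le_div_iff₀ hWpos]
    have e3 : (64 : ℝ) ^ (2 * (f + 2 * q)) * 4 ^ (5 * (f + 2 * q)) = 2 ^ (44 * q) * 2 ^ (22 * f) := by
      have h64 : (64 : ℝ) = 2 ^ 6 := by norm_num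
      have h4 : (4 : ℝ) = 2 ^ 2 := by norm_num
      rw [h64, h4, ← pow_mul, ← pow_mul, ← pow_add, ← pow_add]
      congr 1; ring
    rw [e3]
    have h5 : (2 : ℝ) ^ f * 2 ^ (22 * f) ≤ Real.exp (32 * (f : ℝ)) := by
      have h6 : (2 : ℝ) ≤ Real.exp 1 := by
        have := Real.add_one_le_exp (1 : ℝ); linarith
      calc (2 : ℝ) ^ f * 2 ^ (22 * f) = 2 ^ (23 * f) := by rw [← pow_add]; congr 1; ring
        _ ≤ (Real.exp 1) ^ (23 * f) := pow_le_pow_left₀ (by norm_num) h6 _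
        _ = Real.exp (23 * (f : ℝ)) := by
            rw [← Real.exp_nat_mul]; congr 1; push_cast; ring
        _ ≤ Real.exp (32 * (f : ℝ)) := Real.exp_le_exp.mpr (by linarith)
    calc (2 * Dl + 2 * q) * (2 ^ (44 * q) * 2 ^ (22 * f)) * W
        = ((2 * Dl + 2 * q) * W * 2 ^ (44 * q)) * 2 ^ (22 * f) := by ring
      _ ≤ 2 ^ f * 2 ^ (22 * f) := mul_le_mul_of_nonneg_right h1 (by positivity)
      _ ≤ _ := h5

end LEMQ

/-- Module LEMQ: Lemma Q. -/
theorem t_LEMQ (hNRM : Stmt_NRM) (hFLT : Stmt_FLT) (hLEMN : Stmt_LEMN) : Stmt_LEMQ := by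
  have _ := hFLT
  intro q e he
  filter_upwards [LEMQ.numeric q e he] with f hf
  obtain ⟨Λ, p, hΛ1, hΛ, hp, ha, hb, hc⟩ := hf
  intro D η H _ _ _ s l hη0 hη1 hq hle hD u α x0 φ0 hu hα hx0 hφ0 hx0n hφ0n hux hαφ hun hαn
  rw [← hD] at hΛ hp hc
  exact LEMQ.core hNRM hLEMN s l f q e Λ p he hη0 hη1 hq hle hD u α x0 φ0 hu hα hx0 hφ0 hx0n hφ0n
    hux hαφ hun hαn hΛ1 hΛ hp ha hb hc

end Pool.Agent.HSP
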