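import Pool.Agent.HSP.MODa

set_option autoImplicit false

open Filter Topology
open scoped ComplexOrder

noncomputable section

namespace Pool.Agent.HSP.MOD

variable {D : ℕ → ℕ}

/-! ### rank one operators -/

/-- coordinates below `n` -/
def Lo (n : ℕ) : Set ℕ := {j | j < n}

theorem KS_eq {n : ℕ} {a b : Idx D} (ha : a ∈ KS n) (hb : b ∈ KS n) (h : agr (Lo n) a b) : a = b := by
  apply Idx_ext
  intro i
  rcases Nat.lt_or_ge i n with h1 | h1
  · exact h i h1
  · rw [ha i h1, hb i h1]

theorem KS_mix {n : ℕ} {b x : Idx D} : mix (Lo n) b x ∈ KS n ↔ x ∈ KS n := by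
  constructor
  · intro h i hi
    have h1 : i ∉ Lo n := fun h' => absurd (show i < n from h') (by omega)
    have := h i hi
    rwa [mix_out h1] at this
  · intro h i hi
    have h1 : i ∉ Lo n := fun h' => absurd (show i < n from h') (by omega)
    rw [mix_out h1, h i hi]

theorem KS_mix_eq {n : ℕ} {b x : Idx D} (hx : x ∈ KS n) (hb : b ∈ KS n) : mix (Lo n) b x = b := by
  apply KS_eq (KS_mix.2 hx) hb
  exact agr_mix

instance KS_finite (n : ℕ) : Finite (KS (D := D) n) := by
  let g : KS (D := D) n → ((j : Fin n) → Fin (D j + 1)) := fun c j => ⟨c.1.1 j, by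
    have := c.1.2 j; omega⟩
  apply Finite.of_injective g
  intro a b h
  apply Subtype.ext
  apply KS_eq a.2 b.2
  intro i hi
  have h1 := congrFun h ⟨i, hi⟩
  exact congrArg Fin.val h1

theorem rank1 (hFRO : Stmt_FRO) (u : UU D) (π : (i : ℕ) → Mt (D i) →⋆ₐ[ℂ] (HH D →L[ℂ] HH D))
    (hπ : ∀ i A, π i A ∈ Submodule.span ℂ
      (Set.range fun p : Fin (D i + 1) × Fin (D i + 1) => Es u i p.1 p.2))
    (n : ℕ) (w z : HH D) (hw : Pu u n w = w) (_hz : Pu u n z = z) : ∃ F : HH D →L[ℂ] HH D,
    ‖F‖ ≤ ‖w‖ * ‖z‖ ∧ (∀ i, n ≤ i → ∀ A, Commute F (π i A)) ∧ (∀ N, n ≤ N → Commute F (Pu u N)) ∧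
    ∀ y, Pu u n y = y → F y = (inner ℂ z y : ℂ) • w := by
  classical
  have off : ∀ y : HH D, Pu u n y = y → ∀ c, c ∉ KS n → (y : Idx D → ℂ) c = 0 := by
    intro y hy c hc
    rw [← hy, Pu_ap_neg u hc]
  let K : Type := KS (D := D) n
  have : Fintype K := Fintype.ofFinite K
  let E : K → K → (HH D →L[ℂ] HH D) := fun a b => Eu u (Lo n) a.1 b.1
  have hE1 : ∀ a b c d, E a b * E c d = if b = c then E a d else 0 := by
    intro a b c d
    by_cases h : b = c
    · rw [if_pos h]
      apply Eu_pos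
      rw [h]
      exact fun _ _ => rfl
    · rw [if_neg h]
      apply Eu_neg
      exact fun h' => h (Subtype.ext (KS_eq b.2 c.2 h'))
  have hE2 : ∀ a b, star (E a b) = E b a := fun a b => Eu_star u _ _ _
  let A : K → K → ℂ := fun a b => (w : Idx D → ℂ) a.1 * starRingEnd ℂ ((z : Idx D → ℂ) b.1)
  have hsum : ∀ y : HH D, ∑ a : K, ‖(y : Idx D → ℂ) a.1‖ ^ 2 ≤ ‖y‖ ^ 2 := by
    intro y
    have h1 := lp.sum_rpow_le_norm_rpow (p := 2) (by norm_num) y
      (Finset.univ.map (Function.Embedding.subtype (fun c : Idx D => c ∈ KS n)))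
    rw [Finset.sum_map] at h1
    simpa using h1
  have hA : ∑ a, ∑ b, ‖A a b‖ ^ 2 ≤ (‖w‖ * ‖z‖) ^ 2 := by
    have h1 : ∑ a, ∑ b, ‖A a b‖ ^ 2 =
        (∑ a : K, ‖(w : Idx D → ℂ) a.1‖ ^ 2) * ∑ b : K, ‖(z : Idx D → ℂ) b.1‖ ^ 2 := by
      rw [Finset.sum_mul_sum]
      refine Finset.sum_congr rfl fun a _ => Finset.sum_congr rfl fun b _ => ?_
      show ‖(w : Idx D → ℂ) a.1 * starRingEnd ℂ ((z : Idx D → ℂ) b.1)‖ ^ 2 = _
      rw [norm_mul, mul_pow, RCLike.norm_conj]
    rw [h1, mul_pow]
    exact mul_le_mul (hsum w) (hsum z) (Finset.sum_nonneg fun _ _ => sq_nonneg _) (sq_nonneg _)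
  refine ⟨∑ a, ∑ b, A a b • E a b, ?_, ?_, ?_, ?_⟩
  · exact hFRO K (HH D) E hE1 hE2 A _ (mul_nonneg (norm_nonneg _) (norm_nonneg _)) hA
  · intro i hi X
    refine Commute.sum_left _ _ _ fun a _ => Commute.sum_left _ _ _ fun b _ => ?_
    refine Commute.smul_left ?_ _
    refine comm_span ?_ _ (hπ i X)
    rintro _ ⟨p, rfl⟩
    apply Eu_comm
    intro j hj hj'
    have h1 : j < n := hj
    have h2 : j = i := hj'
    omega
  · intro N hN
    refine Commute.sum_left _ _ _ fun a _ => Commute.sum_left _ _ _ fun b _ => ?_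
    refine Commute.smul_left ?_ _
    refine (Pu_comm u ?_ _ _).symm
    intro j hj
    have h1 : j < n := hj
    omega
  · intro y hy
    apply HH_ext
    intro x
    rw [sum_apply, lp_sum_apply]
    have h1 : ∀ a : K, (((∑ b, A a b • E a b) y : HH D) : Idx D → ℂ) x =
        ∑ b : K, A a b * (E a b y : Idx D → ℂ) x := by
      intro a
      rw [sum_apply, lp_sum_apply]
      rfl
    simp only [h1]
    have h2 : (((inner ℂ z y : ℂ) • w : HH D) : Idx D → ℂ) x = (inner ℂ z y : ℂ) * (w : Idx D → ℂ) x := rfl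
    rw [h2]
    by_cases hx : x ∈ KS n
    · have h3 : (inner ℂ z y : ℂ) = ∑ b : K, starRingEnd ℂ ((z : Idx D → ℂ) b.1) * (y : Idx D → ℂ) b.1 := by
        rw [lp.inner_eq_tsum]
        rw [tsum_eq_sum (s := Finset.univ.map (Function.Embedding.subtype (fun c : Idx D => c ∈ KS n)))]
        · rw [Finset.sum_map]
          refine Finset.sum_congr rfl fun b _ => ?_
          show inner ℂ ((z : Idx D → ℂ) b.1) ((y : Idx D → ℂ) b.1) = _
          rw [RCLike.inner_apply, mul_comm]
        · intro c hc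
          have hc' : c ∉ KS n := by
            intro h
            apply hc
            rw [Finset.mem_map]
            exact ⟨⟨c, h⟩, Finset.mem_univ _, rfl⟩
          rw [off y hy c hc', inner_zero_right]
      rw [Finset.sum_eq_single (⟨x, hx⟩ : K)]
      · rw [h3, Finset.sum_mul]
        refine Finset.sum_congr rfl fun b _ => ?_
        have h4 : (E ⟨x, hx⟩ b y : Idx D → ℂ) x = (y : Idx D → ℂ) b.1 := by
          show (Eu u (Lo n) x b.1 y : Idx D → ℂ) x = _
          rw [Eu_ap_pos u (fun _ _ => rfl), KS_mix_eq hx b.2]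
        rw [h4]
        show (w : Idx D → ℂ) x * starRingEnd ℂ ((z : Idx D → ℂ) b.1) * _ = _
        ring
      · intro a _ ha
        apply Finset.sum_eq_zero
        intro b _
        have h4 : (E a b y : Idx D → ℂ) x = 0 := by
          apply Eu_ap_neg
          intro h
          exact ha (Subtype.ext (KS_eq hx a.2 h).symm)
        rw [h4, mul_zero]
      · intro h
        exact absurd (Finset.mem_univ _) h
    · rw [off w hw x hx, mul_zero]
      refine Finset.sum_eq_zero fun a _ => Finset.sum_eq_zero fun b _ => ?_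
      have h4 : (E a b y : Idx D → ℂ) x = 0 := by
        by_cases h : agr (Lo n) x a.1
        · show (Eu u (Lo n) a.1 b.1 y : Idx D → ℂ) x = _
          rw [Eu_ap_pos u h]
          apply off y hy
          intro h'
          exact hx (KS_mix.1 h')
        · exact Eu_ap_neg u h y
      rw [h4, mul_zero]

/-! ### norm of the shift -/

theorem tM_mul (N : ℕ) : star (tM N) * tM N =
    Matrix.diagonal (fun b : Fin (N + 1) => if (b : ℕ) < N then (1 : ℂ) else 0) := by
  ext a b
  rw [Matrix.mul_apply, Matrix.diagonal_apply]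
  have h1 : ∀ c : Fin (N + 1), star (tM N) a c * tM N c b =
      if (c : ℕ) = a + 1 ∧ (c : ℕ) = b + 1 then 1 else 0 := by
    intro c
    show star (tM N c a) * tM N c b = _
    unfold tM
    split_ifs with g1 g2 g3 g4
    all_goals first
      | (simp; done)
      | (exfalso; omega)
  simp only [h1]
  by_cases hab : a = b
  · subst hab
    rw [if_pos rfl]
    by_cases ha : (a : ℕ) < N
    · rw [if_pos ha, Finset.sum_eq_single (⟨(a : ℕ) + 1, by omega⟩ : Fin (N + 1))]
      · simp
      · intro c _ hc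
        rw [if_neg]
        rintro ⟨h, -⟩
        exact hc (Fin.ext h)
      · intro h
        exact absurd (Finset.mem_univ _) h
    · rw [if_neg ha]
      apply Finset.sum_eq_zero
      intro c _
      rw [if_neg]
      rintro ⟨h, -⟩
      have := c.2
      omega
  · rw [if_neg hab]
    apply Finset.sum_eq_zero
    intro c _
    rw [if_neg]
    rintro ⟨h, h'⟩
    apply hab
    apply Fin.ext
    omega

theorem norm_t (N : ℕ) {H : Type} [NormedAddCommGroup H] [InnerProductSpace ℂ H] [CompleteSpace H]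
    (ρ : Mt N →⋆ₐ[ℂ] (H →L[ℂ] H)) : ‖ρ (tM N)‖ ≤ 1 := by
  set q : Mt N := star (tM N) * tM N with hq
  have h1 : q * q = q := by
    rw [hq, tM_mul, Matrix.diagonal_mul_diagonal]
    congr 1
    ext b
    split_ifs <;> simp
  have h2 : star q = q := by rw [hq, star_mul, star_star]
  have h3 : ‖ρ q‖ ≤ 1 := by
    have h4 : ‖ρ q‖ * ‖ρ q‖ = ‖ρ q‖ := by
      rw [← CStarRing.norm_star_mul_self, ← map_star, ← map_mul, h2, h1]
    by_contra h
    push Not at h
    nlinarith
  have h5 : ‖ρ (tM N)‖ * ‖ρ (tM N)‖ ≤ 1 := by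
    rw [← CStarRing.norm_star_mul_self, ← map_star, ← map_mul]
    exact h3
  by_contra h
  push Not at h
  nlinarith

end Pool.Agent.HSP.MOD

namespace Pool.Agent.HSP

open MOD

theorem t_MOD (hFRO : Stmt_FRO) (hMODU : Stmt_MODU) (hMODM : Stmt_MODM) : Stmt_MOD := by
  intro D η hD hη hη'
  obtain ⟨U, hU1, hU2, hU3, hU4⟩ := hMODU (Idx D)
  let u : UU D := ⟨U, hU1, hU2, hU3, hU4⟩
  have hρ : ∀ i, ∃ ρ : Mt (D i) →⋆ₐ[ℂ] (HH D →L[ℂ] HH D), ρ (jM (D i)) = Es u i 0 0 ∧
      ∀ A, ρ A ∈ Submodule.span ℂ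
        (Set.range fun p : Fin (D i + 1) × Fin (D i + 1) => Es u i p.1 p.2) :=
    fun i => hMODM (D i) (HH D) (Es u i) (Es_mul u i) (Es_star u i) (Es_one u i)
  choose π hπ1 hπ2 using hρ
  have hTs : Summable (fun i => (η i : ℂ) • π i (tM (D i))) := by
    refine Summable.of_norm_bounded (g := fun i : ℕ => (1 / 2 : ℝ) ^ i) summable_geometric_two ?_
    intro i
    rw [norm_smul, Complex.norm_real, Real.norm_of_nonneg (hη i).le]
    have h1 := norm_t (D i) (π i)
    have h2 := hη' i
    have h3 := hη i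
    nlinarith [norm_nonneg (π i (tM (D i)))]
  have hsys : Sys D η (HH D) :=
    { π := π
      comm := by
        intro i j hij A B
        refine comm_span ?_ _ (hπ2 j B)
        rintro _ ⟨p, rfl⟩
        refine (comm_span ?_ _ (hπ2 i A)).symm
        rintro _ ⟨q, rfl⟩
        apply Eu_comm
        intro k hk hk'
        have h1 : k = j := hk
        have h2 : k = i := hk'
        exact hij (h2.symm.trans h1)
      T := ∑' i, (η i : ℂ) • π i (tM (D i))
      hasSum := hTs.hasSum
      P := Pu u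
      P_star := Pu_star u
      P_idem := Pu_idem u
      P_comm := by
        intro n i hi A
        refine comm_span ?_ _ (hπ2 i A)
        rintro _ ⟨q, rfl⟩
        apply Pu_comm
        intro k hk
        have h1 : k = i := hk
        omega
      P_step := by
        intro n
        rw [hπ1, ← P_step]
      P_lim := P_lim u
      rank1 := rank1 hFRO u π hπ2 }
  let b : HilbertBasis (Idx D) ℂ (HH D) := HilbertBasis.ofRepr (LinearIsometryEquiv.refl ℂ _)
  refine ⟨HH D, inferInstance, inferInstance, inferInstance, ?_, ?_, ⟨hsys⟩⟩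
  · have h1 : TopologicalSpace.IsSeparable
        ((Submodule.span ℂ (Set.range b) : Submodule ℂ (HH D)) : Set (HH D)) :=
      (Set.countable_range b).isSeparable.span
    have h2 := h1.closure
    have h3 : closure ((Submodule.span ℂ (Set.range b) : Submodule ℂ (HH D)) : Set (HH D)) = Set.univ := by
      have h4 := b.dense_span
      rw [← Submodule.topologicalClosure_coe, h4]
      rfl
    rw [h3] at h2
    exact TopologicalSpace.isSeparable_univ_iff.1 h2
  · intro hfin
    have h1 : Finite (Idx D) := b.orthonormal.linearIndependent.finite_of_isNoetherian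
    have h2 : Function.Injective (fun n : ℕ => (sgl n (⟨1, by have := hD n; omega⟩ : Fin (D n + 1)) : Idx D)) := by
      intro n m hnm
      by_contra h
      have h3 := congrArg (fun c : Idx D => c.1 n) hnm
      have h4 : (sgl n (⟨1, by have := hD n; omega⟩ : Fin (D n + 1)) : Idx D).1 n = 1 := sgl_self
      have h5 : (sgl m (⟨1, by have := hD m; omega⟩ : Fin (D m + 1)) : Idx D).1 n = 0 := by
        show (Finsupp.single m (1 : ℕ)) n = 0
        rw [Finsupp.single_apply, if_neg (fun h' => h h'.symm)]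
      simp only at h3
      rw [h4, h5] at h3
      omega
    have h3 : Finite ℕ := Finite.of_injective _ h2
    exact not_finite ℕ

end Pool.Agent.HSP
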