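import Pool.Agent.HSP.Closed
import Pool.Agent.HSP.MOD
import Pool.Agent.HSP.LEMQ

/-!
# The negation of the problem
-/

set_option autoImplicit false

namespace Pool.Agent.HSP

theorem c_LEMQ : Stmt_LEMQ := t_LEMQ c_NRM c_FLT t_LEMN
theorem c_MOD : Stmt_MOD := t_MOD t_FRO t_MODU t_MODM
theorem c_MAINA : Stmt_MAINA := t_MAINA c_NRM t_PAR c_ITER c_LEMQ

theorem not_main :
    ¬ (∀ (X : Type) [NormedAddCommGroup X] [NormedSpace ℂ X] [CompleteSpace X]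
      [TopologicalSpace.SeparableSpace X],
      ¬ FiniteDimensional ℂ X →
      Function.Surjective (NormedSpace.inclusionInDoubleDual ℂ X) →
      ∀ T : X →L[ℂ] X, (∀ c : ℂ, T ≠ c • ContinuousLinearMap.id ℂ X) →
        ∃ M : Submodule ℂ X, IsClosed (M : Set X) ∧ M ≠ ⊥ ∧ M ≠ ⊤ ∧
          ∀ S : X →L[ℂ] X, S * T = T * S → ∀ x ∈ M, S x ∈ M) :=
  not_main_of c_MAINA c_MOD t_REFL t_TNS

end Pool.Agent.HSP
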