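import Pool.Agent.HSP.Final

/-!
# The Hilbert space form
-/

set_option autoImplicit false

open Filter Topology

noncomputable section

namespace Pool.Agent.HSP

section Spec

variable {D : ℕ → ℕ} {η : ℕ → ℝ} {H : Type} [NormedAddCommGroup H] [InnerProductSpace ℂ H]
  [CompleteSpace H]

theorem tendsto_Tn (s : Sys D η H) : Tendsto s.Tn atTop (𝓝 s.T) := s.hasSum.tendsto_sum_nat

theorem comm_Tn_Tn (s : Sys D η H) (n m : ℕ) : Commute (s.Tn n) (s.Tn m) := by
  unfold Sys.Tn
  refine Commute.sum_left _ _ _ fun i _ => Commute.sum_right _ _ _ fun j _ => ?_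
  refine Commute.smul_left (Commute.smul_right ?_ _) _
  by_cases h : i = j
  · subst h
    exact Commute.refl _
  · exact s.comm i j h _ _

theorem comm_Tn_T (s : Sys D η H) (n : ℕ) : Commute (s.Tn n) s.T := by
  have h1 : Tendsto (fun m => s.Tn n * s.Tn m) atTop (𝓝 (s.Tn n * s.T)) :=
    (tendsto_Tn s).const_mul _
  have h2 : Tendsto (fun m => s.Tn m * s.Tn n) atTop (𝓝 (s.T * s.Tn n)) :=
    (tendsto_Tn s).mul_const _
  have h3 : (fun m => s.Tn n * s.Tn m) = fun m => s.Tn m * s.Tn n :=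
    funext fun m => comm_Tn_Tn s n m
  rw [h3] at h1
  exact tendsto_nhds_unique h1 h2

theorem spectrum_T [Nontrivial H] (s : Sys D η H) : spectrum ℂ s.T = {0} := by
  have hsub : spectrum ℂ s.T ⊆ {0} := by
    intro z hz
    by_contra hz0
    rw [Set.mem_singleton_iff] at hz0
    have h1 : Tendsto (fun n => ‖s.T - s.Tn n‖) atTop (𝓝 0) := by
      have := ((tendsto_const_nhds (x := s.T)).sub (tendsto_Tn s)).norm
      simpa using this
    obtain ⟨n, hn⟩ := (h1.eventually (gt_mem_nhds (norm_pos_iff.mpr hz0))).exists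
    have hu : IsUnit (algebraMap ℂ (H →L[ℂ] H) z - (s.T - s.Tn n)) :=
      spectrum.mem_resolventSet_of_norm_lt hn
    have hnil : IsNilpotent (-(s.Tn n)) :=
      IsNilpotent.neg ⟨_, LEMQ.Tn_pow s n⟩
    have hc : Commute (-(s.Tn n)) (algebraMap ℂ (H →L[ℂ] H) z - (s.T - s.Tn n)) := by
      refine Commute.neg_left ?_
      refine Commute.sub_right ?_ ?_
      · exact (Algebra.commutes z (s.Tn n)).symm
      · exact Commute.sub_right (comm_Tn_T s n) (Commute.refl _)
    have h2 := hnil.isUnit_add_left_of_commute hu hc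
    have h3 : algebraMap ℂ (H →L[ℂ] H) z - (s.T - s.Tn n) + -(s.Tn n) =
        algebraMap ℂ (H →L[ℂ] H) z - s.T := by abel
    rw [h3] at h2
    exact hz h2
  have hne : (spectrum ℂ s.T).Nonempty := spectrum.nonempty s.T
  exact (Set.Nonempty.subset_singleton_iff hne).mp hsub

end Spec

/-- The model form: a quasinilpotent operator. -/
theorem exists_model : ∃ (H : Type) (_ : NormedAddCommGroup H) (_ : InnerProductSpace ℂ H)
    (_ : CompleteSpace H), TopologicalSpace.SeparableSpace H ∧ ¬ FiniteDimensional ℂ H ∧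
    ∃ T : H →L[ℂ] H, T ≠ 0 ∧ spectrum ℂ T = {0} ∧
      ∀ x φ : H, (∀ S : H →L[ℂ] H, S * T = T * S → (inner ℂ φ (S x) : ℂ) = 0) →
        x = 0 ∨ φ = 0 := by
  obtain ⟨D, η, hD, hη, hηl, hab⟩ := c_MAINA
  obtain ⟨H, i1, i2, i3, hsep, hinf, ⟨s⟩⟩ := c_MOD D η hD hη hηl
  have : Nontrivial H := by
    by_contra hnt
    rw [not_nontrivial_iff_subsingleton] at hnt
    exact hinf inferInstance
  refine ⟨H, i1, i2, i3, hsep, hinf, s.T, ?_, spectrum_T s, fun x φ h => hab H s x φ h⟩
  have h0 := t_TNS D η H s (hD 0) (hη 0).ne' 0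
  intro h
  exact h0 (by rw [h, zero_smul])

/-- Two separable infinite dimensional Hilbert spaces are isomorphic. -/
theorem exists_iso (H₁ : Type*) [NormedAddCommGroup H₁] [InnerProductSpace ℂ H₁]
    [CompleteSpace H₁] [TopologicalSpace.SeparableSpace H₁] (h₁ : ¬ FiniteDimensional ℂ H₁) :
    Nonempty (H₁ ≃ₗᵢ[ℂ] lp (fun _ : ℕ => ℂ) 2) := by
  obtain ⟨w, b, hb⟩ := exists_hilbertBasis ℂ H₁
  have hinf : Infinite w := by
    rw [← not_finite_iff_infinite]
    intro hfin
    have := Fintype.ofFinite w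
    exact h₁ (b.toOrthonormalBasis.toBasis.finiteDimensional_of_finite)
  have hcount : Countable w := by
    have hsep : Set.Pairwise (Set.univ : Set w) fun i j => 1 ≤ dist (b i) (b j) := by
      intro i _ j _ hij
      have h1 : ‖b i - b j‖ ^ 2 = 2 := by
        rw [@norm_sub_sq ℂ, b.orthonormal.1 i, b.orthonormal.1 j,
          b.orthonormal.2 hij]
        norm_num
      rw [dist_eq_norm]
      nlinarith [norm_nonneg (b i - b j)]
    have hc : (Set.univ : Set w).Countable := by
      refine Set.PairwiseDisjoint.countable_of_isOpen (s := fun i : w => Metric.ball (b i) (1 / 2))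
        ?_ (fun i _ => Metric.isOpen_ball) (fun i _ => ⟨b i, Metric.mem_ball_self (by norm_num)⟩)
      intro i _ j _ hij
      refine Metric.ball_disjoint_ball ?_
      have := hsep (Set.mem_univ i) (Set.mem_univ j) hij
      linarith
    exact Set.countable_univ_iff.mp hc
  have hden : Nonempty (w ≃ ℕ) := nonempty_equiv_of_countable
  obtain ⟨e⟩ := hden
  have hON : Orthonormal ℂ (fun n : ℕ => b (e.symm n)) := b.orthonormal.comp _ e.symm.injective
  have hsp : ⊤ ≤ (Submodule.span ℂ (Set.range fun n : ℕ => b (e.symm n))).topologicalClosure := by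
    have : Set.range (fun n : ℕ => b (e.symm n)) = Set.range b := by
      have := e.symm.surjective.range_comp (b : w → H₁)
      exact this
    rw [this]
    exact b.dense_span.ge
  exact ⟨(HilbertBasis.mk hON hsp).repr⟩

/-- Conjugation with an isomorphism. -/
def conjA {E F : Type*} [NormedAddCommGroup E] [NormedSpace ℂ E] [NormedAddCommGroup F]
    [NormedSpace ℂ F] (u : E ≃L[ℂ] F) : (E →L[ℂ] E) ≃ₐ[ℂ] (F →L[ℂ] F) where
  toFun A := (u : E →L[ℂ] F).comp (A.comp (u.symm : F →L[ℂ] E))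
  invFun B := (u.symm : F →L[ℂ] E).comp (B.comp (u : E →L[ℂ] F))
  left_inv A := by
    ext x
    simp
  right_inv B := by
    ext x
    simp
  map_mul' A B := by
    ext x
    simp
  map_add' A B := by
    ext x
    simp
  commutes' z := by
    ext x
    simp [Algebra.algebraMap_eq_smul_one]

/-- The Hilbert space form of the theorem. -/
theorem hilbert (H : Type*) [NormedAddCommGroup H] [InnerProductSpace ℂ H] [CompleteSpace H]
    [TopologicalSpace.SeparableSpace H] (hH : ¬ FiniteDimensional ℂ H) :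
    ∃ T : H →L[ℂ] H, T ≠ 0 ∧ spectrum ℂ T = {0} ∧
      ∀ M : Submodule ℂ H, IsClosed (M : Set H) →
        (∀ S : H →L[ℂ] H, S * T = T * S → ∀ x ∈ M, S x ∈ M) → M = ⊥ ∨ M = ⊤ := by
  obtain ⟨H0, i1, i2, i3, hsep, hinf, T0, hT0, hspec, hort⟩ := exists_model
  obtain ⟨e0⟩ := exists_iso H0 hinf
  obtain ⟨e⟩ := exists_iso H hH
  set u : H0 ≃ₗᵢ[ℂ] H := e0.trans e.symm with hu
  set φ := conjA u.toContinuousLinearEquiv with hφ
  have hφa : ∀ (A : H0 →L[ℂ] H0) (x : H), φ A x = u (A (u.symm x)) := fun A x => rfl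
  refine ⟨φ T0, ?_, ?_, ?_⟩
  · intro h
    exact hT0 (φ.injective (by rw [h, map_zero]))
  · rw [AlgEquiv.spectrum_eq]
    exact hspec
  · intro M hM hinv
    by_contra hcon
    rw [not_or] at hcon
    obtain ⟨hM0, hM1⟩ := hcon
    have : CompleteSpace M := hM.completeSpace_coe
    obtain ⟨x, hxM, hx0⟩ := M.exists_mem_ne_zero_of_ne_bot hM0
    have hMo : Mᗮ ≠ ⊥ := fun h => hM1 ((Submodule.orthogonal_eq_bot_iff).mp h)
    obtain ⟨ψ, hψM, hψ0⟩ := Mᗮ.exists_mem_ne_zero_of_ne_bot hMo
    rcases hort (u.symm x) (u.symm ψ) (fun S hS => by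
      have hmem : φ S x ∈ M := hinv (φ S) (by rw [← map_mul, hS, map_mul]) x hxM
      have h1 := (Submodule.mem_orthogonal' M ψ).mp hψM _ hmem
      rw [hφa] at h1
      have h2 := LinearIsometryEquiv.inner_map_map u (u.symm ψ) (S (u.symm x))
      rw [LinearIsometryEquiv.apply_symm_apply] at h2
      rw [← h2]
      exact h1) with h | h
    · exact hx0 (by simpa using h)
    · exact hψ0 (by simpa using h)

end Pool.Agent.HSP
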