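import Pool.Agent.HSP.Stmts

set_option autoImplicit false

open Filter Topology
open scoped ComplexOrder

noncomputable section

namespace Pool.Agent.HSP.MOD

open Classical in
/-- finitely supported index sequences -/
def Idx (D : ℕ → ℕ) : Type := {c : ℕ →₀ ℕ // ∀ i, c i ≤ D i}

instance instCI (D : ℕ → ℕ) : Countable (Idx D) := by unfold Idx; infer_instance

variable {D : ℕ → ℕ}

theorem Idx_ext {a b : Idx D} (h : ∀ i, a.1 i = b.1 i) : a = b := Subtype.ext (Finsupp.ext h)

open Classical in
/-- `a` on `S`, `b` off `S` -/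
def mix (S : Set ℕ) (a b : Idx D) : Idx D :=
  ⟨a.1.filter (fun i => i ∈ S) + b.1.filter (fun i => i ∉ S), by
    intro i
    rw [Finsupp.add_apply, Finsupp.filter_apply, Finsupp.filter_apply]
    have h1 := a.2 i
    have h2 := b.2 i
    by_cases h : i ∈ S
    · simp only [h, if_true, not_true, if_false]; omega
    · simp only [h, if_false, not_false_iff, if_true]; omega⟩

theorem mix_in {S : Set ℕ} {a b : Idx D} {i : ℕ} (h : i ∈ S) : (mix S a b).1 i = a.1 i := by
  unfold mix
  rw [Finsupp.add_apply, Finsupp.filter_apply, Finsupp.filter_apply]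
  simp only [h, if_true, not_true, if_false, add_zero]

theorem mix_out {S : Set ℕ} {a b : Idx D} {i : ℕ} (h : i ∉ S) : (mix S a b).1 i = b.1 i := by
  unfold mix
  rw [Finsupp.add_apply, Finsupp.filter_apply, Finsupp.filter_apply]
  simp only [h, if_false, not_false_iff, if_true, zero_add]

/-- agreement on `S` -/
def agr (S : Set ℕ) (a b : Idx D) : Prop := ∀ i ∈ S, a.1 i = b.1 i

theorem agr_mix {S : Set ℕ} {a b : Idx D} : agr S (mix S a b) a := fun _ h => mix_in h

theorem agr_symm {S : Set ℕ} {a b : Idx D} (h : agr S a b) : agr S b a := fun i hi => (h i hi).symm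

theorem agr_trans {S : Set ℕ} {a b c : Idx D} (h : agr S a b) (h' : agr S b c) : agr S a c :=
  fun i hi => (h i hi).trans (h' i hi)

theorem mix_mix {S : Set ℕ} {a b x : Idx D} : mix S a (mix S b x) = mix S a x := by
  apply Idx_ext
  intro i
  by_cases h : i ∈ S
  · rw [mix_in h, mix_in h]
  · rw [mix_out h, mix_out h, mix_out h]

theorem mix_self {S : Set ℕ} {a x : Idx D} (h : agr S x a) : mix S a x = x := by
  apply Idx_ext
  intro i
  by_cases hi : i ∈ S
  · rw [mix_in hi, h i hi]
  · rw [mix_out hi]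

theorem mix_congr {S : Set ℕ} {a b x : Idx D} (h : agr S a b) : mix S a x = mix S b x := by
  apply Idx_ext
  intro i
  by_cases hi : i ∈ S
  · rw [mix_in hi, mix_in hi, h i hi]
  · rw [mix_out hi, mix_out hi]

open Classical in
/-- the matrix units as injections with a domain -/
def tau (S : Set ℕ) (a b : Idx D) : Idx D ≃. Idx D where
  toFun x := if agr S x a then some (mix S b x) else none
  invFun y := if agr S y b then some (mix S a y) else none
  inv := by
    intro x y
    constructor
    · intro h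
      by_cases hy : agr S y b
      · rw [if_pos hy, Option.some_inj] at h
        subst h
        rw [if_pos agr_mix, Option.some_inj, mix_mix, mix_self hy]
      · rw [if_neg hy] at h
        exact absurd h (by simp)
    · intro h
      by_cases hx : agr S x a
      · rw [if_pos hx, Option.some_inj] at h
        subst h
        rw [if_pos agr_mix, Option.some_inj, mix_mix, mix_self hx]
      · rw [if_neg hx] at h
        exact absurd h (by simp)

open Classical in
theorem tau_apply (S : Set ℕ) (a b x : Idx D) :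
    tau S a b x = if agr S x a then some (mix S b x) else none := rfl

theorem tau_symm (S : Set ℕ) (a b : Idx D) : (tau S a b).symm = tau S b a := by
  apply PEquiv.ext
  intro x
  rfl

theorem trans_apply' {I : Type} (σ τ : I ≃. I) (x : I) : (σ.trans τ) x = (σ x).bind τ := rfl

theorem tau_pos {S : Set ℕ} {a x : Idx D} (b : Idx D) (h : agr S x a) : tau S a b x = some (mix S b x) := by
  rw [tau_apply, if_pos h]

theorem tau_neg {S : Set ℕ} {a x : Idx D} (b : Idx D) (h : ¬ agr S x a) : tau S a b x = none := by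
  rw [tau_apply, if_neg h]

theorem tau_trans_pos {S : Set ℕ} {a b c d : Idx D} (h : agr S b c) :
    (tau S a b).trans (tau S c d) = tau S a d := by
  apply PEquiv.ext
  intro x
  rw [trans_apply']
  by_cases hx : agr S x a
  · rw [tau_pos b hx, tau_pos d hx, Option.bind_some, tau_pos d (agr_trans agr_mix h), mix_mix]
  · rw [tau_neg b hx, tau_neg d hx, Option.bind_none]

theorem tau_trans_neg {S : Set ℕ} {a b c d : Idx D} (h : ¬ agr S b c) :
    (tau S a b).trans (tau S c d) = ⊥ := by
  apply PEquiv.ext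
  intro x
  rw [trans_apply', PEquiv.bot_apply]
  by_cases hx : agr S x a
  · rw [tau_pos b hx, Option.bind_some, tau_neg d]
    intro h'
    exact h (agr_trans (agr_symm agr_mix) h')
  · rw [tau_neg b hx, Option.bind_none]

theorem tau_comm {S S' : Set ℕ} (hS : ∀ i ∈ S, i ∉ S') (a b c d : Idx D) :
    (tau S a b).trans (tau S' c d) = (tau S' c d).trans (tau S a b) := by
  have h1 : ∀ x : Idx D, agr S' (mix S b x) c ↔ agr S' x c := by
    intro x
    constructor
    · intro h i hi
      have : i ∉ S := fun h' => hS i h' hi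
      rw [← h i hi, mix_out this]
    · intro h i hi
      have : i ∉ S := fun h' => hS i h' hi
      rw [mix_out this, h i hi]
  have h2 : ∀ x : Idx D, agr S (mix S' d x) a ↔ agr S x a := by
    intro x
    constructor
    · intro h i hi
      rw [← h i hi, mix_out (hS i hi)]
    · intro h i hi
      rw [mix_out (hS i hi), h i hi]
  have h3 : ∀ x : Idx D, mix S' d (mix S b x) = mix S b (mix S' d x) := by
    intro x
    apply Idx_ext
    intro i
    by_cases hi : i ∈ S
    · rw [mix_out (hS i hi), mix_in hi, mix_in hi]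
    · by_cases hi' : i ∈ S'
      · rw [mix_in hi', mix_out hi, mix_in hi']
      · rw [mix_out hi', mix_out hi, mix_out hi, mix_out hi']
  apply PEquiv.ext
  intro x
  rw [trans_apply', trans_apply']
  by_cases hx : agr S x a
  · by_cases hx' : agr S' x c
    · rw [tau_pos b hx, tau_pos d hx', Option.bind_some, Option.bind_some,
        tau_pos d ((h1 x).2 hx'), tau_pos b ((h2 x).2 hx), h3]
    · rw [tau_pos b hx, tau_neg d hx', Option.bind_some, Option.bind_none,
        tau_neg d (fun h => hx' ((h1 x).1 h))]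
  · by_cases hx' : agr S' x c
    · rw [tau_neg b hx, tau_pos d hx', Option.bind_some, Option.bind_none,
        tau_neg b (fun h => hx ((h2 x).1 h))]
    · rw [tau_neg b hx, tau_neg d hx', Option.bind_none, Option.bind_none]

/-- the index set of the projection -/
def KS (n : ℕ) : Set (Idx D) := {c | ∀ i, n ≤ i → c.1 i = 0}

open Classical in
/-- identity on a subset -/
def pid (n : ℕ) : Idx D ≃. Idx D := PEquiv.ofSet (KS n)

open Classical in
theorem pid_apply (n : ℕ) (x : Idx D) : pid n x = if x ∈ KS n then some x else none := by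
  unfold pid
  by_cases h : x ∈ KS n
  · rw [if_pos h, PEquiv.ofSet_eq_some_self_iff]
    exact h
  · rw [if_neg h]
    unfold PEquiv.ofSet
    rw [PEquiv.coe_mk, if_neg h]

theorem pid_pos {n : ℕ} {x : Idx D} (h : x ∈ KS n) : pid n x = some x := by
  rw [pid_apply, if_pos h]

theorem pid_neg {n : ℕ} {x : Idx D} (h : x ∉ KS n) : pid n x = none := by
  rw [pid_apply, if_neg h]

theorem pid_tau_comm {S : Set ℕ} {n : ℕ} (hS : ∀ i ∈ S, i < n) (a b : Idx D) :
    (pid n).trans (tau S a b) = (tau S a b).trans (pid n) := by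
  have h1 : ∀ x : Idx D, mix S b x ∈ KS n ↔ x ∈ KS n := by
    intro x
    constructor
    · intro h i hi
      have : i ∉ S := fun h' => absurd (hS i h') (by omega)
      have := h i hi
      rwa [mix_out (by assumption)] at this
    · intro h i hi
      have : i ∉ S := fun h' => absurd (hS i h') (by omega)
      rw [mix_out this, h i hi]
  apply PEquiv.ext
  intro x
  rw [trans_apply', trans_apply']
  by_cases hx : agr S x a
  · by_cases hx' : x ∈ KS n
    · rw [pid_pos hx', tau_pos b hx, Option.bind_some, Option.bind_some, tau_pos b hx,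
        pid_pos ((h1 x).2 hx')]
    · rw [pid_neg hx', tau_pos b hx, Option.bind_some, Option.bind_none,
        pid_neg (fun h => hx' ((h1 x).1 h))]
  · by_cases hx' : x ∈ KS n
    · rw [pid_pos hx', tau_neg b hx, Option.bind_some, Option.bind_none, tau_neg b hx]
    · rw [pid_neg hx', tau_neg b hx, Option.bind_none, Option.bind_none]

/-- the single index -/
def sgl (i : ℕ) (a : Fin (D i + 1)) : Idx D :=
  ⟨Finsupp.single i (a : ℕ), by
    intro j
    rw [Finsupp.single_apply]
    split_ifs with h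
    · subst h; have := a.2; omega
    · omega⟩

theorem agr_sgl {i : ℕ} {x : Idx D} {a : Fin (D i + 1)} : agr {i} x (sgl i a) ↔ x.1 i = a := by
  constructor
  · intro h
    have := h i rfl
    rw [this]
    show (Finsupp.single i (a : ℕ)) i = _
    rw [Finsupp.single_eq_same]
  · intro h j hj
    have hj' : j = i := hj
    subst hj'
    rw [h]
    show _ = (Finsupp.single j (a : ℕ)) j
    rw [Finsupp.single_eq_same]

/-- the Hilbert space -/
abbrev HH (D : ℕ → ℕ) : Type := lp (fun _ : Idx D => ℂ) 2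

/-- the action of injections with a domain -/
structure UU (D : ℕ → ℕ) where
  U : (Idx D ≃. Idx D) → (HH D →L[ℂ] HH D)
  ap : ∀ (σ : Idx D ≃. Idx D) (x : HH D) (c : Idx D),
    (U σ x : Idx D → ℂ) c = (σ c).elim 0 (fun c' => (x : Idx D → ℂ) c')
  mul : ∀ σ τ, U σ * U τ = U (σ.trans τ)
  st : ∀ σ, star (U σ) = U σ.symm
  nm : ∀ σ, ‖U σ‖ ≤ 1

theorem HH_ext {x y : HH D} (h : ∀ c, (x : Idx D → ℂ) c = (y : Idx D → ℂ) c) : x = y :=
  lp.ext (funext h)

theorem U_bot (u : UU D) : u.U ⊥ = 0 := by
  ext x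
  apply congrFun
  apply congrArg
  apply HH_ext
  intro c
  rw [u.ap, PEquiv.bot_apply]
  rfl

/-- general matrix units -/
def Eu (u : UU D) (S : Set ℕ) (a b : Idx D) : HH D →L[ℂ] HH D := u.U (tau S a b)

theorem Eu_pos (u : UU D) {S : Set ℕ} {a b c d : Idx D} (h : agr S b c) :
    Eu u S a b * Eu u S c d = Eu u S a d := by
  unfold Eu
  rw [u.mul, tau_trans_pos h]

theorem Eu_neg (u : UU D) {S : Set ℕ} {a b c d : Idx D} (h : ¬ agr S b c) :
    Eu u S a b * Eu u S c d = 0 := by
  unfold Eu
  rw [u.mul, tau_trans_neg h, U_bot]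

theorem Eu_star (u : UU D) (S : Set ℕ) (a b : Idx D) : star (Eu u S a b) = Eu u S b a := by
  unfold Eu
  rw [u.st, tau_symm]

theorem Eu_comm (u : UU D) {S S' : Set ℕ} (hS : ∀ i ∈ S, i ∉ S') (a b c d : Idx D) :
    Commute (Eu u S a b) (Eu u S' c d) := by
  unfold Eu
  show _ * _ = _ * _
  rw [u.mul, u.mul, tau_comm hS]

theorem Eu_ap_pos (u : UU D) {S : Set ℕ} {a b c : Idx D} (h : agr S c a) (x : HH D) :
    (Eu u S a b x : Idx D → ℂ) c = (x : Idx D → ℂ) (mix S b c) := by
  unfold Eu
  rw [u.ap, tau_pos b h]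
  rfl

theorem Eu_ap_neg (u : UU D) {S : Set ℕ} {a b c : Idx D} (h : ¬ agr S c a) (x : HH D) :
    (Eu u S a b x : Idx D → ℂ) c = 0 := by
  unfold Eu
  rw [u.ap, tau_neg b h]
  rfl

/-- the projections -/
def Pu (u : UU D) (n : ℕ) : HH D →L[ℂ] HH D := u.U (pid n)

theorem Pu_ap_pos (u : UU D) {n : ℕ} {c : Idx D} (h : c ∈ KS n) (x : HH D) :
    (Pu u n x : Idx D → ℂ) c = (x : Idx D → ℂ) c := by
  unfold Pu
  rw [u.ap, pid_pos h]
  rfl

theorem Pu_ap_neg (u : UU D) {n : ℕ} {c : Idx D} (h : c ∉ KS n) (x : HH D) :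
    (Pu u n x : Idx D → ℂ) c = 0 := by
  unfold Pu
  rw [u.ap, pid_neg h]
  rfl

theorem Pu_comm (u : UU D) {S : Set ℕ} {n : ℕ} (hS : ∀ i ∈ S, i < n) (a b : Idx D) :
    Commute (Pu u n) (Eu u S a b) := by
  unfold Eu Pu
  show _ * _ = _ * _
  rw [u.mul, u.mul, pid_tau_comm hS]

theorem Pu_star (u : UU D) (n : ℕ) : IsSelfAdjoint (Pu u n) := by
  unfold Pu
  show star _ = _
  rw [u.st]
  unfold pid
  rw [PEquiv.ofSet_symm]

theorem Pu_idem (u : UU D) (n : ℕ) : Pu u n * Pu u n = Pu u n := by
  refine ContinuousLinearMap.ext fun x => HH_ext fun c => ?_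
  rw [mul_apply_eq_comp]
  by_cases h : c ∈ KS n
  · rw [Pu_ap_pos u h]
  · rw [Pu_ap_neg u h, Pu_ap_neg u h]

/-- site matrix units -/
def Es (u : UU D) (i : ℕ) (a b : Fin (D i + 1)) : HH D →L[ℂ] HH D := Eu u {i} (sgl i a) (sgl i b)

theorem sgl_self {i : ℕ} {a : Fin (D i + 1)} : (sgl i a : Idx D).1 i = a := by
  show (Finsupp.single i (a : ℕ)) i = _
  rw [Finsupp.single_eq_same]

theorem Es_mul (u : UU D) (i : ℕ) (a b c d : Fin (D i + 1)) :
    Es u i a b * Es u i c d = if b = c then Es u i a d else 0 := by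
  unfold Es
  by_cases h : b = c
  · rw [if_pos h]
    apply Eu_pos
    rw [agr_sgl, sgl_self, h]
  · rw [if_neg h]
    apply Eu_neg
    rw [agr_sgl, sgl_self]
    exact fun h' => h (Fin.ext h')

theorem Es_star (u : UU D) (i : ℕ) (a b : Fin (D i + 1)) : star (Es u i a b) = Es u i b a :=
  Eu_star u _ _ _

theorem lp_sum_apply {K : Type} (s : Finset K) (f : K → HH D) (c : Idx D) :
    ((∑ k ∈ s, f k : HH D) : Idx D → ℂ) c = ∑ k ∈ s, (f k : Idx D → ℂ) c := by
  classical
  induction s using Finset.induction_on with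
  | empty => simp
  | insert a s ha ih => rw [Finset.sum_insert ha, Finset.sum_insert ha, ← ih]; rfl

theorem Es_one (u : UU D) (i : ℕ) : ∑ a, Es u i a a = 1 := by
  refine ContinuousLinearMap.ext fun x => HH_ext fun c => ?_
  rw [sum_apply, lp_sum_apply]
  have hc : c.1 i < D i + 1 := by have := c.2 i; omega
  rw [Finset.sum_eq_single (⟨c.1 i, hc⟩ : Fin (D i + 1))]
  · unfold Es
    have h : agr {i} c (sgl i (⟨c.1 i, hc⟩ : Fin (D i + 1))) := by rw [agr_sgl]
    rw [Eu_ap_pos u h, mix_self h]
    rfl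
  · intro b _ hb
    unfold Es
    apply Eu_ap_neg
    rw [agr_sgl]
    intro h
    exact hb (Fin.ext h.symm)
  · intro h
    exact absurd (Finset.mem_univ _) h

theorem P_step (u : UU D) (n : ℕ) : Pu u n = Pu u (n + 1) * Es u n 0 0 := by
  refine ContinuousLinearMap.ext fun x => HH_ext fun c => ?_
  rw [mul_apply_eq_comp]
  by_cases h : c ∈ KS n
  · have h1 : c ∈ KS (n + 1) := fun i hi => h i (by omega)
    have h2 : agr {n} c (sgl n (0 : Fin (D n + 1))) := by
      rw [agr_sgl]
      exact h n le_rfl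
    rw [Pu_ap_pos u h, Pu_ap_pos u h1]
    unfold Es
    rw [Eu_ap_pos u h2, mix_self h2]
  · rw [Pu_ap_neg u h]
    by_cases h1 : c ∈ KS (n + 1)
    · rw [Pu_ap_pos u h1]
      unfold Es
      rw [Eu_ap_neg u]
      rw [agr_sgl]
      intro h2
      apply h
      intro i hi
      rcases Nat.lt_or_ge n i with h3 | h3
      · exact h1 i h3
      · have : i = n := by omega
        rw [this]
        exact h2
    · rw [Pu_ap_neg u h1]

theorem comm_span {X : HH D →L[ℂ] HH D} {S : Set (HH D →L[ℂ] HH D)}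
    (h : ∀ y ∈ S, Commute X y) : ∀ y ∈ Submodule.span ℂ S, Commute X y := by
  intro y hy
  induction hy using Submodule.span_induction with
  | mem x hx => exact h x hx
  | zero => exact Commute.zero_right _
  | add x y _ _ h1 h2 => exact h1.add_right h2
  | smul a x _ h1 => exact h1.smul_right a

theorem ev_KS (c : Idx D) : ∀ᶠ n in atTop, c ∈ KS n := by
  rw [eventually_atTop]
  refine ⟨c.1.support.sup id + 1, fun n hn i hi => ?_⟩
  by_contra h
  have h1 : i ∈ c.1.support := Finsupp.mem_support_iff.2 h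
  have h2 : i ≤ c.1.support.sup id := Finset.le_sup (f := id) h1
  omega

theorem P_lim (u : UU D) (x : HH D) : Tendsto (fun n => Pu u n x) atTop (𝓝 x) := by
  classical
  rw [Metric.tendsto_atTop]
  intro ε hε
  have h1 := lp.hasSum_single (E := fun _ : Idx D => ℂ) (p := 2) (by norm_num) x
  obtain ⟨s, hs⟩ := ((Metric.tendsto_nhds.1 h1) (ε / 2) (by linarith)).exists
  have h2 : ∀ᶠ n in atTop, ∀ c ∈ s, c ∈ KS n := (Finset.eventually_all s).2 fun c _ => ev_KS c
  obtain ⟨N, hN⟩ := eventually_atTop.1 h2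
  refine ⟨N, fun n hn => ?_⟩
  set y : HH D := ∑ c ∈ s, lp.single 2 c ((x : Idx D → ℂ) c) with hy
  have h3 : Pu u n y = y := by
    apply HH_ext
    intro c
    by_cases h : c ∈ KS n
    · rw [Pu_ap_pos u h]
    · rw [Pu_ap_neg u h, hy, lp_sum_apply]
      symm
      apply Finset.sum_eq_zero
      intro k hk
      apply lp.single_apply_ne
      rintro rfl
      exact h (hN n hn _ hk)
  have h4 : dist y x < ε / 2 := hs
  have h5 : Pu u n x - x = Pu u n (x - y) + (y - x) := by
    rw [map_sub, h3]; abel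
  rw [dist_eq_norm, h5]
  have h6 : ‖Pu u n (x - y)‖ ≤ ‖x - y‖ := by
    have := (Pu u n).le_of_opNorm_le (u.nm _) (x - y)
    rwa [one_mul] at this
  have h7 := norm_add_le (Pu u n (x - y)) (y - x)
  have h8 : ‖x - y‖ = dist y x := by rw [dist_comm, dist_eq_norm]
  have h9 : ‖y - x‖ = dist y x := by rw [dist_eq_norm]
  linarith

end Pool.Agent.HSP.MOD
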