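import Pool.Agent.HSP.Stmts

/-!
# Assembly
-/

set_option autoImplicit false

open Filter Topology
open scoped ComplexOrder

noncomputable section

namespace Pool.Agent.HSP

theorem t_MAINA (hNRM : Stmt_NRM) (hPAR : Stmt_PAR) (hITER : Stmt_ITER) (hLEMQ : Stmt_LEMQ) :
    Stmt_MAINA := by
  obtain ⟨f, c, D, η, B, hpar, hG⟩ := hPAR Good hLEMQ
  refine ⟨D, η, ?_, hpar.η_pos, hpar.η_le, ?_⟩
  · intro i
    have h1 := hpar.D_eq i
    have h2 := hpar.f_pos i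
    omega
  intro H _ _ _ s x φ hxφ
  by_contra hcon
  rw [not_or] at hcon
  obtain ⟨hx, hφ⟩ := hcon
  -- normalise
  have hx' : ‖x‖ ≠ 0 := norm_ne_zero_iff.mpr hx
  have hφ' : ‖φ‖ ≠ 0 := norm_ne_zero_iff.mpr hφ
  obtain ⟨x1, hx1, hx1d⟩ : ∃ x1 : H, ‖x1‖ = 1 ∧ x1 = ((‖x‖ : ℂ))⁻¹ • x := by
    refine ⟨((‖x‖ : ℂ))⁻¹ • x, ?_, rfl⟩
    rw [norm_smul, norm_inv, Complex.norm_real, norm_norm, inv_mul_cancel₀ hx']
  obtain ⟨φ1, hφ1, hφ1d⟩ : ∃ φ1 : H, ‖φ1‖ = 1 ∧ φ1 = ((‖φ‖ : ℂ))⁻¹ • φ := by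
    refine ⟨((‖φ‖ : ℂ))⁻¹ • φ, ?_, rfl⟩
    rw [norm_smul, norm_inv, Complex.norm_real, norm_norm, inv_mul_cancel₀ hφ']
  have hort : ∀ Φ : H →L[ℂ] H, Commute Φ s.T → (inner ℂ φ1 (Φ x1) : ℂ) = 0 := by
    intro Φ hΦ
    rw [hx1d, hφ1d, map_smul, inner_smul_left, inner_smul_right, hxφ Φ hΦ, mul_zero, mul_zero]
  have hex : ∃ l : ℕ, ‖x1 - s.P l x1‖ ≤ 1 / 2048 ∧ ‖φ1 - s.P l φ1‖ ≤ 1 / 2048 := by
    have h1 : Tendsto (fun l => ‖x1 - s.P l x1‖) atTop (𝓝 0) := by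
      have := ((tendsto_const_nhds (x := x1)).sub (s.P_lim x1)).norm
      simpa using this
    have h2 : Tendsto (fun l => ‖φ1 - s.P l φ1‖) atTop (𝓝 0) := by
      have := ((tendsto_const_nhds (x := φ1)).sub (s.P_lim φ1)).norm
      simpa using this
    have h3 := (h1.eventually (ge_mem_nhds (show (0 : ℝ) < 1 / 2048 by norm_num))).and
      (h2.eventually (ge_mem_nhds (show (0 : ℝ) < 1 / 2048 by norm_num)))
    exact h3.exists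
  obtain ⟨l, hl1, hl2⟩ := hex
  obtain ⟨u, α, hu, hα, hux, hαφ, hsmall⟩ := hITER f c D η B hpar H s l x1 φ1 hx1 hφ1 hort hl1 hl2
  have hPl : ∀ v : H, s.P l (s.P l v) = s.P l v := by
    intro v
    rw [← ContinuousLinearMap.mul_apply, s.P_idem]
  have hPn : ∀ v : H, ‖v‖ = 1 → ‖s.P l v‖ ≤ 1 := by
    intro v hv
    have := (s.P l).le_opNorm v
    rw [hv, mul_one] at this
    exact this.trans ((hNRM D η H s 0).2.2.2.2.1 l)
  have hlow : ∀ v : H, ‖v‖ = 1 → ‖v - s.P l v‖ ≤ 1 / 2048 → 1 / 2 ≤ ‖s.P l v‖ := by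
    intro v hv h
    have := norm_sub_norm_le v (s.P l v)
    linarith
  have hup : ∀ u v : H, ‖v‖ = 1 → ‖u - s.P l v‖ ≤ 5 / 2048 → ‖u‖ ≤ 2 := by
    intro u v hv h
    have h1 := norm_sub_norm_le u (s.P l v)
    have h2 := hPn v hv
    linarith
  obtain ⟨Φ, hΦ, hΦ0, hbig⟩ := hG l D η H s l hpar.η_pos hpar.η_le rfl rfl (hpar.D_eq l) u α
    (s.P l x1) (s.P l φ1) hu hα (hPl x1) (hPl φ1) (hlow x1 hx1 hl1) (hlow φ1 hφ1 hl2) hux hαφ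
    (hup u x1 hx1 hux) (hup α φ1 hφ1 hαφ)
  have h1 := hsmall Φ hΦ
  have h2 : 0 < ‖Φ‖ := norm_pos_iff.mpr hΦ0
  have h3 : 0 < Real.exp (-(32 * (f l : ℝ))) := Real.exp_pos _
  have h4 : 0 < Real.exp (-(32 * (f l : ℝ))) * ‖Φ‖ := mul_pos h3 h2
  nlinarith [h1, hbig, h4]

/-- The negation of the problem, from the modules. -/
theorem not_main_of (hMAINA : Stmt_MAINA) (hMOD : Stmt_MOD) (hREFL : Stmt_REFL)
    (hTNS : Stmt_TNS) :
    ¬ (∀ (X : Type) [NormedAddCommGroup X] [NormedSpace ℂ X] [CompleteSpace X]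
      [TopologicalSpace.SeparableSpace X],
      ¬ FiniteDimensional ℂ X →
      Function.Surjective (NormedSpace.inclusionInDoubleDual ℂ X) →
      ∀ T : X →L[ℂ] X, (∀ c : ℂ, T ≠ c • ContinuousLinearMap.id ℂ X) →
        ∃ M : Submodule ℂ X, IsClosed (M : Set X) ∧ M ≠ ⊥ ∧ M ≠ ⊤ ∧
          ∀ S : X →L[ℂ] X, S * T = T * S → ∀ x ∈ M, S x ∈ M) := by
  intro hmain
  obtain ⟨D, η, hD, hη, hηl, hab⟩ := hMAINA
  obtain ⟨H, i1, i2, i3, hsep, hinf, ⟨s⟩⟩ := hMOD D η hD hη hηl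
  haveI : Nontrivial H := by
    by_contra hnt
    rw [not_nontrivial_iff_subsingleton] at hnt
    exact hinf inferInstance
  obtain ⟨M, hMc, hM0, hM1, hMinv⟩ := hmain H hinf (hREFL H) s.T
    (hTNS D η H s (hD 0) (hη 0).ne')
  haveI : CompleteSpace M := hMc.completeSpace_coe
  obtain ⟨x, hxM, hx0⟩ := M.exists_mem_ne_zero_of_ne_bot hM0
  have hMo : Mᗮ ≠ ⊥ := by
    intro h
    exact hM1 ((Submodule.orthogonal_eq_bot_iff).mp h)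
  obtain ⟨φ, hφM, hφ0⟩ := Mᗮ.exists_mem_ne_zero_of_ne_bot hMo
  rcases hab H s x φ (fun Φ hΦ => by
    have hmem : Φ x ∈ M := hMinv Φ hΦ x hxM
    exact (Submodule.mem_orthogonal' M φ).mp hφM (Φ x) hmem) with h | h
  · exact hx0 h
  · exact hφ0 h

end Pool.Agent.HSP
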