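import Pool.Agent.HSP.Defs

/-!
# Statements of the modules (proofs: `PAPER.md`)
-/

set_option autoImplicit false

open Filter Topology
open scoped ComplexOrder

noncomputable section

namespace Pool.Agent.HSP

/-- FRO: Frobenius bound for a system of matrix units. -/
def Stmt_FRO : Prop :=
  ∀ (K : Type) [Fintype K] [DecidableEq K] (H : Type) [NormedAddCommGroup H]
    [InnerProductSpace ℂ H] [CompleteSpace H] (E : K → K → (H →L[ℂ] H)),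
    (∀ a b c d, E a b * E c d = if b = c then E a d else 0) → (∀ a b, star (E a b) = E b a) →
    ∀ (A : K → K → ℂ) (c : ℝ), 0 ≤ c → ∑ a, ∑ b, ‖A a b‖ ^ 2 ≤ c ^ 2 →
      ‖∑ a, ∑ b, A a b • E a b‖ ≤ c

/-- NRM: norms of the images of matrices. -/
def Stmt_NRM : Prop :=
  ∀ (D : ℕ → ℕ) (η : ℕ → ℝ) (H : Type) [NormedAddCommGroup H] [InnerProductSpace ℂ H]
    [CompleteSpace H] (s : Sys D η H) (i : ℕ),
    (∀ (A : Mt (D i)) (c : ℝ), 0 ≤ c → ∑ a, ∑ b, ‖A a b‖ ^ 2 ≤ c ^ 2 → ‖s.π i A‖ ≤ c) ∧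
    ‖s.π i (tM (D i))‖ ≤ 1 ∧ (∀ k : ℕ, ‖s.π i (tM (D i) ^ k)‖ ≤ 1) ∧
    ‖s.π i (dM (D i))‖ ≤ ((D i : ℝ) + 1) ^ 2 ∧ (∀ n, ‖s.P n‖ ≤ 1) ∧
    (∀ n N, n ≤ N → s.P n * s.P N = s.P n ∧ s.P N * s.P n = s.P n) ∧
    (∀ n i, n ≤ i → s.π i (jM (D i)) * s.P n = s.P n) ∧
    (∀ n N x, n ≤ N → s.P N x = x → (∀ i, n ≤ i → i < N → s.π i (jM (D i)) x = x) → s.P n x = x)

/-- WINS: elementary facts about the window polynomials. -/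
def Stmt_WINS : Prop :=
  ∀ D d : ℕ, d ≤ D → (∀ r p, 0 ≤ win D d r p) ∧
    (∀ r p, p ≤ D → r ≤ d → win D d r p ≤ 1) ∧
    (∀ p, p ≤ D → ∑ r ∈ Finset.range (d + 1), win D d r p = 1) ∧
    (∀ r, r ≤ d → ∑ p ∈ Finset.range (D + 1), win D d r p = ((D : ℝ) + 1) / ((d : ℝ) + 1))

/-- WINP: two distant windows in the wrong order. -/
def Stmt_WINP : Prop :=
  ∀ D d r g h p p' : ℕ, d ≤ D → r + g ≤ d → 4 * h ≤ g → p' ≤ p → p ≤ D →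
    win D d r p * win D d (r + g) p' ≤ Real.exp (-((g : ℝ) * (h : ℝ) / (d : ℝ)))

/-- WINA: the causal window matrices are killed by `2 d + 1` commutators with the shift. -/
def Stmt_WINA : Prop :=
  ∀ D d r g : ℕ, d ≤ D → r + g ≤ d → (adT D)^[2 * d + 1] (xM D d r g) = 0

/-- LIFT: lifting an element of level `m + 1` of the commutant to level `m + 2`. -/
def Stmt_LIFT : Prop :=
  ∀ (D : ℕ → ℕ) (η : ℕ → ℝ) (H : Type) [NormedAddCommGroup H] [InnerProductSpace ℂ H]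
    [CompleteSpace H] (s : Sys D η H) (m k : ℕ) (Φ : H →L[ℂ] H) (X : Mt (D (m + 1))),
    0 < η m → 0 ≤ η (m + 1) → Φ ∈ s.Cn (m + 1) → (adT (D (m + 1)))^[k + 1] X = 0 →
    ‖s.π (m + 1) X‖ ≤ 1 →
    ∃ Φ' ∈ s.Cn (m + 2),
      ‖Φ' - Φ * s.π m (tM (D m) ^ k) * s.π (m + 1) X‖ ≤ ‖Φ‖ * ee D η m

/-- DESC: one step of the descent. -/
def Stmt_DESC : Prop :=
  ∀ (D : ℕ → ℕ) (η : ℕ → ℝ) (H : Type) [NormedAddCommGroup H] [InnerProductSpace ℂ H]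
    [CompleteSpace H] (s : Sys D η H) (m k d g h r : ℕ) (θ : ℝ) (x φ : H),
    0 < η m → 0 ≤ η (m + 1) → ee D η m ≤ 1 → 2 * d ≤ k → d ≤ D (m + 1) → r + g ≤ d → 4 * h ≤ g →
    0 ≤ θ → s.Small (m + 2) x φ θ →
    s.Small (m + 1) (s.π (m + 1) (rM (D (m + 1)) d r) (s.π m (tM (D m) ^ k) x))
      (s.π (m + 1) (rM (D (m + 1)) d (r + g)) φ)
      (((d : ℝ) + 1) ^ 2 *
        (2 * θ + (Real.exp (-((g : ℝ) * (h : ℝ) / (d : ℝ))) + ee D η m) * (‖x‖ * ‖φ‖)))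

/-- BES: Bessel inequality for the windows. -/
def Stmt_BES : Prop :=
  ∀ (D : ℕ → ℕ) (η : ℕ → ℝ) (H : Type) [NormedAddCommGroup H] [InnerProductSpace ℂ H]
    [CompleteSpace H] (s : Sys D η H) (i d : ℕ) (x : H), d ≤ D i →
    ∑ r ∈ Finset.range (d + 1), ‖s.π i (rM (D i) d r) x‖ ^ 2 ≤ ((d : ℝ) + 1) * ‖x‖ ^ 2

/-- FLT: flat vectors. -/
def Stmt_FLT : Prop :=
  (∀ D d r : ℕ, d ≤ D → r ≤ d → rM D d r * jM D = jM D ∧ jM D * rM D d r = rM D d r) ∧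
  ∀ (D : ℕ → ℕ) (η : ℕ → ℝ) (H : Type) [NormedAddCommGroup H] [InnerProductSpace ℂ H]
    [CompleteSpace H] (s : Sys D η H) (i k : ℕ) (x : H), s.π i (jM (D i)) x = x →
    ‖s.π i (tM (D i) ^ k) x - x‖ ≤ Real.sqrt ((k : ℝ) / ((D i : ℝ) + 1)) * ‖x‖

/-- PIG: choice of a good window. -/
def Stmt_PIG : Prop :=
  ∀ (D : ℕ → ℕ) (η : ℕ → ℝ) (H : Type) [NormedAddCommGroup H] [InnerProductSpace ℂ H]
    [CompleteSpace H] (s : Sys D η H) (i d g : ℕ) (W : H →L[ℂ] H) (z x0 φ φ0 : H),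
    g ≤ d → d ≤ D i → (∀ A, Commute W (s.π i A)) → s.π i (jM (D i)) x0 = x0 →
    s.π i (jM (D i)) φ0 = φ0 →
    ∃ r, r + g ≤ d ∧
      ‖W (s.π i (rM (D i) d r) z - x0)‖ ^ 2 + ‖W (s.π i (rM (D i) d (r + g)) φ - φ0)‖ ^ 2 ≤
        (((d : ℝ) + 1) / ((d : ℝ) - g + 1)) * (‖W (z - x0)‖ ^ 2 + ‖W (φ - φ0)‖ ^ 2)

/-- ITER: from all levels down to level `l + 1`. -/
def Stmt_ITER : Prop :=
  ∀ (f c D : ℕ → ℕ) (η B : ℕ → ℝ), Par f c D η B → ∀ (H : Type) [NormedAddCommGroup H]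
    [InnerProductSpace ℂ H] [CompleteSpace H] (s : Sys D η H) (l : ℕ) (x φ : H),
    ‖x‖ = 1 → ‖φ‖ = 1 → (∀ Φ : H →L[ℂ] H, Commute Φ s.T → (inner ℂ φ (Φ x) : ℂ) = 0) →
    ‖x - s.P l x‖ ≤ 1 / 2048 → ‖φ - s.P l φ‖ ≤ 1 / 2048 →
    ∃ u α : H, s.P (l + 1) u = u ∧ s.P (l + 1) α = α ∧ ‖u - s.P l x‖ ≤ 5 / 2048 ∧
      ‖α - s.P l φ‖ ≤ 5 / 2048 ∧
      s.Small (l + 1) (s.π l (tM (D l) ^ (2048 * f l)) u) α
        (3 / 4 * Real.exp (-(32 * (f l : ℝ))))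

/-- LEMN: products of power series (Gelfond's lemma). -/
def Stmt_LEMN : Prop :=
  ∀ (P Q : ℕ → ℂ) (p p' : ℝ) (b L i j : ℕ), (∀ n, ‖P n‖ ≤ 1) → (∀ n, ‖Q n‖ ≤ 1) → 0 < p →
    0 < p' → p ≤ ‖P i‖ → p' ≤ ‖Q j‖ → i ≤ b → j ≤ b → b ≤ L →
    2 * 8 ^ (4 * b) ≤ p * p' * 8 ^ L →
    ∃ l, l ≤ L ∧ p * p' / (4 * 64 ^ (2 * b) * 4 ^ L) ≤
      ‖∑ k ∈ Finset.range (l + 1), P k * Q (l - k)‖

/-- The conclusion of Lemma Q for the nilpotency order `q`, the coefficient `e` and `D l = 4096 f`. -/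
def Good (q : ℕ) (e : ℝ) (f : ℕ) : Prop :=
  ∀ (D : ℕ → ℕ) (η : ℕ → ℝ) (H : Type) [NormedAddCommGroup H] [InnerProductSpace ℂ H]
    [CompleteSpace H] (s : Sys D η H) (l : ℕ), (∀ i, 0 < η i) → (∀ i, η i ≤ (1 / 2) ^ i) →
    q = 1 + ∑ i ∈ Finset.range l, D i → η l = e → D l = 4096 * f →
    ∀ u α x0 φ0 : H, s.P (l + 1) u = u → s.P (l + 1) α = α → s.P l x0 = x0 → s.P l φ0 = φ0 →
      1 / 2 ≤ ‖x0‖ → 1 / 2 ≤ ‖φ0‖ → ‖u - x0‖ ≤ 5 / 2048 → ‖α - φ0‖ ≤ 5 / 2048 → ‖u‖ ≤ 2 →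
      ‖α‖ ≤ 2 →
      ∃ Φ ∈ s.Cn (l + 1), Φ ≠ 0 ∧ Real.exp (-(32 * (f : ℝ))) * ‖Φ‖ ≤
        ‖(inner ℂ α (Φ (s.π l (tM (D l) ^ (2048 * f)) u)) : ℂ)‖

/-- LEMQ: Lemma Q. -/
def Stmt_LEMQ : Prop := ∀ (q : ℕ) (e : ℝ), 0 < e → ∀ᶠ f in atTop, Good q e f

/-- PAR: existence of the parameters. -/
def Stmt_PAR : Prop :=
  ∀ G : ℕ → ℝ → ℕ → Prop, (∀ (q : ℕ) (e : ℝ), 0 < e → ∀ᶠ f in atTop, G q e f) →
    ∃ (f c D : ℕ → ℕ) (η B : ℕ → ℝ), Par f c D η B ∧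
      ∀ l, G (1 + ∑ i ∈ Finset.range l, D i) (η l) (f l)

/-- MODU: partial permutations of an index set act on `ℓ²`. -/
def Stmt_MODU : Prop :=
  ∀ I : Type, ∃ U : (I ≃. I) → (lp (fun _ : I => ℂ) 2 →L[ℂ] lp (fun _ : I => ℂ) 2),
    (∀ (σ : I ≃. I) (x : lp (fun _ : I => ℂ) 2) (c : I),
      (U σ x : I → ℂ) c = (σ c).elim 0 (fun c' => (x : I → ℂ) c')) ∧
    (∀ σ τ : I ≃. I, U σ * U τ = U (σ.trans τ)) ∧ (∀ σ : I ≃. I, star (U σ) = U σ.symm) ∧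
    (∀ σ : I ≃. I, ‖U σ‖ ≤ 1)

/-- MODM: matrix units give a representation in which `jM n` becomes the matrix unit `E 0 0`. -/
def Stmt_MODM : Prop :=
  ∀ (n : ℕ) (H : Type) [NormedAddCommGroup H] [InnerProductSpace ℂ H] [CompleteSpace H]
    (E : Fin (n + 1) → Fin (n + 1) → (H →L[ℂ] H)),
    (∀ a b c d, E a b * E c d = if b = c then E a d else 0) → (∀ a b, star (E a b) = E b a) →
    ∑ a, E a a = 1 →
    ∃ ρ : Mt n →⋆ₐ[ℂ] (H →L[ℂ] H), ρ (jM n) = E 0 0 ∧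
      ∀ A, ρ A ∈ Submodule.span ℂ (Set.range fun p : Fin (n + 1) × Fin (n + 1) => E p.1 p.2)

/-- MOD: existence of the system. -/
def Stmt_MOD : Prop :=
  ∀ (D : ℕ → ℕ) (η : ℕ → ℝ), (∀ i, 1 ≤ D i) → (∀ i, 0 < η i) → (∀ i, η i ≤ (1 / 2) ^ i) →
    ∃ (H : Type) (_ : NormedAddCommGroup H) (_ : InnerProductSpace ℂ H) (_ : CompleteSpace H),
      TopologicalSpace.SeparableSpace H ∧ ¬ FiniteDimensional ℂ H ∧ Nonempty (Sys D η H)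

/-- REFL: Hilbert spaces are reflexive. -/
def Stmt_REFL : Prop :=
  ∀ (H : Type) [NormedAddCommGroup H] [InnerProductSpace ℂ H] [CompleteSpace H],
    Function.Surjective (NormedSpace.inclusionInDoubleDual ℂ H)

/-- TNS: the operator `T` is not scalar. -/
def Stmt_TNS : Prop :=
  ∀ (D : ℕ → ℕ) (η : ℕ → ℝ) (H : Type) [NormedAddCommGroup H] [InnerProductSpace ℂ H]
    [CompleteSpace H] [Nontrivial H] (s : Sys D η H), 1 ≤ D 0 → η 0 ≠ 0 →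
    ∀ c : ℂ, s.T ≠ c • ContinuousLinearMap.id ℂ H

/-- MAINA: abstract main theorem. -/
def Stmt_MAINA : Prop :=
  ∃ (D : ℕ → ℕ) (η : ℕ → ℝ), (∀ i, 1 ≤ D i) ∧ (∀ i, 0 < η i) ∧ (∀ i, η i ≤ (1 / 2) ^ i) ∧
    ∀ (H : Type) [NormedAddCommGroup H] [InnerProductSpace ℂ H] [CompleteSpace H]
      (s : Sys D η H) (x φ : H),
      (∀ Φ : H →L[ℂ] H, Commute Φ s.T → (inner ℂ φ (Φ x) : ℂ) = 0) → x = 0 ∨ φ = 0

end Pool.Agent.HSP
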