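import Pool.Agent.HSP.Stmts

/-!
# The operator is not scalar
-/

set_option autoImplicit false

open Filter Topology
open scoped ComplexOrder

noncomputable section

namespace Pool.Agent.HSP

namespace TNS

variable {D : ℕ → ℕ} {η : ℕ → ℝ} {H : Type} [NormedAddCommGroup H] [InnerProductSpace ℂ H]
  [CompleteSpace H]

/-- commutators with `T` only see one site -/
theorem comm_T (s : Sys D η H) (i : ℕ) (A : Mt (D i)) :
    s.π i A * s.T - s.T * s.π i A = (η i : ℂ) • s.π i (A * tM (D i) - tM (D i) * A) := by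
  have h1 := s.hasSum.mul_left (s.π i A)
  have h2 := s.hasSum.mul_right (s.π i A)
  have h3 := h1.sub h2
  refine h3.unique ?_
  have h4 : ∀ j, j ≠ i → s.π i A * ((η j : ℂ) • s.π j (tM (D j))) -
      ((η j : ℂ) • s.π j (tM (D j))) * s.π i A = 0 := by
    intro j hj
    have h5 : s.π i A * s.π j (tM (D j)) = s.π j (tM (D j)) * s.π i A :=
      s.comm i j (Ne.symm hj) A (tM (D j))
    rw [mul_smul_comm, smul_mul_assoc, h5, sub_self]
  have h6 := hasSum_single (f := fun j => s.π i A * ((η j : ℂ) • s.π j (tM (D j))) -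
      ((η j : ℂ) • s.π j (tM (D j))) * s.π i A) i h4
  have h7 : s.π i A * ((η i : ℂ) • s.π i (tM (D i))) -
      ((η i : ℂ) • s.π i (tM (D i))) * s.π i A =
      (η i : ℂ) • s.π i (A * tM (D i) - tM (D i) * A) := by
    rw [mul_smul_comm, smul_mul_assoc, ← smul_sub, map_sub, map_mul, map_mul]
  rw [← h7]
  exact h6

theorem single_tM {n : ℕ} (hn : 1 ≤ n) :
    (Matrix.single (0 : Fin (n + 1)) (⟨1, by omega⟩ : Fin (n + 1)) (1 : ℂ)) * tM n -
      tM n * Matrix.single (0 : Fin (n + 1)) (⟨1, by omega⟩ : Fin (n + 1)) (1 : ℂ) =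
    Matrix.single (0 : Fin (n + 1)) (0 : Fin (n + 1)) (1 : ℂ) -
      Matrix.single (⟨1, by omega⟩ : Fin (n + 1)) (⟨1, by omega⟩ : Fin (n + 1)) (1 : ℂ) := by
  have e1 : (Matrix.single (0 : Fin (n + 1)) (⟨1, by omega⟩ : Fin (n + 1)) (1 : ℂ)) * tM n =
      Matrix.single (0 : Fin (n + 1)) (0 : Fin (n + 1)) (1 : ℂ) := by
    ext a b
    by_cases ha : a = 0
    · subst ha
      rw [Matrix.single_mul_apply_same]
      unfold tM
      by_cases hb : b = 0
      · subst hb
        simp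
      · have hb' : (b : ℕ) ≠ 0 := fun h => hb (Fin.ext h)
        have hb2 : (0 : Fin (n + 1)) ≠ b := Ne.symm hb
        rw [Matrix.single_apply_of_col_ne (0 : Fin (n + 1)) (0 : Fin (n + 1)) hb2 (1 : ℂ)]
        rw [if_neg (by simp only; omega), mul_zero]
    · rw [Matrix.single_mul_apply_of_ne _ _ _ _ _ ha, Matrix.single_apply_of_row_ne (Ne.symm ha)]
  have e2 : tM n * (Matrix.single (0 : Fin (n + 1)) (⟨1, by omega⟩ : Fin (n + 1)) (1 : ℂ)) =
      Matrix.single (⟨1, by omega⟩ : Fin (n + 1)) (⟨1, by omega⟩ : Fin (n + 1)) (1 : ℂ) := by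
    ext a b
    by_cases hb : b = ⟨1, by omega⟩
    · subst hb
      rw [Matrix.mul_single_apply_same]
      unfold tM
      by_cases ha : a = ⟨1, by omega⟩
      · subst ha
        simp
      · have ha' : (a : ℕ) ≠ 1 := fun h => ha (Fin.ext h)
        rw [Matrix.single_apply_of_row_ne (Ne.symm ha)]
        rw [if_neg (by simp only [Fin.val_zero]; omega), zero_mul]
    · rw [Matrix.mul_single_apply_of_ne _ _ _ _ _ hb,
        Matrix.single_apply_of_col_ne _ _ (Ne.symm hb)]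
  rw [e1, e2]

end TNS

theorem t_TNS : Stmt_TNS := by
  intro D η H _ _ _ _ s hD hη c hT
  have h1 := TNS.comm_T s 0 (Matrix.single (0 : Fin (D 0 + 1)) (⟨1, by omega⟩ : Fin (D 0 + 1)) (1 : ℂ))
  have h2 : s.T = c • (1 : H →L[ℂ] H) := hT
  rw [h2, mul_smul_comm, smul_mul_assoc, mul_one, one_mul, sub_self] at h1
  have h3 : s.π 0 (Matrix.single (0 : Fin (D 0 + 1)) (0 : Fin (D 0 + 1)) (1 : ℂ) -
      Matrix.single (⟨1, by omega⟩ : Fin (D 0 + 1)) (⟨1, by omega⟩ : Fin (D 0 + 1)) (1 : ℂ)) = 0 := by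
    rw [TNS.single_tM hD] at h1
    have h4 : ((η 0 : ℝ) : ℂ) ≠ 0 := by exact_mod_cast hη
    exact (smul_eq_zero.1 h1.symm).resolve_left h4
  have h5 : s.π 0 (Matrix.single (0 : Fin (D 0 + 1)) (0 : Fin (D 0 + 1)) (1 : ℂ)) = 0 := by
    have h6 : Matrix.single (0 : Fin (D 0 + 1)) (0 : Fin (D 0 + 1)) (1 : ℂ) *
        (Matrix.single (0 : Fin (D 0 + 1)) (0 : Fin (D 0 + 1)) (1 : ℂ) -
        Matrix.single (⟨1, by omega⟩ : Fin (D 0 + 1)) (⟨1, by omega⟩ : Fin (D 0 + 1)) (1 : ℂ)) =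
        Matrix.single (0 : Fin (D 0 + 1)) (0 : Fin (D 0 + 1)) (1 : ℂ) := by
      rw [mul_sub, Matrix.single_mul_single_same, Matrix.single_mul_single_of_ne, sub_zero, mul_one]
      intro h
      have := congrArg Fin.val h
      simp at this
    rw [← h6, map_mul, h3, mul_zero]
  have h7 : ∀ a : Fin (D 0 + 1), s.π 0 (Matrix.single a a (1 : ℂ)) = 0 := by
    intro a
    have h8 : Matrix.single a a (1 : ℂ) = Matrix.single a (0 : Fin (D 0 + 1)) (1 : ℂ) *
        Matrix.single (0 : Fin (D 0 + 1)) (0 : Fin (D 0 + 1)) (1 : ℂ) *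
        Matrix.single (0 : Fin (D 0 + 1)) a (1 : ℂ) := by
      rw [Matrix.single_mul_single_same, Matrix.single_mul_single_same, mul_one, mul_one]
    rw [h8, map_mul, map_mul, h5, mul_zero, zero_mul]
  have h9 : (1 : H →L[ℂ] H) = 0 := by
    have h10 : (1 : Mt (D 0)) = ∑ a : Fin (D 0 + 1), Matrix.single a a (1 : ℂ) :=
      Matrix.sum_single_one.symm
    rw [← map_one (s.π 0), h10, map_sum]
    exact Finset.sum_eq_zero fun a _ => h7 a
  obtain ⟨x, hx⟩ := exists_ne (0 : H)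
  apply hx
  have h11 : (1 : H →L[ℂ] H) x = (0 : H →L[ℂ] H) x := by rw [h9]
  simpa using h11

end Pool.Agent.HSP
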